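import Pool.Agent.H93.G2.Smy
import Pool.Agent.H57.G2.Fin

/-!
# H93 G2 SMZ: the small part of GP for `p = 2`, all fields

`smx2`: the statement `SMX 2`.
-/

set_option autoImplicit false

open scoped NumberField Pointwise Classical
open IsDedekindDomain H63.MA NumberField H57.GP.Q.E

noncomputable section

namespace H93.G2

theorem smx2 : SMX 2 := fun _ _ _ z hκ hz hM _ => smy ⟨hκ, ⟨z, hz⟩, hM⟩

end H93.G2
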