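import Pool.Agent.H57.G2.Chv

/-!
# H93 G2 CHW: the ray class character of a character of prime power order, with values `± 1` if the character is killed by `2`

`chw` is `H57.GP.Q.E.chv` with one more conclusion: if `2 θ = 0` then `χ(w) ^ 2 = 1` for the primes `w` which do not divide the modulus.
-/

set_option autoImplicit false

open scoped NumberField Pointwise Classical
open IsDedekindDomain H63.MA NumberField H36.QA H57.LI H57.LC H67.SX H38.ML H57.SL H57.RQ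

noncomputable section

namespace H57.GP.Q.E

section chw

variable {K : IntermediateField ℚ QBar} [NumberField K]

omit [NumberField K] in
private theorem chw_cl (E : IntermediateField K QBar) : IsAlgClosure E QBar where
  isAlgClosed := inferInstance
  isAlgebraic := Algebra.IsAlgebraic.tower_top (K := K) E

private theorem chw_mem {K : IntermediateField ℚ QBar} (E : IntermediateField K QBar)
    (σ : Gal(QBar/E)) : (σ.restrictScalars K : Gal(QBar/K)) ∈ E.fixingSubgroup := by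
  rw [IntermediateField.mem_fixingSubgroup_iff]
  intro x hx
  exact σ.commutes ⟨x, hx⟩

private theorem chw_ft {p : ℕ} {K : IntermediateField ℚ QBar} [NumberField K]
    (E : IntermediateField K QBar) [NumberField E] (θ : Gal(QBar/K) → ZMod p)
    (ft : ∃ M : IntermediateField K QBar, FiniteDimensional K M ∧
      ∀ σ ∈ M.fixingSubgroup, σ ∈ E.fixingSubgroup ∧ θ σ = 0) :
    ∃ M : IntermediateField E QBar, FiniteDimensional E M ∧
      ∀ σ ∈ M.fixingSubgroup, θ (σ.restrictScalars K) = 0 := by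
  obtain ⟨M, hM, hM'⟩ := ft
  have hE : FiniteDimensional K E := Module.Finite.of_restrictScalars_finite ℚ K E
  have hs : FiniteDimensional K (E ⊔ M : IntermediateField K QBar) :=
    IntermediateField.finiteDimensional_sup E M
  have hle : E ≤ E ⊔ M := le_sup_left
  have hs' : FiniteDimensional K (IntermediateField.extendScalars hle) := hs
  refine ⟨IntermediateField.extendScalars hle, ?_, ?_⟩
  · exact Module.Finite.of_restrictScalars_finite K E (IntermediateField.extendScalars hle)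
  · intro σ hσ
    have h1 : (σ.restrictScalars K : Gal(QBar/K)) ∈ M.fixingSubgroup := by
      rw [IntermediateField.mem_fixingSubgroup_iff]
      intro x hx
      exact (IntermediateField.mem_fixingSubgroup_iff _ _).1 hσ x
        ((le_sup_right : M ≤ E ⊔ M) hx)
    exact (hM' _ h1).2

private theorem chw_nd {p : ℕ} (B : Finset (Pl K)) (l : Pl K) (h3 : ¬ Above p l) (hB : l ∉ B) :
    ¬ l.asIdeal ∣ mB p B := by
  intro hd
  rcases (HeightOneSpectrum.prime l).dvd_or_dvd hd with h1 | h1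
  · have h2 : (p : 𝓞 K) ^ 3 ∈ l.asIdeal := Ideal.dvd_span_singleton.1 h1
    exact h3 (l.isPrime.mem_of_pow_mem 3 h2)
  · obtain ⟨w, hwE, h2⟩ := (HeightOneSpectrum.prime l).exists_mem_finset_dvd h1
    have h3 : w.asIdeal ≤ l.asIdeal := Ideal.le_of_dvd h2
    have h4 : w = l := HeightOneSpectrum.ext (w.isMaximal.eq_of_le l.isPrime.ne_top h3)
    exact hB (h4 ▸ hwE)

private theorem chw_nd2 (E : IntermediateField K QBar) [NumberField E] (J : Ideal (𝓞 K)) (w : Pl E) (l : Pl K)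
    (hw : Over w l) (h : w.asIdeal ∣ md J E) : l.asIdeal ∣ J := by
  have h1 : md J E ≤ w.asIdeal := Ideal.le_of_dvd h
  have h2 : J ≤ w.asIdeal.comap (algebraMap (𝓞 K) (𝓞 E)) := Ideal.map_le_iff_le_comap.1 h1
  rw [show w.asIdeal.comap (algebraMap (𝓞 K) (𝓞 E)) = l.asIdeal from hw] at h2
  exact Ideal.dvd_iff_le.2 h2

private theorem chw_above {p : ℕ} (E : IntermediateField K QBar) [NumberField E] (w : Pl E) (l : Pl K)
    (hw : Over w l) (h : Above p w) : Above p l := by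
  unfold Above at h ⊢
  rw [← (show w.asIdeal.comap (algebraMap (𝓞 K) (𝓞 E)) = l.asIdeal from hw), Ideal.mem_comap,
    map_natCast]
  exact h

private theorem chw_above' {p : ℕ} (E : IntermediateField K QBar) [NumberField E] (w : Pl E) (l : Pl K)
    (hw : Over w l) (h : Above p l) : Above p w := by
  unfold Above at h ⊢
  rw [← (show w.asIdeal.comap (algebraMap (𝓞 K) (𝓞 E)) = l.asIdeal from hw), Ideal.mem_comap,
    map_natCast] at h
  exact h

private theorem chw_md (E : IntermediateField K QBar) [NumberField E] (J : Ideal (𝓞 K)) (h : J ≠ ⊥) : md J E ≠ ⊥ := by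
  unfold md
  rw [Ne, Ideal.map_eq_bot_iff_of_injective (FaithfulSMul.algebraMap_injective (𝓞 K) (𝓞 E))]
  exact h

private theorem chw_copr {M : Type} [Field M] [NumberField M] (w : Pl M) (J : Ideal (𝓞 M))
    (h : ¬ w.asIdeal ∣ J) : IsCoprime w.asIdeal J := by
  rw [Ideal.isCoprime_iff_sup_eq]
  by_contra hne
  have h1 : w.asIdeal = w.asIdeal ⊔ J := w.isMaximal.eq_of_le hne le_sup_left
  exact h (Ideal.dvd_iff_le.2 (by rw [h1]; exact le_sup_right))

end chw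

theorem chw {ℓ p : ℕ} (hp : PQ ℓ p) {K : IntermediateField ℚ QBar} [NumberField K] (hp2 : MQ ℓ p K) {ζ : K}
    (hζ : IsPrimitiveRoot ζ p) (E : IntermediateField K QBar) [NumberField E]
    (θ : Gal(QBar/K) → ZMod p) (B : Finset (Pl K)) (h : Th p E θ B) :
    ∃ χ : RC E (md (mB p B) E), Vl p E θ B χ ∧ ((∃ σ ∈ E.fixingSubgroup, θ σ ≠ 0) → χ.Non) ∧
      ((∃ σ ∈ E.fixingSubgroup, θ σ + θ σ ≠ 0) → Non2 χ) ∧
      ((∀ σ ∈ E.fixingSubgroup, θ σ + θ σ = 0) → ∀ w : Pl E, ¬ w.asIdeal ∣ md (mB p B) E → χ.χ w.asIdeal ^ 2 = 1) := by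
  have hp' := hp
  have hwit := fun (θ' : Gal(QBar/K) → ZMod p) (hθ' : Th p E θ' B) hne J h0 =>
    chv_wit hp hp2 hζ E θ' B hθ' hne J h0
  obtain ⟨hℓ, k, rfl⟩ := hp
  have hq0 : 0 < ℓ ^ (k + 1) := hp'.pos
  have hcl : IsAlgClosure E QBar := chw_cl E
  have hζE : IsPrimitiveRoot (algebraMap K E ζ) (ℓ ^ (k + 1)) :=
    hζ.map_of_injective (algebraMap K E).injective
  obtain ⟨δ, β, hβ, hχβ⟩ := kmk (Ω := QBar) hℓ hζE (fun τ => θ (τ.restrictScalars K))
    (fun σ τ => h.mul _ (chw_mem E σ) _ (chw_mem E τ)) (chw_ft E θ h.ft)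
  have ho : ∀ w : Pl E, ¬ Above ℓ w → (∀ v ∈ B, ¬ Over w v) →
      ((ℓ ^ (k + 1) : ℕ) : ℤ) ∣ ord w δ := by
    intro w hw hwB
    refine kmk_ord hℓ (Nat.succ_pos k) hζE hβ hχβ hw fun P hP hPw τ hτ => ?_
    obtain ⟨l, hl⟩ := exists_below (K := K) w
    have hlB : l ∉ B := fun hb => hwB l hb hl
    have hl3 : ¬ Above (ℓ ^ (k + 1)) l := fun h3 =>
      hw ((pq_above hp' w).1 (chw_above' E w l hl h3))
    have hund : P.under (𝓞 K) = l.asIdeal := by
      rw [← (show w.asIdeal.comap (algebraMap (𝓞 K) (𝓞 E)) = l.asIdeal from hl), ← hPw]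
      ext x
      exact Iff.rfl
    exact (h.unr l hl3 hlB P hP hund (τ.restrictScalars K) (fun x => hτ x)).2
  have h0 : md (mB (ℓ ^ (k + 1)) B) E ≠ ⊥ := chw_md E _ (mB_ne hp' B)
  have h3 : Ideal.span {(ℓ : 𝓞 E) ^ (k + 1 + 2)} ∣ md (mB (ℓ ^ (k + 1)) B) E := by
    have e : md (mB (ℓ ^ (k + 1)) B) E =
        Ideal.span {((ℓ ^ (k + 1) : ℕ) : 𝓞 E) ^ 3} * md (∏ v ∈ B, v.asIdeal) E := by
      unfold md mB
      rw [Ideal.map_mul, Ideal.map_span, Set.image_singleton, map_pow, map_natCast]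
    rw [e]
    refine Dvd.dvd.mul_right ?_ _
    rw [Ideal.dvd_iff_le, Ideal.span_singleton_le_span_singleton, Nat.cast_pow, ← pow_mul]
    exact pow_dvd_pow _ (by omega)
  have hb : ∀ w : Pl E, ¬ Above ℓ w → ¬ ((ℓ ^ (k + 1) : ℕ) : ℤ) ∣ ord w δ →
      w.asIdeal ∣ md (mB (ℓ ^ (k + 1)) B) E := by
    intro w hw3 hw
    by_contra hnd
    apply hw
    refine ho w hw3 fun v hv hvw => hnd ?_
    have h4 : mB (ℓ ^ (k + 1)) B ≤ v.asIdeal := by
      unfold mB
      exact Ideal.le_of_dvd ((Finset.dvd_prod_of_mem _ hv).mul_left _)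
    have h5 : md (mB (ℓ ^ (k + 1)) B) E ≤ w.asIdeal := by
      unfold md
      rw [Ideal.map_le_iff_le_comap]
      rw [show w.asIdeal.comap (algebraMap (𝓞 K) (𝓞 E)) = v.asIdeal from hvw]
      exact h4
    exact Ideal.dvd_iff_le.2 h5
  obtain ⟨χ, hχ⟩ := H57.RQ.N.rck hℓ (hp2.up E).mm (H57.RQ.N.rk hℓ (k + 1)) hζE δ (md (mB (ℓ ^ (k + 1)) B) E) h0 h3 hb
  -- the value at a Frobenius element of `E`
  have hval : ∀ (w : Pl E), ¬ w.asIdeal ∣ md (mB (ℓ ^ (k + 1)) B) E → ¬ Above ℓ w →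
      (∀ v ∈ B, ¬ Over w v) → ∀ (P : Ideal (𝓞 QBar)), P.IsPrime → P.under (𝓞 E) = w.asIdeal →
      ∀ F : Gal(QBar/E), (∀ x : 𝓞 QBar, F • x - x ^ nm w ∈ P) →
      χ.χ w.asIdeal = ep (ℓ ^ (k + 1)) (θ (F.restrictScalars K)) := by
    intro w hnd hw hwB P hP hPw F hF
    obtain ⟨π, hπ⟩ := exists_unif w
    rw [hχ w hnd π hπ, ← kmk_fr hℓ hζE hβ hχβ hw (ho w hw hwB) hπ hP hPw hF]
  have hwB' : ∀ w : Pl E, ¬ w.asIdeal ∣ md (mB (ℓ ^ (k + 1)) B) E → ∀ v ∈ B, ¬ Over w v := by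
    intro w hnd v hv hvw
    apply hnd
    have h4 : mB (ℓ ^ (k + 1)) B ≤ v.asIdeal := by
      unfold mB
      exact Ideal.le_of_dvd ((Finset.dvd_prod_of_mem _ hv).mul_left _)
    have h5 : md (mB (ℓ ^ (k + 1)) B) E ≤ w.asIdeal := by
      unfold md
      rw [Ideal.map_le_iff_le_comap]
      rw [show w.asIdeal.comap (algebraMap (𝓞 K) (𝓞 E)) = v.asIdeal from hvw]
      exact h4
    exact Ideal.dvd_iff_le.2 h5
  refine ⟨χ, ?_, ?_, ?_, ?_⟩
  · intro Q l hl3 hlB hnp τ hτ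
    have hIT : IT QBar E l := th_IT E θ B h l hl3 hlB
    have hfix : ac (fr Q l) (ac τ E.val) = ac τ E.val := by
      ext x
      have h2 := (IntermediateField.mem_fixingSubgroup_iff E _).1 hτ x.1 x.2
      have h4 : τ ((τ⁻¹ * fr Q l * τ) (x : QBar)) = τ (x : QBar) := congrArg τ h2
      have h5 : τ ((τ⁻¹ * fr Q l * τ) (x : QBar)) = fr Q l (τ (x : QBar)) := by
        rw [← AlgEquiv.mul_apply, ← mul_assoc, ← mul_assoc, mul_inv_cancel, one_mul, AlgEquiv.mul_apply]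
      rw [h5] at h4
      exact h4
    have hnm : nm (pe E Q l (ac τ E.val)) = nm l := (dic_fix E Q l hIT (ac τ E.val)).1 hfix
    have hov : Over (pe E Q l (ac τ E.val)) l := pe_over E Q l (ac τ E.val)
    obtain ⟨w, hw⟩ : ∃ w : Pl E, w = pe E Q l (ac τ E.val) := ⟨_, rfl⟩
    rw [← hw] at hnm hov ⊢
    have hw3 : ¬ Above ℓ w := fun h => hl3 (chw_above E w l hov ((pq_above hp' w).2 h))
    have hnd : ¬ w.asIdeal ∣ md (mB (ℓ ^ (k + 1)) B) E := fun hd =>
      chw_nd B l hl3 hlB (chw_nd2 E _ w l hov hd)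
    have hwB : ∀ v ∈ B, ¬ Over w v := fun v hv hvw =>
      hlB ((HeightOneSpectrum.ext ((show w.asIdeal.comap (algebraMap (𝓞 K) (𝓞 E)) = v.asIdeal from hvw).symm.trans
        hov) : v = l) ▸ hv)
    have hPp : (τ⁻¹ • Q.P l).IsPrime := by
      have := Q.prime l
      infer_instance
    have hPw : (τ⁻¹ • Q.P l).under (𝓞 E) = w.asIdeal := by
      rw [hw]
      ext x
      show algebraMap (𝓞 E) (𝓞 QBar) x ∈ τ⁻¹ • Q.P l ↔ _
      rw [Ideal.mem_inv_pointwise_smul_iff, mem_pe]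
      exact Iff.rfl
    have hF : ∀ x : 𝓞 QBar, sE E (τ⁻¹ * fr Q l * τ) hτ • x - x ^ nm w ∈ τ⁻¹ • Q.P l := by
      intro x
      rw [Ideal.mem_inv_pointwise_smul_iff, smul_sub, hnm]
      have h5 := fr_spec Q l (τ • x)
      have h6 : τ • (sE E (τ⁻¹ * fr Q l * τ) hτ • x) = fr Q l • (τ • x) := by
        have h7 : sE E (τ⁻¹ * fr Q l * τ) hτ • x = (τ⁻¹ * fr Q l * τ) • x := rfl
        rw [h7, mul_smul, mul_smul, smul_inv_smul]
      rw [h6, smul_pow']
      exact h5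
    rw [hval w hnd hw3 hwB _ hPp hPw _ hF]
    congr 1
  · intro hne
    obtain ⟨w, hnd, hw, P, hP, hPw, F, hF, hθF⟩ := hwit θ h hne _ h0
    refine ⟨w.asIdeal, w.ne_bot, chw_copr w _ hnd, ?_⟩
    rw [hval w hnd hw (hwB' w hnd) P hP hPw F hF, Ne, ep_eq_oneq hp']
    exact hθF
  · intro hne
    have h2 : Th (ℓ ^ (k + 1)) E (fun σ => θ σ + θ σ) B := by
      refine ⟨fun σ hσ τ hτ => ?_, ?_, fun l hl hB P hP hPl τ hτ => ?_⟩
      · rw [h.mul σ hσ τ hτ]
        ring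
      · obtain ⟨M, hM, hM'⟩ := h.ft
        exact ⟨M, hM, fun σ hσ => ⟨(hM' σ hσ).1, by rw [(hM' σ hσ).2, add_zero]⟩⟩
      · obtain ⟨h1, h3⟩ := h.unr l hl hB P hP hPl τ hτ
        exact ⟨h1, by rw [h3, add_zero]⟩
    obtain ⟨w, hnd, hw, P, hP, hPw, F, hF, hθF⟩ := hwit _ h2 hne _ h0
    refine ⟨w.asIdeal, w.ne_bot, chw_copr w _ hnd, ?_⟩
    rw [hval w hnd hw (hwB' w hnd) P hP hPw F hF, sq, ← ep_addq hp', Ne, ep_eq_oneq hp']
    exact hθF
  · intro hz w hnd
    have hw : ¬ Above ℓ w := by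
      intro ha
      apply hnd
      refine dvd_trans ?_ h3
      rw [Ideal.dvd_span_singleton]
      exact w.asIdeal.pow_mem_of_mem ha _ (by omega)
    obtain ⟨P, hP, hPw⟩ := gloc_over E QBar w.asIdeal w.isPrime
    obtain ⟨F, hF⟩ := gfrob_ex (K := E) (Ω := QBar) P hP hPw
    rw [hval w hnd hw (hwB' w hnd) P hP hPw F hF, sq, ← ep_addq hp', ep_eq_oneq hp']
    exact hz _ (chw_mem E F)

end H57.GP.Q.E
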