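import Pool.Agent.H93.G2.Tra

/-!
# H93 G2 GRP: the group theory of the descent (p = 2^k)

[H93 G2 GRP] All statements are about a finite group `G`, `mj H ψ y = |H|^(-1) ∑_g th H ψ (g⁻¹ y g)` (Tra.lean), `ep p` is a character of `ZMod p`
with `ep p a = 1 ↔ a = 0` (`ep_eq_oneq`, `ep_addq`, `ep_norm`, `ep_zero`, H93/GQ/Def); `a + a = 0`, `a ≠ 0` gives `ep p a = -1`.
* `mj_top`: `mj ⊤ ψ y = ep p (ψ y)` (`ψ (g⁻¹ y g) = ψ y`). `mj_neg1`: `ep p a = 1 ∨ ep p a = -1` if `a + a = 0`.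
* `mj_spl`: `1_H = (1 + e(ε)) / 2` on `H'` (`ε = 0` on `H`, `h` on `H' \ H`), `card H' = 2 card H`: `mj H ψ' = mj H' ψ' + mj H' (ψ' + ε)`.
* `grp_up`: in a 2-group a proper subgroup is contained with index 2 in a subgroup (normalizer condition: `H < normalizer H`, a subgroup of order 2 of
  `normalizer H / H`; or Sylow: `Sylow.exists_subgroup_card_pow_succ`-type lemmas).
* `mj_341`: for each `g`: `z' = ± z`, `3 + 4 Re z' + Re z'^2 ≥ 0` where `z'^2 = z^2` (`|z| ≤ 1`: `3 + 4 x + x^2 - y^2 = 2 (1 + x)^2 + 1 - x^2 - y^2`).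
* `mj_pos`: `(1 + a)(1 + b) ≥ 0` for signs `a`, `b`. `mj_cj`: for `g` in the normalizer of `H` the conjugate character has the same induced character.
* `stp`: the step. `H'` from `grp_up`, `g ∈ H' \ H`. If `ψ (g⁻¹ y g) ≠ ψ y` for some `y ∈ H`: `ψ₂ y = ψ y + ψ (g⁻¹ y g)` and (A) by `mj_pos`, `mj_cj`.
  Otherwise `q` with `q + q = ψ (g^2)` (`g^2 ∈ H`; `ψ (g^2) ∈ {0, 2^(k-1)}`, `2 ≤ k`; `q ∈ {0, 2^(k-2)}`), `ψ' y = ψ y` on `H`, `ψ' y = ψ (y g⁻¹) + q` on `H' \ H`, `ψ'' = ψ' + ε`,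
  and (B) by `mj_spl` (`mj H ψ = mj H ψ'` because `ψ' = ψ` on `H`).
-/

set_option autoImplicit false

open scoped NumberField Pointwise Classical
open IsDedekindDomain H63.MA NumberField H57.GP H57.GP.Q

noncomputable section

namespace H93.G2

variable {G : Type} [Group G] [Fintype G] {p : ℕ}

theorem ep_pm (hp : PQ 2 p) {a : ZMod p} (h : a + a = 0) : ep p a = 1 ∨ ep p a = -1 := by
  have h1 : ep p a * ep p a = 1 := by
    rw [← ep_addq hp, h, ep_zero]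
  exact mul_self_eq_one_iff.1 h1

theorem ep_neg1 (hp : PQ 2 p) {a : ZMod p} (h : a + a = 0) (h0 : a ≠ 0) : ep p a = -1 :=
  (ep_pm hp h).resolve_left fun h1 => h0 ((ep_eq_oneq hp a).1 h1)

theorem mj_congr {H : Subgroup G} {ψ ψ' : G → ZMod p} (h : ∀ y ∈ H, ψ y = ψ' y) (y : G) : mj H ψ y = mj H ψ' y := by
  unfold mj
  congr 1
  refine Finset.sum_congr rfl fun g _ => ?_
  unfold th
  by_cases h1 : g⁻¹ * y * g ∈ H
  · rw [if_pos h1, if_pos h1, h _ h1]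
  · rw [if_neg h1, if_neg h1]

private theorem lc_one {H : Subgroup G} {ψ : G → ZMod p} (h : Lc H ψ) : ψ 1 = 0 := by
  have h1 := h 1 (one_mem _) 1 (one_mem _)
  rw [mul_one] at h1
  exact left_eq_add.1 h1

theorem mj_top (_hp : PQ 2 p) {ψ : G → ZMod p} (h : Lc ⊤ ψ) (y : G) : mj ⊤ ψ y = ep p (ψ y) := by
  have h1 : ∀ g : G, ψ (g⁻¹ * y * g) = ψ y := fun g => by
    have h2 : ψ g⁻¹ + ψ g = 0 := by
      rw [← h _ trivial _ trivial, inv_mul_cancel]
      exact lc_one h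
    rw [h _ trivial _ trivial, h _ trivial _ trivial]
    calc ψ g⁻¹ + ψ y + ψ g = ψ y + (ψ g⁻¹ + ψ g) := by ring
      _ = ψ y := by rw [h2, add_zero]
  have hth : ∀ g : G, th ⊤ ψ (g⁻¹ * y * g) = ep p (ψ y) := fun g => by
    unfold th
    rw [if_pos (Subgroup.mem_top _), h1]
  unfold mj
  simp only [hth]
  rw [Finset.sum_const, Finset.card_univ, nsmul_eq_mul, ← mul_assoc]
  have h3 : Fintype.card (⊤ : Subgroup G) = Fintype.card G :=
    Fintype.card_congr Subgroup.topEquiv.toEquiv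
  rw [h3, inv_mul_cancel₀ (Nat.cast_ne_zero.2 Fintype.card_ne_zero), one_mul]

theorem mj_spl (hp : PQ 2 p) {H H' : Subgroup G} (hH : H ≤ H') (hc : Fintype.card H' = 2 * Fintype.card H)
    (ψ : G → ZMod p) {h : ZMod p} (h2 : h + h = 0) (h0 : h ≠ 0) (y : G) :
    mj H ψ y = mj H' ψ y + mj H' (fun z => ψ z + if z ∈ H then 0 else h) y := by
  have h1 : ∀ z : G, th H ψ z = 2⁻¹ * (th H' ψ z + th H' (fun z => ψ z + if z ∈ H then 0 else h) z) := by
    intro z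
    unfold th
    beta_reduce
    by_cases hz : z ∈ H
    · rw [if_pos hz, if_pos (hH hz), if_pos (hH hz), if_pos hz, add_zero]
      ring
    · rw [if_neg hz]
      by_cases hz' : z ∈ H'
      · rw [if_pos hz', if_pos hz', if_neg hz, ep_addq hp, ep_neg1 hp h2 h0]
        ring
      · rw [if_neg hz', if_neg hz']
        ring
  unfold mj
  simp only [h1]
  rw [← Finset.mul_sum, Finset.sum_add_distrib, hc]
  push_cast
  have h3 : (Fintype.card H : ℂ) ≠ 0 := Nat.cast_ne_zero.2 Fintype.card_ne_zero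
  field_simp

/-- a subgroup of index two over `H` -/
theorem grp_up (hG : IsPGroup 2 G) {H : Subgroup G} (hH : H ≠ ⊤) :
    ∃ H' : Subgroup G, H < H' ∧ Fintype.card H' = 2 * Fintype.card H := by
  have : Fact (Nat.Prime 2) := ⟨Nat.prime_two⟩
  obtain ⟨n, hn⟩ := (IsPGroup.iff_card.1 (hG.to_subgroup H))
  obtain ⟨m, hm⟩ := (IsPGroup.iff_card.1 hG)
  have hlt : n < m := by
    have h1 : Nat.card H < Nat.card G := by
      refine lt_of_le_of_ne (Nat.card_le_card_of_injective _ H.subtype_injective) fun h => hH ?_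
      exact Subgroup.eq_top_of_card_eq H h
    rw [hn, hm] at h1
    exact (Nat.pow_lt_pow_iff_right (by norm_num)).1 h1
  obtain ⟨H', h1, h2⟩ := Sylow.exists_subgroup_card_pow_succ (p := 2) (n := n)
    (by rw [hm]; exact pow_dvd_pow 2 hlt) hn
  have h3 : Nat.card H' = 2 * Nat.card H := by
    rw [h1, hn, pow_succ]
    ring
  refine ⟨H', lt_of_le_of_ne h2 fun h => ?_, ?_⟩
  · rw [← h] at h3
    have : 0 < Nat.card H := Nat.card_pos
    omega
  · rw [← Nat.card_eq_fintype_card, ← Nat.card_eq_fintype_card]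
    exact h3

private theorem two_mem {H H' : Subgroup G} (hH : H ≤ H') (hc : Fintype.card H' = 2 * Fintype.card H) {a b : G}
    (ha : a ∈ H') (hb : b ∈ H') : a * b ∈ H ↔ (a ∈ H ↔ b ∈ H) := by
  have h1 : (H.subgroupOf H').index = 2 := by
    have h2 := Subgroup.index_mul_card (H.subgroupOf H')
    have h3 : Nat.card (H.subgroupOf H') = Nat.card H :=
      Nat.card_congr (Subgroup.subgroupOfEquivOfLe hH).toEquiv
    rw [h3, Nat.card_eq_fintype_card (α := H'), hc, Nat.card_eq_fintype_card] at h2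
    exact Nat.eq_of_mul_eq_mul_right Fintype.card_pos h2
  have h4 := Subgroup.mul_mem_iff_of_index_two h1 (a := ⟨a, ha⟩) (b := ⟨b, hb⟩)
  exact h4

/-- the character of `H'` with kernel `H` -/
theorem lc_eps {H H' : Subgroup G} (hH : H ≤ H') (hc : Fintype.card H' = 2 * Fintype.card H) {h : ZMod p}
    (h2 : h + h = 0) : Lc H' (fun z => if z ∈ H then (0 : ZMod p) else h) := by
  intro a ha b hb
  have h1 := two_mem hH hc ha hb
  by_cases h3 : a ∈ H <;> by_cases h4 : b ∈ H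
  · simp [h1, h3, h4]
  · simp [h1, h3, h4]
  · simp [h1, h3, h4]
  · simp [h1, h3, h4, h2]

private theorem th_sgn (hp : PQ 2 p) {H : Subgroup G} {ψ : G → ZMod p} (hr : ∀ y ∈ H, ψ y + ψ y = 0) (z : G) :
    (th H (fun _ => (0 : ZMod p)) z = 0 ∧ th H ψ z = 0) ∨
      (th H (fun _ => (0 : ZMod p)) z = 1 ∧ (th H ψ z = 1 ∨ th H ψ z = -1)) := by
  unfold th
  by_cases hz : z ∈ H
  · right
    rw [if_pos hz, if_pos hz, ep_zero]
    exact ⟨rfl, ep_pm hp (hr z hz)⟩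
  · left
    rw [if_neg hz, if_neg hz]
    exact ⟨rfl, rfl⟩

private theorem card_re (H : Subgroup G) (x : ℂ) :
    ((Fintype.card H : ℂ)⁻¹ * x).re = (Fintype.card H : ℝ)⁻¹ * x.re := by
  have h1 : (Fintype.card H : ℂ)⁻¹ = (((Fintype.card H : ℝ)⁻¹ : ℝ) : ℂ) := by push_cast; rfl
  rw [h1, Complex.re_ofReal_mul]

theorem mj_341 (hp : PQ 2 p) {H : Subgroup G} {ψ : G → ZMod p} (hr : ∀ y ∈ H, ψ y + ψ y = 0) (y : G) {z : ℂ} (hz : ‖z‖ ≤ 1) :
    0 ≤ 3 * (mj H (fun _ => (0 : ZMod p)) y).re + 4 * (mj H ψ y * z).re + (mj H (fun _ => (0 : ZMod p)) y * z ^ 2).re := by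
  unfold mj
  rw [mul_assoc, mul_assoc, card_re, card_re, card_re]
  have h1 : (0 : ℝ) ≤ (Fintype.card H : ℝ)⁻¹ := by positivity
  have h2 : 0 ≤ 3 * (∑ g : G, th H (fun _ => (0 : ZMod p)) (g⁻¹ * y * g)).re +
      4 * ((∑ g : G, th H ψ (g⁻¹ * y * g)) * z).re +
      ((∑ g : G, th H (fun _ => (0 : ZMod p)) (g⁻¹ * y * g)) * z ^ 2).re := by
    rw [Finset.sum_mul, Finset.sum_mul, Complex.re_sum, Complex.re_sum, Complex.re_sum, Finset.mul_sum,
      Finset.mul_sum, ← Finset.sum_add_distrib, ← Finset.sum_add_distrib]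
    refine Finset.sum_nonneg fun g _ => ?_
    have h3 : z.re ^ 2 + z.im ^ 2 ≤ 1 := by
      have h4 : ‖z‖ ^ 2 ≤ 1 := pow_le_one₀ (norm_nonneg z) hz
      rw [← Complex.normSq_eq_norm_sq, Complex.normSq_apply] at h4
      nlinarith
    rcases th_sgn hp hr (g⁻¹ * y * g) with ⟨h4, h5⟩ | ⟨h4, h5 | h5⟩
    · rw [h4, h5]
      simp
    · rw [h4, h5]
      simp only [Complex.one_re, one_mul, pow_two, Complex.mul_re]
      nlinarith [sq_nonneg (1 + z.re)]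
    · rw [h4, h5]
      simp only [Complex.one_re, one_mul, pow_two, Complex.mul_re, neg_mul, Complex.neg_re]
      nlinarith [sq_nonneg (1 - z.re)]
  nlinarith [mul_nonneg h1 h2]

theorem mj_pos (hp : PQ 2 p) {H : Subgroup G} {ψ ψ' : G → ZMod p} (hr : ∀ y ∈ H, ψ y + ψ y = 0)
    (hr' : ∀ y ∈ H, ψ' y + ψ' y = 0) (y : G) :
    0 ≤ (mj H (fun _ => (0 : ZMod p)) y).re + (mj H ψ y).re + (mj H ψ' y).re + (mj H (fun z => ψ z + ψ' z) y).re := by
  unfold mj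
  rw [card_re, card_re, card_re, card_re]
  have h1 : (0 : ℝ) ≤ (Fintype.card H : ℝ)⁻¹ := by positivity
  have h2 : 0 ≤ (∑ g : G, th H (fun _ => (0 : ZMod p)) (g⁻¹ * y * g)).re +
      (∑ g : G, th H ψ (g⁻¹ * y * g)).re + (∑ g : G, th H ψ' (g⁻¹ * y * g)).re +
      (∑ g : G, th H (fun z => ψ z + ψ' z) (g⁻¹ * y * g)).re := by
    rw [Complex.re_sum, Complex.re_sum, Complex.re_sum, Complex.re_sum, ← Finset.sum_add_distrib,
      ← Finset.sum_add_distrib, ← Finset.sum_add_distrib]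
    refine Finset.sum_nonneg fun g _ => ?_
    unfold th
    by_cases hz : g⁻¹ * y * g ∈ H
    · simp only [if_pos hz, ep_zero, ep_addq hp]
      rcases ep_pm hp (hr _ hz) with h3 | h3 <;> rcases ep_pm hp (hr' _ hz) with h4 | h4 <;>
        rw [h3, h4] <;> norm_num
    · simp only [if_neg hz]
      norm_num
  nlinarith [mul_nonneg h1 h2]

theorem mj_nn (H : Subgroup G) (y : G) : 0 ≤ (mj H (fun _ => (0 : ZMod p)) y).re := by
  unfold mj
  rw [card_re, Complex.re_sum]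
  refine mul_nonneg (by positivity) (Finset.sum_nonneg fun g _ => ?_)
  unfold th
  by_cases hz : g⁻¹ * y * g ∈ H
  · rw [if_pos hz, ep_zero]
    norm_num
  · rw [if_neg hz]
    norm_num

theorem mj_cj {H : Subgroup G} (ψ : G → ZMod p) {g : G} (hg : ∀ y, g⁻¹ * y * g ∈ H ↔ y ∈ H) (y : G) :
    mj H (fun z => ψ (g⁻¹ * z * g)) y = mj H ψ y := by
  unfold mj
  congr 1
  have h1 : ∀ x : G, th H (fun z => ψ (g⁻¹ * z * g)) (x⁻¹ * y * x) = th H ψ ((x * g)⁻¹ * y * (x * g)) := by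
    intro x
    have h2 : (x * g)⁻¹ * y * (x * g) = g⁻¹ * (x⁻¹ * y * x) * g := by group
    rw [h2]
    unfold th
    by_cases h3 : x⁻¹ * y * x ∈ H
    · rw [if_pos h3, if_pos ((hg _).2 h3)]
    · rw [if_neg h3, if_neg fun h4 => h3 ((hg _).1 h4)]
  simp only [h1]
  exact Fintype.sum_equiv (Equiv.mulRight g) _ _ fun x => rfl

private theorem half {k : ℕ} (hk : 2 ≤ k) {b : ZMod (2 ^ k)} (hb : b + b = 0) : ∃ q : ZMod (2 ^ k), q + q = b := by
  have : NeZero (2 ^ k) := ⟨pow_ne_zero _ two_ne_zero⟩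
  refine ⟨((b.val / 2 : ℕ) : ZMod (2 ^ k)), ?_⟩
  have h1 : ((b.val + b.val : ℕ) : ZMod (2 ^ k)) = 0 := by
    push_cast
    rw [ZMod.natCast_zmod_val]
    exact hb
  rw [ZMod.natCast_eq_zero_iff] at h1
  have h2 : 2 ∣ b.val := by
    have h3 : 2 ^ 2 ∣ b.val + b.val := (pow_dvd_pow 2 hk).trans h1
    omega
  rw [← Nat.cast_add, show b.val / 2 + b.val / 2 = b.val by omega, ZMod.natCast_zmod_val]

private theorem inv2 {k : ℕ} (hk : 2 ≤ k) : ∃ h : ZMod (2 ^ k), h + h = 0 ∧ h ≠ 0 := by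
  refine ⟨((2 ^ (k - 1) : ℕ) : ZMod (2 ^ k)), ?_, ?_⟩
  · rw [← Nat.cast_add, ← two_mul, ← pow_succ', show k - 1 + 1 = k by omega, ZMod.natCast_self]
  · rw [Ne, ZMod.natCast_eq_zero_iff]
    intro h
    have h1 := (Nat.pow_dvd_pow_iff_le_right (by norm_num : 1 < 2)).1 h
    omega

/-- the step of the descent -/
theorem stp {k : ℕ} (hk : 2 ≤ k) (hG : IsPGroup 2 G) {D H : Subgroup G} (hDn : D.Normal) (hD : D ≤ H) (hH : H ≠ ⊤)
    {ψ : G → ZMod (2 ^ k)} (hψ : Lc H ψ) (hr : ∀ y ∈ H, ψ y + ψ y = 0) (hne : ∃ y ∈ H, ψ y ≠ 0)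
    (hD0 : ∀ y ∈ D, ψ y = 0) :
    (∃ ψ₂ : G → ZMod (2 ^ k), Lc H ψ₂ ∧ (∀ y ∈ D, ψ₂ y = 0) ∧ (∃ y ∈ H, ψ₂ y ≠ 0) ∧
      ∀ y, 0 ≤ (mj H (fun _ => (0 : ZMod (2 ^ k))) y).re + 2 * (mj H ψ y).re + (mj H ψ₂ y).re) ∨
    (∃ (H' : Subgroup G) (ψ' ψ'' : G → ZMod (2 ^ k)), H < H' ∧ Lc H' ψ' ∧ Lc H' ψ'' ∧ (∀ y ∈ D, ψ' y = 0) ∧
      (∀ y ∈ D, ψ'' y = 0) ∧ (∀ y, mj H ψ y = mj H' ψ' y + mj H' ψ'' y) ∧
      (((∃ y ∈ H', ψ' y + ψ' y ≠ 0) ∧ ∃ y ∈ H', ψ'' y + ψ'' y ≠ 0) ∨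
        ((∀ y ∈ H', ψ' y + ψ' y = 0) ∧ (∀ y ∈ H', ψ'' y + ψ'' y = 0) ∧ (∃ y ∈ H', ψ' y ≠ 0) ∧ ∃ y ∈ H', ψ'' y ≠ 0))) := by
  have hp : PQ 2 (2 ^ k) := by
    obtain ⟨j, rfl⟩ : ∃ j, k = j + 1 := ⟨k - 1, by omega⟩
    exact pq_pow Nat.prime_two j
  obtain ⟨H', hlt, hc⟩ := grp_up hG hH
  obtain ⟨g, hgH', hgH⟩ := Set.exists_of_ssubset hlt
  have hgH' : g ∈ H' := hgH'
  have hgH : g ∉ H := hgH
  have hm := fun {a b : G} (ha : a ∈ H') (hb : b ∈ H') => two_mem hlt.le hc ha hb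
  have hgi : g⁻¹ ∈ H' := H'.inv_mem hgH'
  have hgiH : g⁻¹ ∉ H := fun h => hgH (by simpa using H.inv_mem h)
  have hcj : ∀ y ∈ H, g⁻¹ * y * g ∈ H := fun y hy => by
    rw [hm (H'.mul_mem hgi (hlt.le hy)) hgH', hm hgi (hlt.le hy)]
    simp [hgiH, hy, hgH]
  have hcj' : ∀ y ∈ H, g * y * g⁻¹ ∈ H := fun y hy => by
    rw [hm (H'.mul_mem hgH' (hlt.le hy)) hgi, hm hgH' (hlt.le hy)]
    simp [hgiH, hy, hgH]
  have hiff : ∀ y, g⁻¹ * y * g ∈ H ↔ y ∈ H := fun y => ⟨fun h => by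
    have h1 := hcj' _ h
    have h2 : g * (g⁻¹ * y * g) * g⁻¹ = y := by group
    rwa [h2] at h1, hcj y⟩
  by_cases hinv : ∀ y ∈ H, ψ (g⁻¹ * y * g) = ψ y
  · right
    have hg2 : g * g ∈ H := by
      rw [hm hgH' hgH']
    obtain ⟨q, hq⟩ := half hk (hr _ hg2)
    obtain ⟨h, hh2, hh0⟩ := inv2 hk
    have hinv' : ∀ y ∈ H, ψ (g * y * g⁻¹) = ψ y := fun y hy => by
      have h1 := hinv _ (hcj' y hy)
      have h2 : g⁻¹ * (g * y * g⁻¹) * g = y := by group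
      rw [h2] at h1
      exact h1.symm
    obtain ⟨ψ', hψ'⟩ : ∃ ψ' : G → ZMod (2 ^ k), ψ' = fun z => if z ∈ H then ψ z else ψ (z * g⁻¹) + q :=
      ⟨_, rfl⟩
    have e1 : ∀ z, z ∈ H → ψ' z = ψ z := fun z hz => by rw [hψ']; exact if_pos hz
    have e2 : ∀ z, z ∉ H → ψ' z = ψ (z * g⁻¹) + q := fun z hz => by rw [hψ']; exact if_neg hz
    have hzg : ∀ z ∈ H', z ∉ H → z * g⁻¹ ∈ H := fun z hz hz' => by
      rw [hm hz hgi]
      simp [hz', hgiH]
    have hlc : Lc H' ψ' := by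
      intro a ha b hb
      have hab := hm ha hb
      by_cases h3 : a ∈ H <;> by_cases h4 : b ∈ H
      · rw [e1 _ (H.mul_mem h3 h4), e1 _ h3, e1 _ h4, hψ _ h3 _ h4]
      · have h5 : a * b ∉ H := by rw [hab]; simp [h3, h4]
        rw [e2 _ h5, e1 _ h3, e2 _ h4, mul_assoc, hψ _ h3 _ (hzg b hb h4), add_assoc]
      · have h5 : a * b ∉ H := by rw [hab]; simp [h3, h4]
        have h6 : a * b * g⁻¹ = (a * g⁻¹) * (g * b * g⁻¹) := by group
        rw [e2 _ h5, e2 _ h3, e1 _ h4, h6, hψ _ (hzg a ha h3) _ (hcj' b h4), hinv' b h4]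
        ring
      · have h5 : a * b ∈ H := by rw [hab]; simp [h3, h4]
        have h6 : a * b = (a * g⁻¹) * (g * (b * g⁻¹) * g⁻¹) * (g * g) := by group
        have h7 := hcj' _ (hzg b hb h4)
        rw [e1 _ h5, e2 _ h3, e2 _ h4, h6, hψ _ (H.mul_mem (hzg a ha h3) h7) _ hg2,
          hψ _ (hzg a ha h3) _ h7, hinv' _ (hzg b hb h4), ← hq]
        ring
    have hle := lc_eps hlt.le hc hh2
    have hlc2 : Lc H' (fun z => ψ' z + if z ∈ H then 0 else h) := by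
      intro a ha b hb
      have h1 := hlc a ha b hb
      have h2 := hle a ha b hb
      simp only at h2 ⊢
      rw [h1, h2]
      ring
    refine ⟨H', ψ', fun z => ψ' z + if z ∈ H then 0 else h, hlt, hlc, hlc2, fun y hy => ?_, fun y hy => ?_,
      fun y => ?_, ?_⟩
    · rw [e1 _ (hD hy), hD0 y hy]
    · simp only
      rw [e1 _ (hD hy), hD0 y hy, if_pos (hD hy), add_zero]
    · rw [mj_congr (fun z hz => (e1 z hz).symm) y]
      exact mj_spl hp hlt.le hc ψ' hh2 hh0 y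
    · obtain ⟨y₀, hy₀, hy₀'⟩ := hne
      have e3 : ψ' g = q := by
        rw [e2 _ hgH, mul_inv_cancel, lc_one hψ, zero_add]
      by_cases hb : ψ (g * g) = 0
      · right
        have h5 : ∀ y ∈ H', ψ' y + ψ' y = 0 := by
          intro y hy
          by_cases hyH : y ∈ H
          · rw [e1 _ hyH]
            exact hr y hyH
          · rw [e2 _ hyH]
            calc ψ (y * g⁻¹) + q + (ψ (y * g⁻¹) + q) = (ψ (y * g⁻¹) + ψ (y * g⁻¹)) + (q + q) := by ring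
              _ = 0 := by rw [hr _ (hzg y hy hyH), hq, hb, add_zero]
        refine ⟨h5, fun y hy => ?_, ⟨y₀, hlt.le hy₀, ?_⟩, ⟨y₀, hlt.le hy₀, ?_⟩⟩
        · have h6 : (if y ∈ H then (0 : ZMod (2 ^ k)) else h) + (if y ∈ H then 0 else h) = 0 := by
            by_cases hyH : y ∈ H
            · rw [if_pos hyH, add_zero]
            · rw [if_neg hyH, hh2]
          calc (ψ' y + if y ∈ H then 0 else h) + (ψ' y + if y ∈ H then 0 else h) =
                (ψ' y + ψ' y) + ((if y ∈ H then 0 else h) + (if y ∈ H then 0 else h)) := by ring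
            _ = 0 := by rw [h5 y hy, h6, add_zero]
        · rw [e1 _ hy₀]
          exact hy₀'
        · simp only
          rw [e1 _ hy₀, if_pos hy₀, add_zero]
          exact hy₀'
      · left
        refine ⟨⟨g, hgH', ?_⟩, ⟨g, hgH', ?_⟩⟩
        · rw [e3, hq]
          exact hb
        · simp only
          rw [e3, if_neg hgH]
          have h6 : q + h + (q + h) = (q + q) + (h + h) := by ring
          rw [h6, hh2, add_zero, hq]
          exact hb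
  · left
    push Not at hinv
    obtain ⟨y₁, hy₁, hy₁'⟩ := hinv
    have hlc : Lc H (fun z => ψ (g⁻¹ * z * g)) := by
      intro a ha b hb
      have h1 : g⁻¹ * (a * b) * g = (g⁻¹ * a * g) * (g⁻¹ * b * g) := by group
      simp only
      rw [h1, hψ _ (hcj a ha) _ (hcj b hb)]
    refine ⟨fun z => ψ z + ψ (g⁻¹ * z * g), ?_, fun y hy => ?_, ⟨y₁, hy₁, fun h => hy₁' ?_⟩, fun y => ?_⟩
    · intro a ha b hb
      have h1 := hlc a ha b hb
      simp only at h1 ⊢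
      rw [hψ a ha b hb, h1]
      ring
    · have h1 := hDn.conj_mem y hy g⁻¹
      rw [inv_inv] at h1
      simp only
      rw [hD0 y hy, hD0 _ h1, add_zero]
    · simp only at h
      have h2 := hr y₁ hy₁
      calc ψ (g⁻¹ * y₁ * g) = (ψ y₁ + ψ (g⁻¹ * y₁ * g)) - (ψ y₁ + ψ y₁) + ψ y₁ := by ring
        _ = ψ y₁ := by rw [h, h2]; ring
    · have h1 := mj_pos hp hr (ψ' := fun z => ψ (g⁻¹ * z * g)) (fun y hy => hr _ (hcj y hy)) y
      rw [mj_cj ψ hiff y] at h1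
      linarith

end H93.G2
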