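import Pool.Agent.H93.G2.Pts
import Pool.Agent.H63.MA.Pv

/-!
# H93 G2 ZKB: the zeta function of a fixed field near the line `Re s = 1`

[H93 G2 ZKB] `zkb`: `H63.MA.cnt K` (`|#IN K y - κ y| ≤ C y^(1-δ)`), `lbf_partial`; `lbf (triv) n = a n + κ`, `a` has partial sums `≤ C' n^(1-δ)`
(`n ≤ n^(..)`: the partial sum of `κ` over `Icc 1 n` is `κ n`). With `N = ⌈(1 + |s|)^(2/δ)⌉`: `∑_{n ≤ N} |lbf n| / n ≤ C log^A` (`lb_head`, `H57.AN.hsu` or directly from
`cnt`), `|∑_{N < n ≤ M} a n n^(-s)| ≤ C` (`H1.PN.tail`, `k = 0`), `|∑_{N < n ≤ M} n^(-s)| ≤ 2 / |s - 1| + C |s| / N` (compare `n^(-s)` with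
`∫_n^{n+1} x^(-s) dx = ((n+1)^(1-s) - n^(1-s)) / (1-s)`, error `≤ |s| / n^2`, mean value inequality as in `H1.PN.wt_diff`). `H1.PN.ser_le`.
`zkp`: the principal prime sum: `PT (1 on the good primes) s = PT (1) s - (primes of B, above p, of non prime norm)`: `npr`, `hbd`, the finitely many primes
above `p`; `exp (PT 1 s) ≤ C |ζ_K(s)|` (`eulc` with `lbd_triv K`). For the real point `σ`: `PT ≤ PT 1 σ` (termwise) and `ζ_K(σ) ≤ C / (σ - 1)` (`H1.PN.zub` or the same proof).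
-/

set_option autoImplicit false

open scoped NumberField
open NumberField IsDedekindDomain H63.MA H36.QA Finset H1.PN
open scoped Classical

noncomputable section

namespace H93.G2

private theorem cp_der {s : ℂ} {x : ℝ} (hx : 0 < x) :
    HasDerivAt (fun y : ℝ => (y : ℂ) ^ (-s)) (-s * (x : ℂ) ^ (-s - 1)) x := by
  have h4 : HasDerivAt (fun y : ℂ => y ^ (-s)) (-s * (x : ℂ) ^ (-s - 1)) (x : ℂ) := by
    have := (hasDerivAt_id (x : ℂ)).cpow_const (c := -s) (Or.inl (by simpa using hx))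
    simpa using this
  exact h4.comp_ofReal

/-- `x^(-s)` on an interval of length one -/
private theorem cp_near {s : ℂ} (hs : 1 ≤ s.re) {n : ℕ} (hn : 1 ≤ n) {x : ℝ} (hx : (n : ℝ) ≤ x)
    (hx1 : x ≤ n + 1) : ‖(x : ℂ) ^ (-s) - ((n : ℝ) : ℂ) ^ (-s)‖ ≤ ‖s‖ / (n : ℝ) ^ 2 := by
  have hn0 : (1 : ℝ) ≤ n := by exact_mod_cast hn
  have key := (convex_Icc (n : ℝ) x).norm_image_sub_le_of_norm_hasDerivWithin_le
    (f := fun y : ℝ => (y : ℂ) ^ (-s)) (f' := fun y : ℝ => -s * (y : ℂ) ^ (-s - 1))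
    (C := ‖s‖ / (n : ℝ) ^ 2) (x := n) (y := x)
    (fun y hy => (cp_der (by linarith [hy.1])).hasDerivWithinAt) ?_ ⟨le_rfl, hx⟩ ⟨hx, le_rfl⟩
  · refine key.trans ?_
    have h1 : ‖x - (n : ℝ)‖ ≤ 1 := by
      rw [Real.norm_of_nonneg (by linarith)]
      linarith
    exact mul_le_of_le_one_right (by positivity) h1
  intro y hy
  have hy1 : 1 ≤ y := hn0.trans hy.1
  have hy0 : 0 < y := by linarith
  rw [norm_mul, norm_neg, Complex.norm_cpow_eq_rpow_re_of_pos hy0, Complex.sub_re, Complex.neg_re,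
    Complex.one_re, div_eq_mul_inv]
  refine mul_le_mul_of_nonneg_left ?_ (norm_nonneg _)
  have hx2 : y ^ (-(2 : ℝ)) ≤ ((n : ℝ) ^ 2)⁻¹ := by
    rw [Real.rpow_neg hy0.le]
    apply inv_anti₀ (by positivity)
    rw [show (2 : ℝ) = ((2 : ℕ) : ℝ) by norm_num, Real.rpow_natCast]
    exact pow_le_pow_left₀ (by linarith) hy.1 2
  exact (Real.rpow_le_rpow_of_exponent_le hy1 (by linarith)).trans hx2

/-- the primitive of `x^(-s)` -/
private def pr (s : ℂ) (x : ℝ) : ℂ := (x : ℂ) ^ (-(s - 1)) / (-(s - 1))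

private theorem pr_der {s : ℂ} (hs : s - 1 ≠ 0) {x : ℝ} (hx : 0 < x) :
    HasDerivAt (pr s) ((x : ℂ) ^ (-s)) x := by
  have h1 := (cp_der (s := s - 1) hx).div_const (-(s - 1))
  have e : -(s - 1) * (x : ℂ) ^ (-(s - 1) - 1) / (-(s - 1)) = (x : ℂ) ^ (-s) := by
    rw [mul_div_assoc, mul_comm, div_mul_cancel₀ _ (neg_ne_zero.2 hs)]
    congr 1
    ring
  rw [e] at h1
  exact h1

private theorem pr_step {s : ℂ} (hs : 1 < s.re) {n : ℕ} (hn : 1 ≤ n) :
    ‖pr s ((n + 1 : ℕ) : ℝ) - pr s (n : ℝ) - ((n : ℝ) : ℂ) ^ (-s)‖ ≤ ‖s‖ / (n : ℝ) ^ 2 := by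
  have hs1 : s - 1 ≠ 0 := by
    intro h
    have := congrArg Complex.re h
    rw [Complex.sub_re, Complex.one_re, Complex.zero_re] at this
    linarith
  have hn0 : (1 : ℝ) ≤ n := by exact_mod_cast hn
  have key := (convex_Icc (n : ℝ) ((n : ℝ) + 1)).norm_image_sub_le_of_norm_hasDerivWithin_le
    (f := fun y : ℝ => pr s y - (y : ℂ) * ((n : ℝ) : ℂ) ^ (-s))
    (f' := fun y : ℝ => (y : ℂ) ^ (-s) - 1 * ((n : ℝ) : ℂ) ^ (-s))
    (C := ‖s‖ / (n : ℝ) ^ 2) (x := n) (y := (n : ℝ) + 1)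
    (fun y hy => ((pr_der hs1 (by linarith [hy.1])).sub
      ((Complex.ofRealCLM.hasDerivAt (x := y)).mul_const _)).hasDerivWithinAt) ?_
    ⟨le_rfl, by linarith⟩ ⟨by linarith, le_rfl⟩
  · have e : pr s ((n : ℝ) + 1) - (((n : ℝ) + 1 : ℝ) : ℂ) * ((n : ℝ) : ℂ) ^ (-s) -
        (pr s (n : ℝ) - ((n : ℝ) : ℂ) * ((n : ℝ) : ℂ) ^ (-s)) =
        pr s ((n + 1 : ℕ) : ℝ) - pr s (n : ℝ) - ((n : ℝ) : ℂ) ^ (-s) := by
      push_cast
      ring
    rw [e] at key
    have h1 : ‖(n : ℝ) + 1 - (n : ℝ)‖ = 1 := by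
      rw [add_sub_cancel_left, norm_one]
    rw [h1, mul_one] at key
    exact key
  intro y hy
  rw [one_mul]
  exact cp_near hs.le hn hy.1 hy.2

private theorem pr_norm {s : ℂ} (hs : 1 < s.re) {x : ℝ} (hx : 1 ≤ x) : ‖pr s x‖ ≤ 1 / ‖s - 1‖ := by
  unfold pr
  rw [norm_div, norm_neg, Complex.norm_cpow_eq_rpow_re_of_pos (by linarith)]
  refine div_le_div_of_nonneg_right ?_ (norm_nonneg _)
  apply Real.rpow_le_one_of_one_le_of_nonpos hx
  rw [Complex.neg_re, Complex.sub_re, Complex.one_re]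
  linarith

private theorem tel (f : ℕ → ℂ) {N M : ℕ} (h : N ≤ M) :
    ∑ n ∈ Ioc N M, (f (n + 1) - f n) = f (M + 1) - f (N + 1) := by
  induction M, h using Nat.le_induction with
  | base => simp
  | succ M hM ih =>
    have e1 : Ioc N (M + 1) = insert (M + 1) (Ioc N M) := by
      ext x
      simp only [mem_Ioc, mem_insert]
      omega
    have n1 : M + 1 ∉ Ioc N M := by simp
    rw [e1, sum_insert n1, ih]
    ring

/-- the partial sums of `n^(-s)` -/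
private theorem zt {s : ℂ} (hs : 1 < s.re) {N M : ℕ} (hN : 1 ≤ N) (h : N ≤ M) :
    ‖∑ n ∈ Ioc N M, ((n : ℝ) : ℂ) ^ (-s)‖ ≤ 2 / ‖s - 1‖ + ‖s‖ / N := by
  have e : ∑ n ∈ Ioc N M, ((n : ℝ) : ℂ) ^ (-s) = (pr s ((M + 1 : ℕ) : ℝ) - pr s ((N + 1 : ℕ) : ℝ)) -
      ∑ n ∈ Ioc N M, (pr s ((n + 1 : ℕ) : ℝ) - pr s (n : ℝ) - ((n : ℝ) : ℂ) ^ (-s)) := by
    rw [sum_sub_distrib, tel (fun n : ℕ => pr s (n : ℝ)) h]
    ring
  rw [e]
  refine (norm_sub_le _ _).trans (add_le_add ?_ ?_)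
  · refine (norm_sub_le _ _).trans ?_
    have h1 := pr_norm hs (x := ((M + 1 : ℕ) : ℝ)) (by push_cast; linarith [(Nat.cast_nonneg M : (0 : ℝ) ≤ M)])
    have h2 := pr_norm hs (x := ((N + 1 : ℕ) : ℝ)) (by push_cast; linarith [(Nat.cast_nonneg N : (0 : ℝ) ≤ N)])
    calc _ ≤ 1 / ‖s - 1‖ + 1 / ‖s - 1‖ := add_le_add h1 h2
      _ = _ := by ring
  · have h1 : ∀ n ∈ Ioc N M, ‖pr s ((n + 1 : ℕ) : ℝ) - pr s (n : ℝ) - ((n : ℝ) : ℂ) ^ (-s)‖ ≤
        ‖s‖ * (n : ℝ) ^ (-1 - (1 : ℝ)) := by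
      intro n hn
      rw [mem_Ioc] at hn
      have hn0 : (0 : ℝ) ≤ n := Nat.cast_nonneg n
      refine (pr_step hs (by omega)).trans (le_of_eq ?_)
      rw [div_eq_mul_inv, show (-1 - (1 : ℝ)) = -((2 : ℕ) : ℝ) by norm_num, Real.rpow_neg hn0,
        Real.rpow_natCast]
    refine (norm_sum_le _ _).trans ((sum_le_sum h1).trans ?_)
    rw [← mul_sum, div_eq_mul_inv]
    refine mul_le_mul_of_nonneg_left ?_ (norm_nonneg _)
    refine (rp_sum one_pos hN h).trans ?_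
    rw [div_one, Real.rpow_neg_one, Real.rpow_neg_one]
    have : (0 : ℝ) ≤ ((M : ℝ))⁻¹ := by positivity
    linarith

theorem zkb (K : Type) [Field K] [NumberField K] : ∃ (C : ℝ) (A : ℕ), 1 ≤ C ∧ ∀ s : ℂ, 1 < s.re → s.re ≤ 2 → s.im ≠ 0 →
    ‖LSeries (lbf (lbd_triv K)) s‖ ≤ C * (1 + Real.log (2 + |s.im|)) ^ A * (1 + 1 / |s.im|) := by
  obtain ⟨κ, C0, δ, hκ, hC0, hδ, hδ1, hcnt⟩ := cnt K
  have h0 : lbd_triv K (⊥ : Ideal (𝓞 K)) = 0 := map_zero (lbd_triv K)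
  have hpart : ∀ m : ℕ, ∑ j ∈ Icc 1 m, lbf (lbd_triv K) j = (((IN K (m : ℝ)).card : ℝ) : ℂ) := by
    intro m
    have h1 := lbf_partial (K := K) (lbd_triv K) (m : ℝ)
    rw [Nat.floor_natCast] at h1
    rw [h1]
    have h2 : ∀ I ∈ IN K (m : ℝ), lbd_triv K I = 1 := by
      intro I hI
      have hI0 := ((mem_IN (Nat.cast_nonneg m)).1 hI).2
      exact if_neg hI0
    rw [sum_congr rfl h2, sum_const, nsmul_eq_mul, mul_one]
    push_cast
    rfl
  -- the coefficients are natural numbers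
  have hnat : ∀ j : ℕ, j ≠ 0 → ‖lbf (lbd_triv K) j‖ = (lbf (lbd_triv K) j).re := by
    intro j hj
    have h1 : lbf (lbd_triv K) j =
        (((Ideal.finite_setOfPred_absNorm_eq (S := 𝓞 K) j).toFinset.card : ℝ) : ℂ) := by
      unfold lbf
      have h2 : ∀ I ∈ (Ideal.finite_setOfPred_absNorm_eq (S := 𝓞 K) j).toFinset, lbd_triv K I = 1 := by
        intro I hI
        refine if_neg ?_
        rintro rfl
        have h2 : Ideal.absNorm (⊥ : Ideal (𝓞 K)) = j := lbf_mem.1 hI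
        rw [Ideal.absNorm_bot] at h2
        exact hj h2.symm
      rw [sum_congr rfl h2, sum_const, nsmul_eq_mul, mul_one]
      push_cast
      rfl
    rw [h1, Complex.norm_real, Complex.ofReal_re, Real.norm_of_nonneg (Nat.cast_nonneg _)]
  obtain ⟨D, hD⟩ : ∃ D : ℝ, D = κ + C0 := ⟨_, rfl⟩
  have hD0 : 0 < D := by
    rw [hD]
    positivity
  have hcnt2 : ∀ m : ℕ, 1 ≤ m → ((IN K (m : ℝ)).card : ℝ) ≤ D * m := by
    intro m hm
    have hm1 : (1 : ℝ) ≤ m := by exact_mod_cast hm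
    have h1 := (abs_le.1 (hcnt m hm1)).2
    have h2 : (m : ℝ) ^ (1 - δ) ≤ m := by
      conv_rhs => rw [← Real.rpow_one (m : ℝ)]
      exact Real.rpow_le_rpow_of_exponent_le hm1 (by linarith)
    have h3 := mul_le_mul_of_nonneg_left h2 hC0.le
    rw [hD]
    linarith
  have hhead : ∀ N : ℕ, 1 ≤ N → ∑ j ∈ Icc 1 N, ‖lbf (lbd_triv K) j‖ * (j : ℝ)⁻¹ ≤ D * (1 + Real.log N) := by
    intro N _
    have h1 := acmp (fun j => ‖lbf (lbd_triv K) j‖) (fun _ => D) (fun j => (j : ℝ)⁻¹) N ?_ ?_ ?_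
    · refine h1.trans ?_
      rw [← mul_sum]
      refine mul_le_mul_of_nonneg_left ?_ hD0.le
      have h7 := harmonic_le_one_add_log N
      rw [harmonic_eq_sum_Icc] at h7
      push_cast at h7
      exact h7
    · intro m hm _
      rw [sum_const, Nat.card_Icc, nsmul_eq_mul, Nat.add_sub_cancel, mul_comm]
      have h2 : ∑ j ∈ Icc 1 m, ‖lbf (lbd_triv K) j‖ = ((IN K (m : ℝ)).card : ℝ) := by
        have h3 := congrArg Complex.re (hpart m)
        rw [Complex.ofReal_re, Complex.re_sum] at h3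
        rw [← h3]
        refine sum_congr rfl fun j hj => hnat j ?_
        rw [mem_Icc] at hj
        omega
      rw [h2]
      exact hcnt2 m hm
    · intro m hm
      have hm0 : (0 : ℝ) < m := by exact_mod_cast hm
      apply inv_anti₀ hm0
      push_cast
      linarith
    · intro m _
      positivity
  -- the function `a`
  have ha : ∀ m : ℕ, 1 ≤ m → ‖∑ j ∈ Icc 1 m, (lbf (lbd_triv K) j - (κ : ℂ))‖ ≤ C0 * (m : ℝ) ^ (1 - δ) := by
    intro m hm
    have hm1 : (1 : ℝ) ≤ m := by exact_mod_cast hm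
    rw [sum_sub_distrib, hpart m, sum_const, Nat.card_Icc, nsmul_eq_mul, Nat.add_sub_cancel]
    have e : (((IN K (m : ℝ)).card : ℝ) : ℂ) - (m : ℂ) * (κ : ℂ) =
        ((((IN K (m : ℝ)).card : ℝ) - κ * m : ℝ) : ℂ) := by
      push_cast
      ring
    rw [e, Complex.norm_real, Real.norm_eq_abs]
    exact hcnt m hm1
  have htc : 0 ≤ tc 0 δ := by
    unfold tc
    positivity
  obtain ⟨W, hW⟩ : ∃ W : ℝ, W = D * (3 + 2 / δ) + tc 0 δ * C0 + 3 * κ + 1 := ⟨_, rfl⟩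
  have hδ2 : 0 < 2 / δ := by positivity
  have htC : 0 ≤ tc 0 δ * C0 := by positivity
  have hDδ : 0 ≤ D * (3 + 2 / δ) := by positivity
  refine ⟨W, 1, by rw [hW]; linarith, fun s hs hs2 him => ?_⟩
  obtain ⟨t, ht⟩ : ∃ t : ℝ, t = |s.im| := ⟨_, rfl⟩
  have ht0 : 0 < t := by
    rw [ht]
    exact abs_pos.2 him
  rw [← ht, pow_one]
  have hns : 0 ≤ ‖s‖ := norm_nonneg s
  have hsre : ‖s‖ ≤ 2 + t := by
    have h1 := Complex.norm_le_abs_re_add_abs_im s
    rw [abs_of_pos (by linarith : (0 : ℝ) < s.re), ← ht] at h1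
    linarith
  obtain ⟨X, hX⟩ : ∃ X : ℝ, X = (1 + ‖s‖) ^ (2 / δ) := ⟨_, rfl⟩
  have hX1 : 1 + ‖s‖ ≤ X := by
    rw [hX]
    have h1 : (1 : ℝ) ≤ 2 / δ := by
      rw [le_div_iff₀ hδ]
      linarith
    have h2 := Real.rpow_le_rpow_of_exponent_le (by linarith : (1 : ℝ) ≤ 1 + ‖s‖) h1
    rwa [Real.rpow_one] at h2
  obtain ⟨N, hN⟩ : ∃ N : ℕ, N = ⌈X⌉₊ := ⟨_, rfl⟩
  have hNX : X ≤ N := by
    rw [hN]
    exact Nat.le_ceil X
  have hNr : (1 : ℝ) ≤ N := by linarith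
  have hN1 : 1 ≤ N := by exact_mod_cast hNr
  have hN2 : (N : ℝ) ≤ 2 * X := by
    have := Nat.ceil_lt_add_one (show 0 ≤ X by linarith)
    rw [← hN] at this
    linarith
  have hlt : 0 ≤ Real.log (2 + t) := Real.log_nonneg (by linarith)
  have hls : Real.log (1 + ‖s‖) ≤ 1 + Real.log (2 + t) := by
    have h1 : Real.log (1 + ‖s‖) ≤ Real.log (2 * (2 + t)) :=
      Real.log_le_log (by linarith) (by linarith)
    rw [Real.log_mul (by norm_num) (by linarith)] at h1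
    have := Real.log_two_lt_d9
    linarith
  have hlN : 1 + Real.log N ≤ (3 + 2 / δ) * (1 + Real.log (2 + t)) := by
    have h1 : Real.log N ≤ Real.log (2 * X) := Real.log_le_log (by linarith) hN2
    rw [Real.log_mul (by norm_num) (by linarith)] at h1
    have h2 : Real.log X = 2 / δ * Real.log (1 + ‖s‖) := by
      rw [hX, Real.log_rpow (by linarith)]
    have h5 : 2 / δ * Real.log (1 + ‖s‖) ≤ 2 / δ * (1 + Real.log (2 + t)) :=
      mul_le_mul_of_nonneg_left hls (by positivity)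
    have h6 := Real.log_two_lt_d9
    have h7 : (3 + 2 / δ) * (1 + Real.log (2 + t)) = 3 + 3 * Real.log (2 + t) +
      2 / δ * (1 + Real.log (2 + t)) := by ring
    rw [h7]
    linarith
  have hXt : (N : ℝ) ^ (-(δ / 2)) * (1 + ‖s‖) ≤ 1 := by
    have h1 : (N : ℝ) ^ (-(δ / 2)) ≤ X ^ (-(δ / 2)) :=
      Real.rpow_le_rpow_of_nonpos (by linarith) hNX (by linarith)
    have h2 : X ^ (-(δ / 2)) = (1 + ‖s‖)⁻¹ := by
      rw [hX, ← Real.rpow_mul (by linarith), ← Real.rpow_neg_one]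
      congr 1
      field_simp
    rw [h2] at h1
    have h3 := mul_le_mul_of_nonneg_right h1 (show 0 ≤ 1 + ‖s‖ by linarith)
    rwa [inv_mul_cancel₀ (by linarith : 1 + ‖s‖ ≠ 0)] at h3
  have hsum := lb_sum (lbd_triv K : Ideal (𝓞 K) → ℂ) h0 lbd_triv_norm 0 hs
  rw [pw_zero] at hsum
  refine ser_le hsum N fun M hM => ?_
  have hterm : ∀ m : ℕ, m ≠ 0 → LSeries.term (lbf (lbd_triv K)) s m = lbf (lbd_triv K) m * wt 0 s m := by
    intro m hm
    have := pw_term 0 (lbf (lbd_triv K)) s hm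
    rwa [pw_zero] at this
  have hwt : ∀ m : ℕ, wt 0 s (m : ℝ) = ((m : ℝ) : ℂ) ^ (-s) := by
    intro m
    unfold wt
    rw [pow_zero, Complex.ofReal_one, one_mul]
  have e1 : ∑ m ∈ Icc 1 M, LSeries.term (lbf (lbd_triv K)) s m =
      ∑ m ∈ Icc 1 N, lbf (lbd_triv K) m * wt 0 s m +
        (∑ m ∈ Ioc N M, (lbf (lbd_triv K) m - (κ : ℂ)) * wt 0 s m +
          (κ : ℂ) * ∑ m ∈ Ioc N M, ((m : ℝ) : ℂ) ^ (-s)) := by
    have e2 : ∑ m ∈ Ioc N M, (lbf (lbd_triv K) m - (κ : ℂ)) * wt 0 s m +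
          (κ : ℂ) * ∑ m ∈ Ioc N M, ((m : ℝ) : ℂ) ^ (-s) = ∑ m ∈ Ioc N M, lbf (lbd_triv K) m * wt 0 s m := by
      rw [mul_sum, ← sum_add_distrib]
      refine sum_congr rfl fun m _ => ?_
      rw [hwt]
      ring
    rw [e2, ← sum_union]
    · have : Icc 1 M = Icc 1 N ∪ Ioc N M := by
        ext x
        simp only [mem_Icc, mem_union, mem_Ioc]
        omega
      rw [this]
      refine sum_congr rfl fun m hm => hterm m ?_
      rw [← this, mem_Icc] at hm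
      omega
    · rw [disjoint_left]
      intro x hx hx'
      rw [mem_Icc] at hx
      rw [mem_Ioc] at hx'
      omega
  rw [e1]
  have b1 : ‖∑ m ∈ Icc 1 N, lbf (lbd_triv K) m * wt 0 s m‖ ≤ D * (3 + 2 / δ) * (1 + Real.log (2 + t)) := by
    have h3 : ∀ m ∈ Icc 1 N, ‖lbf (lbd_triv K) m * wt 0 s m‖ ≤ ‖lbf (lbd_triv K) m‖ * (m : ℝ)⁻¹ := by
      intro m hm
      rw [mem_Icc] at hm
      have hm1 : (1 : ℝ) ≤ m := by exact_mod_cast hm.1
      rw [norm_mul]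
      have h4 := wt_norm 0 hs.le hm1
      rw [pow_zero, one_div] at h4
      exact mul_le_mul_of_nonneg_left h4 (norm_nonneg _)
    refine (norm_sum_le _ _).trans ((sum_le_sum h3).trans ((hhead N hN1).trans ?_))
    rw [mul_assoc]
    exact mul_le_mul_of_nonneg_left hlN hD0.le
  have b2 : ‖∑ m ∈ Ioc N M, (lbf (lbd_triv K) m - (κ : ℂ)) * wt 0 s m‖ ≤ tc 0 δ * C0 := by
    refine (tail 0 hδ hC0.le hs.le _ ha hN1 hM).trans ?_
    calc tc 0 δ * C0 * (1 + ‖s‖) * (N : ℝ) ^ (-(δ / 2)) =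
        tc 0 δ * C0 * ((N : ℝ) ^ (-(δ / 2)) * (1 + ‖s‖)) := by ring
      _ ≤ tc 0 δ * C0 * 1 := mul_le_mul_of_nonneg_left hXt htC
      _ = _ := mul_one _
  have b3 : ‖(κ : ℂ) * ∑ m ∈ Ioc N M, ((m : ℝ) : ℂ) ^ (-s)‖ ≤ κ * (2 / t + 1) := by
    rw [norm_mul, Complex.norm_real, Real.norm_of_nonneg hκ.le]
    refine mul_le_mul_of_nonneg_left ?_ hκ.le
    refine (zt hs hN1 hM).trans (add_le_add ?_ ?_)
    · have h1 : t ≤ ‖s - 1‖ := by
        have h2 := Complex.abs_im_le_norm (s - 1)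
        rw [Complex.sub_im, Complex.one_im, sub_zero, ← ht] at h2
        exact h2
      exact div_le_div_of_nonneg_left (by norm_num) ht0 h1
    · rw [div_le_one (by linarith)]
      linarith
  have hfin : D * (3 + 2 / δ) * (1 + Real.log (2 + t)) + (tc 0 δ * C0 + κ * (2 / t + 1)) ≤
      W * (1 + Real.log (2 + t)) * (1 + 1 / t) := by
    have hit : 0 < 1 / t := by positivity
    have e2 : 2 / t = 2 * (1 / t) := by ring
    obtain ⟨i, hi⟩ : ∃ i : ℝ, i = 1 / t := ⟨_, rfl⟩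
    obtain ⟨ℓ, hℓ⟩ : ∃ ℓ : ℝ, ℓ = 1 + Real.log (2 + t) := ⟨_, rfl⟩
    obtain ⟨u, hu⟩ : ∃ u : ℝ, u = D * (3 + 2 / δ) := ⟨_, rfl⟩
    obtain ⟨v, hv⟩ : ∃ v : ℝ, v = tc 0 δ * C0 := ⟨_, rfl⟩
    rw [e2, ← hi, ← hℓ, ← hu, ← hv, hW, ← hu, ← hv]
    rw [← hi] at hit
    rw [← hu] at hDδ
    rw [← hv] at htC
    have hℓ1 : 1 ≤ ℓ := by linarith
    have a1 : ℓ ≤ ℓ * (1 + i) := by nlinarith
    have a2 : 1 ≤ ℓ * (1 + i) := hℓ1.trans a1
    have a3 : 2 * i + 1 ≤ 3 * (ℓ * (1 + i)) := by nlinarith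
    have c1 := mul_le_mul_of_nonneg_left a1 hDδ
    have c2 := mul_le_mul_of_nonneg_left a2 htC
    have c3 := mul_le_mul_of_nonneg_left a3 hκ.le
    have c4 : (u + v + 3 * κ + 1) * ℓ * (1 + i) = u * (ℓ * (1 + i)) + v * (ℓ * (1 + i)) +
        κ * (3 * (ℓ * (1 + i))) + ℓ * (1 + i) := by ring
    rw [c4]
    linarith
  refine le_trans ?_ hfin
  refine (norm_add_le _ _).trans (add_le_add b1 ((norm_add_le _ _).trans (add_le_add b2 b3)))

/-- the primes above `p` are finite in number -/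
private theorem above_fin {K : Type} [Field K] [NumberField K] {p : ℕ} (hp : p ≠ 0) :
    Set.Finite {w : Pl K | Above p w} := by
  have h0 : Ideal.span {(p : 𝓞 K)} ≠ 0 := by
    rw [Ne, Ideal.zero_eq_bot, Ideal.span_singleton_eq_bot]
    exact_mod_cast hp
  refine (Ideal.finite_factors h0).subset fun w hw => ?_
  show w.asIdeal ∣ _
  rw [Ideal.dvd_span_singleton]
  exact hw

private theorem one_term {K : Type} [Field K] [NumberField K] (F : Pl K → ℂ) (s : ℂ) (hs : 1 < s.re)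
    (w : Pl K) (hF : ‖F w‖ ≤ 1) : |(F w * (nm w : ℂ) ^ (-s)).re| ≤ 1 / nm w := by
  refine (Complex.abs_re_le_norm _).trans ?_
  rw [term_norm]
  have h2 : (1 : ℝ) ≤ nm w := by
    have := nm_pos w
    exact_mod_cast this
  have h1 : (nm w : ℝ) ^ (-s.re) ≤ 1 / nm w := by
    rw [one_div, ← Real.rpow_neg_one]
    exact Real.rpow_le_rpow_of_exponent_le h2 (by linarith)
  calc ‖F w‖ * (nm w : ℝ) ^ (-s.re) ≤ 1 * (nm w : ℝ) ^ (-s.re) :=
        mul_le_mul_of_nonneg_right hF (Real.rpow_nonneg (Nat.cast_nonneg _) _)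
    _ ≤ _ := by rw [one_mul]; exact h1

/-- the prime sum over the good primes, complex points -/
theorem zkp (K : Type) [Field K] [NumberField K] (p : ℕ) (hp : p ≠ 0) : ∃ (C : ℝ) (A : ℕ), 1 ≤ C ∧ ∀ (B : Finset (Pl K)) (s : ℂ),
    1 < s.re → s.re ≤ 2 → s.im ≠ 0 →
    Real.exp (PT (fun w : Pl K => if w ∉ B ∧ ¬ Above p w ∧ (nm w).Prime then 1 else 0) s) ≤
      C * (1 + Real.log (nr B) + Real.log (2 + |s.im|)) ^ A * (1 + 1 / |s.im|) := by
  obtain ⟨C1, A1, hC1, h1⟩ := zkb K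
  obtain ⟨C2, hC2, h2⟩ := eulc (Module.finrank ℚ K)
  obtain ⟨C3, hC3, h3⟩ := hbd (Module.finrank ℚ K)
  obtain ⟨C4, hC4, h4⟩ := npr (Module.finrank ℚ K)
  obtain ⟨n, hn⟩ : ∃ n : ℕ, n = Module.finrank ℚ K := ⟨_, rfl⟩
  obtain ⟨P, hP⟩ : ∃ P : Finset (Pl K), P = (above_fin (K := K) hp).toFinset := ⟨_, rfl⟩
  have hPm : ∀ w, w ∈ P ↔ Above p w := by
    intro w
    rw [hP, Set.Finite.mem_toFinset]
    rfl
  obtain ⟨S, hS⟩ : ∃ S : ℝ, S = ∑ w ∈ P, (1 : ℝ) / nm w := ⟨_, rfl⟩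
  have hS0 : 0 ≤ S := by
    rw [hS]
    exact sum_nonneg fun w _ => by positivity
  refine ⟨C2 * C1 * C3 * Real.exp (S + C4), A1 + n, ?_, fun B s hs hs2 him => ?_⟩
  · exact one_le_mul_of_one_le_of_one_le (one_le_mul_of_one_le_of_one_le
      (one_le_mul_of_one_le_of_one_le hC2 hC1) hC3) (Real.one_le_exp (by linarith))
  obtain ⟨G, hG⟩ : ∃ G : Pl K → ℂ, G = fun w : Pl K => if w ∉ B ∧ ¬ Above p w ∧ (nm w).Prime then 1 else 0 := ⟨_, rfl⟩
  obtain ⟨H, hH⟩ : ∃ H : Pl K → ℂ, H = fun w : Pl K => if w ∉ B ∧ ¬ Above p w ∧ (nm w).Prime then 0 else 1 := ⟨_, rfl⟩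
  have hGn : ∀ w, ‖G w‖ ≤ 1 := by
    intro w
    rw [hG]
    dsimp only
    split_ifs <;> simp
  have hHn : ∀ w, ‖H w‖ ≤ 1 := by
    intro w
    rw [hH]
    dsimp only
    split_ifs <;> simp
  rw [← hG]
  have hsum : PT (fun w => G w + H w) s = PT G s + PT H s := pt_add hGn hHn hs
  have hone : (fun w => G w + H w) = fun w : Pl K => lbd_triv K w.asIdeal := by
    funext w
    have e1 : lbd_triv K w.asIdeal = 1 := if_neg w.ne_bot
    rw [e1, hG, hH]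
    dsimp only
    split_ifs <;> simp
  rw [hone] at hsum
  -- the bad primes
  have hbad : |PT H s| ≤ ∑ w ∈ B, (1 : ℝ) / nm w + S + C4 := by
    have hsm := pt_sum hHn hs
    have hle : |PT H s| ≤ ∑' w : Pl K, |(H w * (nm w : ℂ) ^ (-s)).re| := by
      have h5 := norm_tsum_le_tsum_norm hsm.norm
      simp only [Real.norm_eq_abs] at h5
      exact h5
    refine hle.trans ?_
    refine hsm.abs.tsum_le_of_sum_le fun T => ?_
    have h6 : ∀ w ∈ T, |(H w * (nm w : ℂ) ^ (-s)).re| ≤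
        (if w ∈ B then (1 : ℝ) / nm w else 0) + (if w ∈ P then (1 : ℝ) / nm w else 0) +
          (if ¬ (nm w).Prime then (1 : ℝ) / nm w else 0) := by
      intro w _
      have h7 := one_term H s hs w (hHn w)
      have h8 : (0 : ℝ) ≤ 1 / nm w := by positivity
      by_cases c1 : w ∈ B
      · rw [if_pos c1]
        have : (0 : ℝ) ≤ (if w ∈ P then (1 : ℝ) / nm w else 0) := by split_ifs <;> linarith
        have : (0 : ℝ) ≤ (if ¬ (nm w).Prime then (1 : ℝ) / nm w else 0) := by split_ifs <;> linarith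
        linarith
      · rw [if_neg c1]
        by_cases c2 : w ∈ P
        · rw [if_pos c2]
          have : (0 : ℝ) ≤ (if ¬ (nm w).Prime then (1 : ℝ) / nm w else 0) := by split_ifs <;> linarith
          linarith
        · rw [if_neg c2]
          by_cases c3 : (nm w).Prime
          · have h9 : H w = 0 := by
              rw [hH]
              exact if_pos ⟨c1, fun h => c2 ((hPm w).2 h), c3⟩
            rw [h9, zero_mul, Complex.zero_re, abs_zero, if_neg (not_not.2 c3)]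
            norm_num
          · rw [if_pos c3]
            linarith
    refine (sum_le_sum h6).trans ?_
    rw [sum_add_distrib, sum_add_distrib]
    refine add_le_add (add_le_add ?_ ?_) ?_
    · rw [← sum_filter]
      refine sum_le_sum_of_subset_of_nonneg (fun w hw => (mem_filter.1 hw).2) fun w _ _ => by positivity
    · rw [← sum_filter, hS]
      refine sum_le_sum_of_subset_of_nonneg (fun w hw => (mem_filter.1 hw).2) fun w _ _ => by positivity
    · rw [← sum_filter]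
      exact h4 K rfl _ fun w hw => (mem_filter.1 hw).2
  have hz : Real.exp (PT (fun w : Pl K => lbd_triv K w.asIdeal) s) ≤
      C2 * (C1 * (1 + Real.log (2 + |s.im|)) ^ A1 * (1 + 1 / |s.im|)) := by
    have h5 := (h2 K rfl (lbd_triv K) (fun I => lbd_triv_norm I) s hs hs2).2
    exact h5.trans (mul_le_mul_of_nonneg_left (h1 s hs hs2 him) (by linarith))
  have hB := h3 K rfl B
  rw [← hn] at hB
  have hlB : 0 ≤ Real.log (nr B) := Real.log_nonneg (nr_one B)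
  have hlt : 0 ≤ Real.log (2 + |s.im|) := Real.log_nonneg (by linarith [abs_nonneg s.im])
  have hi : 0 < 1 / |s.im| := by
    have := abs_pos.2 him
    positivity
  obtain ⟨ℓ, hℓ⟩ : ∃ ℓ : ℝ, ℓ = 1 + Real.log (nr B) + Real.log (2 + |s.im|) := ⟨_, rfl⟩
  rw [← hℓ]
  have hℓ1 : 1 ≤ ℓ := by linarith
  have p1 : (1 + Real.log (2 + |s.im|)) ^ A1 ≤ ℓ ^ A1 := pow_le_pow_left₀ (by linarith) (by linarith) _
  have p2 : (1 + Real.log (nr B)) ^ n ≤ ℓ ^ n := pow_le_pow_left₀ (by linarith) (by linarith) _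
  have hPG : PT G s ≤ PT (fun w : Pl K => lbd_triv K w.asIdeal) s + (∑ w ∈ B, (1 : ℝ) / nm w) + (S + C4) := by
    have := (abs_le.1 hbad).1
    linarith
  calc Real.exp (PT G s) ≤ Real.exp (PT (fun w : Pl K => lbd_triv K w.asIdeal) s +
        (∑ w ∈ B, (1 : ℝ) / nm w) + (S + C4)) := Real.exp_le_exp.2 hPG
    _ = Real.exp (PT (fun w : Pl K => lbd_triv K w.asIdeal) s) * Real.exp (∑ w ∈ B, (1 : ℝ) / nm w) *
        Real.exp (S + C4) := by rw [Real.exp_add, Real.exp_add]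
    _ ≤ (C2 * (C1 * ℓ ^ A1 * (1 + 1 / |s.im|))) * (C3 * ℓ ^ n) * Real.exp (S + C4) := by
        refine mul_le_mul_of_nonneg_right ?_ (Real.exp_pos _).le
        refine mul_le_mul ?_ ?_ (Real.exp_pos _).le (by positivity)
        · refine hz.trans ?_
          gcongr
        · refine hB.trans ?_
          gcongr
    _ = _ := by
        rw [pow_add]
        ring

/-- the prime sum over the good primes, real points -/
theorem zkr (K : Type) [Field K] [NumberField K] (p : ℕ) : ∃ C : ℝ, 1 ≤ C ∧ ∀ (B : Finset (Pl K)) (σ : ℝ),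
    1 < σ → σ ≤ 2 →
    Real.exp (PT (fun w : Pl K => if w ∉ B ∧ ¬ Above p w ∧ (nm w).Prime then 1 else 0) σ) * (σ - 1) ≤ C := by
  obtain ⟨C2, hC2, h2⟩ := eulc (Module.finrank ℚ K)
  obtain ⟨c, C1, hc, h1⟩ := lser_one K
  refine ⟨max 1 (C2 * C1), le_max_left _ _, fun B σ hσ hσ2 => ?_⟩
  have hs : 1 < ((σ : ℝ) : ℂ).re := by rwa [Complex.ofReal_re]
  have hs2 : ((σ : ℝ) : ℂ).re ≤ 2 := by rwa [Complex.ofReal_re]
  have h0 : lbd_triv K (⊥ : Ideal (𝓞 K)) = 0 := map_zero (lbd_triv K)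
  have h3 : PT (fun w : Pl K => if w ∉ B ∧ ¬ Above p w ∧ (nm w).Prime then 1 else 0) σ ≤
      PT (fun w : Pl K => lbd_triv K w.asIdeal) σ := by
    refine pt_le (G := fun w : Pl K => lbd_triv K w.asIdeal) (a := 1) (b := 1) ?_
      (fun w => lbd_triv_norm w.asIdeal) hs fun w => ?_
    · intro w
      split_ifs <;> simp
    · have e1 : lbd_triv K w.asIdeal = 1 := if_neg w.ne_bot
      have e2 : (nm w : ℂ) ^ (-(σ : ℂ)) = (((nm w : ℝ) ^ (-σ) : ℝ) : ℂ) := by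
        rw [Complex.ofReal_cpow (Nat.cast_nonneg _)]
        push_cast
        rfl
      have e3 : 0 ≤ (nm w : ℝ) ^ (-σ) := Real.rpow_nonneg (Nat.cast_nonneg _) _
      rw [e1, e2]
      split_ifs
      · exact le_rfl
      · rw [zero_mul, one_mul, Complex.ofReal_re, Complex.zero_re]
        exact e3
  have h4 := (h2 K rfl (lbd_triv K) (fun I => lbd_triv_norm I) (σ : ℂ) hs hs2).2
  rw [← lbd_lser_eq (lbd_triv K) h0 (fun I => lbd_triv_norm I) hσ] at h4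
  have h5 : ‖Lser (lbd_triv K) σ‖ ≤ C1 / (σ - 1) := (h1 σ hσ hσ2).2
  have h6 : 0 < σ - 1 := by linarith
  rw [le_div_iff₀ h6] at h5
  calc _ ≤ (C2 * ‖Lser (lbd_triv K) σ‖) * (σ - 1) :=
        mul_le_mul_of_nonneg_right ((Real.exp_le_exp.2 h3).trans h4) h6.le
    _ = C2 * (‖Lser (lbd_triv K) σ‖ * (σ - 1)) := by ring
    _ ≤ C2 * C1 := mul_le_mul_of_nonneg_left h5 (by linarith)
    _ ≤ _ := le_max_right _ _

end H93.G2
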