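import Pool.Agent.H93.G2.Trb
import Pool.Agent.H93.G2.Grp
import Pool.Agent.H93.G2.Zkb

/-!
# H93 G2 DSA: bounds from above for the prime sums of induced characters

* `ly W t = 1 + log (nr B) + log (2 + |t|)`. `upe`: bounds for `L`, `L'` of the characters of `Lt`. `dlo`: the lower bound if `2 ψ ≠ 0`.
* `dec0`: `exp (PT (mj H 0) s) ≤ C ly^A exp (PT (mj ⊤ 0) s)` (induction along subgroups of index 2).
* `pt0r`, `pt0c`: bounds for `exp (PT (mj H 0) s)` at real and complex points.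
-/

set_option autoImplicit false

open scoped NumberField Pointwise Classical
open IsDedekindDomain H63.MA NumberField H36.QA H57.LI H57.LC H67.SX H38.ML H57.SL H57.AN H57.GP H57.GP.Q H57.GP.Q.E H1.PN

noncomputable section

namespace H93.G2

variable {K : IntermediateField ℚ QBar} [NumberField K]

/-- the size of the logarithm of the conductor, over `K` (`W ≥ log (nr B)`) -/
def ly (W t : ℝ) : ℝ := 1 + W + Real.log (2 + |t|)

theorem lnr (B : Finset (Pl K)) : 0 ≤ Real.log (nr B) := Real.log_nonneg (nr_one B)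

theorem ly_one {W : ℝ} (hW : 0 ≤ W) (t : ℝ) : 1 ≤ ly W t := by
  have h2 : 0 ≤ Real.log (2 + |t|) := Real.log_nonneg (by linarith [abs_nonneg t])
  unfold ly
  linarith

theorem ly_mono (W : ℝ) {t u : ℝ} (h : |t| ≤ |u|) : ly W t ≤ ly W u := by
  have h2 : Real.log (2 + |t|) ≤ Real.log (2 + |u|) := Real.log_le_log (by linarith [abs_nonneg t]) (by linarith)
  unfold ly
  linarith

theorem ly_zero_le (W : ℝ) (t : ℝ) : ly W 0 ≤ ly W t := ly_mono W (by rw [abs_zero]; exact abs_nonneg t)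

theorem ly_dbl {W : ℝ} (hW : 0 ≤ W) (t : ℝ) : ly W (2 * t) ≤ 2 * ly W t := by
  have h2 : Real.log (2 + |2 * t|) ≤ Real.log (2 * (2 + |t|)) := by
    apply Real.log_le_log (by linarith [abs_nonneg (2 * t)])
    rw [abs_mul, abs_two]
    linarith
  rw [Real.log_mul (by norm_num) (by linarith [abs_nonneg t])] at h2
  have h3 := Real.log_two_lt_d9
  have h4 : 0 ≤ Real.log (2 + |t|) := Real.log_nonneg (by linarith [abs_nonneg t])
  unfold ly
  linarith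

theorem ly_unit {W : ℝ} (hW : 0 ≤ W) {t : ℝ} (h : |t| ≤ 1) : ly W t ≤ 2 * ly W 0 := by
  have h2 : Real.log (2 + |t|) ≤ Real.log (2 * 2) := Real.log_le_log (by linarith [abs_nonneg t]) (by linarith)
  rw [Real.log_mul (by norm_num) (by norm_num)] at h2
  have h4 : 0 ≤ Real.log (2 : ℝ) := Real.log_nonneg (by norm_num)
  unfold ly
  rw [abs_zero, add_zero]
  linarith

/-- `el` and `ly` -/
theorem el_ly {p b : ℕ} {C : ℝ} (hC : 1 ≤ C) {G : Type} [Group G] [Fintype G] {φ : Gal(QBar/K) →* G} {B : Finset (Pl K)}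
    {H : Subgroup G} {ψ : G → ZMod p} {E : IntermediateField K QBar} [NumberField E] {χ : RC E (md (mB p B) E)}
    (h : Lt p b C φ B H ψ E χ) {W : ℝ} (hW : Real.log (nr B) ≤ W) (t : ℝ) : el E (md (mB p B) E) t ≤ (C + 3) * ly W t := by
  have h1 : 0 ≤ Real.log (nr B) := Real.log_nonneg (nr_one B)
  have h4 : 0 ≤ Real.log (2 + |t|) := Real.log_nonneg (by linarith [abs_nonneg t])
  have h5 := h.cond
  have hd : dd E ≠ 0 := (dd_pos E).ne'
  have hN : (Ideal.absNorm (md (mB p B) E) : ℝ) ≠ 0 := by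
    rw [Ne, Nat.cast_eq_zero, Ideal.absNorm_eq_zero_iff]
    exact h.ne
  rw [Real.log_mul hd hN] at h5
  have h6 : C * (1 + Real.log (nr B)) ≤ C * (1 + W) := mul_le_mul_of_nonneg_left (by linarith) (by linarith)
  unfold el ly
  nlinarith [mul_nonneg (by linarith : (0 : ℝ) ≤ C) h4]

/-- the bounds for `L` and `L'` -/
theorem upe (N : ℕ) {C : ℝ} (hC : 1 ≤ C) : ∃ (C' : ℝ) (A' : ℕ), 1 ≤ C' ∧
    ∀ (K : IntermediateField ℚ QBar) [NumberField K] (p b : ℕ) (G : Type) [Group G] [Fintype G] (φ : Gal(QBar/K) →* G)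
    (B : Finset (Pl K)) (H : Subgroup G) (ψ : G → ZMod p) (E : IntermediateField K QBar) [NumberField E]
    (χ : RC E (md (mB p B) E)), Lt p b C φ B H ψ E χ → Module.finrank ℚ E ≤ N → (∃ y ∈ H, ψ y ≠ 0) →
    ∀ W : ℝ, Real.log (nr B) ≤ W →
    ∀ s : ℂ, 1 < s.re → s.re ≤ 2 → ‖LSeries (lbf χ.χ) s‖ ≤ C' * ly W s.im ^ A' ∧
      ‖LSeries (pw 1 (lbf χ.χ)) s‖ ≤ C' * ly W s.im ^ A' := by
  have hup : ∀ n : ℕ, ∃ A : ℕ, 0 < n → ∀ k : ℕ, ∃ C : ℝ, 1 ≤ C ∧
    ∀ (L : Type) [Field L] [NumberField L], TC L n → ∀ 𝔣 : Ideal (𝓞 L), 𝔣 ≠ ⊥ → ∀ χ : RC L 𝔣, χ.Non →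
      ∀ s : ℂ, 1 < s.re → s.re ≤ 2 → ‖LSeries (pw k (lbf χ.χ)) s‖ ≤ C * el L 𝔣 s.im ^ (k + A) := by
    intro n
    rcases Nat.eq_zero_or_pos n with hn | hn
    · exact ⟨0, fun h => absurd h (by omega)⟩
    · obtain ⟨A, hA⟩ := up n hn
      exact ⟨A, fun _ => hA⟩
  choose A hA using hup
  have hA' : ∀ (n k : ℕ), ∃ C : ℝ, 1 ≤ C ∧ (0 < n →
    ∀ (L : Type) [Field L] [NumberField L], TC L n → ∀ 𝔣 : Ideal (𝓞 L), 𝔣 ≠ ⊥ → ∀ χ : RC L 𝔣, χ.Non →
      ∀ s : ℂ, 1 < s.re → s.re ≤ 2 → ‖LSeries (pw k (lbf χ.χ)) s‖ ≤ C * el L 𝔣 s.im ^ (k + A n)) := by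
    intro n k
    rcases Nat.eq_zero_or_pos n with hn | hn
    · exact ⟨1, le_rfl, fun h => absurd h (by omega)⟩
    · obtain ⟨C, hC, h⟩ := hA n hn k
      exact ⟨C, hC, fun _ => h⟩
  choose U hU1 hU using hA'
  obtain ⟨A0, hA0⟩ : ∃ A0 : ℕ, A0 = 1 + ∑ n ∈ Finset.range (N + 1), A n := ⟨_, rfl⟩
  obtain ⟨U0, hU0⟩ : ∃ U0 : ℝ, U0 = ∑ n ∈ Finset.range (N + 1), (U n 0 + U n 1) := ⟨_, rfl⟩
  have hAn : ∀ n ≤ N, 1 + A n ≤ A0 := by
    intro n hn
    rw [hA0]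
    exact Nat.add_le_add_left (Finset.single_le_sum (f := A) (fun _ _ => Nat.zero_le _) (Finset.mem_range.2 (by omega))) 1
  have hUn : ∀ n ≤ N, U n 0 + U n 1 ≤ U0 := by
    intro n hn
    rw [hU0]
    exact Finset.single_le_sum (f := fun n => U n 0 + U n 1) (fun i _ => by linarith [hU1 i 0, hU1 i 1])
      (Finset.mem_range.2 (by omega))
  have hU01 : 2 ≤ U0 := by
    have := hUn 0 (Nat.zero_le _)
    linarith [hU1 0 0, hU1 0 1]
  have hC3 : 1 ≤ C + 3 := by linarith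
  refine ⟨U0 * (C + 3) ^ A0, A0, one_le_mul_of_one_le_of_one_le (by linarith) (one_le_pow₀ hC3), ?_⟩
  intro K _ p b G _ _ φ B H ψ E _ χ hL hEN hne W hW s hs hs2
  have hn : 0 < Module.finrank ℚ E := Module.finrank_pos
  have hel := el_ly hC hL hW s.im
  have he2 := (el_two _ hL.ne s.im).1
  have hly := ly_one ((lnr B).trans hW) s.im
  have key : ∀ j : ℕ, j ≤ 1 → U (Module.finrank ℚ E) j ≤ U0 →
      ‖LSeries (pw j (lbf χ.χ)) s‖ ≤ U0 * (C + 3) ^ A0 * ly W s.im ^ A0 := by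
    intro j hj hUj
    have h1 := hU (Module.finrank ℚ E) j hn E hL.tc _ hL.ne χ (hL.non hne) s hs hs2
    have h2 : el E (md (mB p B) E) s.im ^ (j + A (Module.finrank ℚ E)) ≤ ((C + 3) * ly W s.im) ^ A0 := by
      calc _ ≤ el E (md (mB p B) E) s.im ^ A0 :=
            pow_le_pow_right₀ (by linarith) ((Nat.add_le_add_right hj _).trans (hAn _ hEN))
        _ ≤ _ := pow_le_pow_left₀ (by linarith) hel _
    rw [mul_pow] at h2
    calc _ ≤ _ := h1
      _ ≤ U0 * ((C + 3) ^ A0 * ly W s.im ^ A0) := by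
          refine mul_le_mul hUj h2 ?_ (by linarith)
          have : 0 ≤ el E (md (mB p B) E) s.im := by linarith
          positivity
      _ = _ := by ring
  constructor
  · have h1 := key 0 (by omega) (by linarith [hUn _ hEN, hU1 (Module.finrank ℚ E) 1])
    rwa [pw_zero] at h1
  · exact key 1 le_rfl (by linarith [hUn _ hEN, hU1 (Module.finrank ℚ E) 0])

/-- the setting -/
structure Stg (k b : ℕ) (K : IntermediateField ℚ QBar) [NumberField K] : Prop where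
  two : 2 ≤ k
  root : ∃ ζ : K, IsPrimitiveRoot ζ (2 ^ k)
  mq : MQ 2 (2 ^ k) K

theorem Stg.pq {k b : ℕ} {K : IntermediateField ℚ QBar} [NumberField K] (h : Stg k b K) : PQ 2 (2 ^ k) := by
  obtain ⟨j, hj⟩ : ∃ j, k = j + 1 := ⟨k - 1, by have := h.two; omega⟩
  rw [hj]
  exact pq_pow Nat.prime_two j

/-- the transfer and the bounds in one statement -/
theorem tru {k b : ℕ} (hSt : Stg k b K) : ∃ (C : ℝ) (A : ℕ), 1 ≤ C ∧ ∀ (G : Type) [Group G] [Fintype G]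
    (φ : Gal(QBar/K) →* G) (D : Subgroup G) (B : Finset (Pl K)), Sd (2 ^ k) b φ D B → ∀ W : ℝ, Real.log (nr B) ≤ W → ∀ (H : Subgroup G) (ψ : G → ZMod (2 ^ k)),
    Lc H ψ → D ≤ H → (∀ y ∈ D, ψ y = 0) → (∃ y ∈ H, ψ y ≠ 0) →
    ∃ (E : IntermediateField K QBar) (_ : NumberField E) (χ : RC E (md (mB (2 ^ k) B) E)),
      Lt (2 ^ k) b C φ B H ψ E χ ∧
      (∀ s : ℂ, 1 < s.re → s.re ≤ 2 → ‖LSeries (lbf χ.χ) s‖ ≤ C * ly W s.im ^ A ∧
        ‖LSeries (pw 1 (lbf χ.χ)) s‖ ≤ C * ly W s.im ^ A) ∧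
      ∀ (Q : DP K QBar) (s : ℂ), 1 < s.re → s.re ≤ 2 →
        Real.exp (PT (Fc (2 ^ k) B φ Q (mj H ψ)) s) ≤ C * ly W s.im ^ A := by
  obtain ⟨ζ, hζ⟩ := hSt.root
  obtain ⟨C, hC, h⟩ := trb hSt.pq hSt.mq hζ b
  obtain ⟨C', A', hC', hup⟩ := upe (Module.finrank ℚ K * b) hC
  have hCC : 1 ≤ C * C' := one_le_mul_of_one_le_of_one_le hC hC'
  have hC0 : 0 ≤ C := by linarith
  refine ⟨C * C', A', hCC, ?_⟩
  intro G _ _ φ D B hS W hW H ψ hψ hD hD0 hne
  obtain ⟨E, hnf, χ, hL⟩ := h G φ D B hS H ψ hψ hD hD0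
  have hEN : Module.finrank ℚ E ≤ Module.finrank ℚ K * b := by
    rw [← Module.finrank_mul_finrank ℚ K E]
    exact Nat.mul_le_mul_left _ hL.deg
  have h1 := hup K (2 ^ k) b G φ B H ψ E χ hL hEN hne W hW
  have hCle : C ≤ C * C' := le_mul_of_one_le_right hC0 hC'
  have hC'le : C' ≤ C * C' := le_mul_of_one_le_left (by linarith) hC
  have hB0 : 0 ≤ Real.log (nr B) := Real.log_nonneg (nr_one B)
  refine ⟨E, hnf, χ, ⟨hL.deg, hL.tc, hL.ne, hL.cond.trans ?_, hL.non, hL.non2, hL.zero, hL.d1, ?_, ?_⟩, ?_, ?_⟩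
  · exact mul_le_mul_of_nonneg_right hCle (by linarith)
  · exact fun Q s hs hs2 => (hL.up Q s hs hs2).trans (mul_le_mul_of_nonneg_right hCle (Real.exp_pos _).le)
  · exact fun Q s hs hs2 => (hL.lo Q s hs hs2).trans (mul_le_mul_of_nonneg_right hCle (norm_nonneg _))
  · intro s hs hs2
    have hly : 0 ≤ ly W s.im ^ A' := pow_nonneg (by linarith [ly_one ((lnr B).trans hW) s.im]) _
    exact ⟨(h1 s hs hs2).1.trans (mul_le_mul_of_nonneg_right hC'le hly),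
      (h1 s hs hs2).2.trans (mul_le_mul_of_nonneg_right hC'le hly)⟩
  · intro Q s hs hs2
    calc _ ≤ C * ‖LSeries (lbf χ.χ) s‖ := hL.lo Q s hs hs2
      _ ≤ C * (C' * ly W s.im ^ A') := mul_le_mul_of_nonneg_left (h1 s hs hs2).1 hC0
      _ = _ := by ring

/-- the order two element -/
theorem half_ex {k : ℕ} (hk : 2 ≤ k) : ∃ h : ZMod (2 ^ k), h + h = 0 ∧ h ≠ 0 := by
  refine ⟨((2 ^ (k - 1) : ℕ) : ZMod (2 ^ k)), ?_, ?_⟩
  · rw [← Nat.cast_add, ← two_mul, ← pow_succ', Nat.sub_add_cancel (by omega), ZMod.natCast_self]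
  · rw [Ne, ZMod.natCast_eq_zero_iff]
    intro h
    have h1 := Nat.le_of_dvd (by positivity) h
    have h2 : 2 ^ (k - 1) < 2 ^ k := Nat.pow_lt_pow_right (by norm_num) (by omega)
    omega

theorem dec0 {k b : ℕ} (hSt : Stg k b K) : ∃ (C : ℝ) (A : ℕ), 1 ≤ C ∧ ∀ (G : Type) [Group G] [Fintype G]
    (φ : Gal(QBar/K) →* G) (D : Subgroup G) (B : Finset (Pl K)), Sd (2 ^ k) b φ D B → ∀ W : ℝ, Real.log (nr B) ≤ W → IsPGroup 2 G → ∀ (H : Subgroup G), D ≤ H →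
    ∀ (Q : DP K QBar) (s : ℂ), 1 < s.re → s.re ≤ 2 →
      Real.exp (PT (Fc (2 ^ k) B φ Q (mj H fun _ => (0 : ZMod (2 ^ k)))) s) ≤
        C * ly W s.im ^ A * Real.exp (PT (Fc (2 ^ k) B φ Q (mj ⊤ fun _ => (0 : ZMod (2 ^ k)))) s) := by
  obtain ⟨C, A, hC, hT⟩ := tru hSt
  obtain ⟨h, h2, h0⟩ := half_ex hSt.two
  have key : ∀ m : ℕ, ∀ (G : Type) [Group G] [Fintype G]
    (φ : Gal(QBar/K) →* G) (D : Subgroup G) (B : Finset (Pl K)), Sd (2 ^ k) b φ D B → ∀ W : ℝ, Real.log (nr B) ≤ W → IsPGroup 2 G → ∀ (H : Subgroup G), D ≤ H →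
    Fintype.card G ≤ Fintype.card H + m →
    ∀ (Q : DP K QBar) (s : ℂ), 1 < s.re → s.re ≤ 2 →
      Real.exp (PT (Fc (2 ^ k) B φ Q (mj H fun _ => (0 : ZMod (2 ^ k)))) s) ≤
        (C * ly W s.im ^ A) ^ m * Real.exp (PT (Fc (2 ^ k) B φ Q (mj ⊤ fun _ => (0 : ZMod (2 ^ k)))) s) := by
    intro m
    induction m with
    | zero =>
      intro G _ _ φ D B hS W hW hG H hD hc Q s hs hs2
      have hH : H = ⊤ := by
        apply Subgroup.eq_top_of_card_eq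
        rw [Nat.card_eq_fintype_card, Nat.card_eq_fintype_card]
        exact le_antisymm (Fintype.card_subtype_le _) (by simpa using hc)
      rw [hH, pow_zero, one_mul]
    | succ m ih =>
      intro G _ _ φ D B hS W hW hG H hD hc Q s hs hs2
      have hly : 1 ≤ C * ly W s.im ^ A := one_le_mul_of_one_le_of_one_le hC (one_le_pow₀ (ly_one ((lnr B).trans hW) s.im))
      have hX : 0 ≤ Real.exp (PT (Fc (2 ^ k) B φ Q (mj ⊤ fun _ => (0 : ZMod (2 ^ k)))) s) := (Real.exp_pos _).le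
      by_cases hH : H = ⊤
      · rw [hH]
        exact le_mul_of_one_le_left hX (one_le_pow₀ hly)
      obtain ⟨H', hHH, hcH⟩ := grp_up hG hH
      have hcH' : Fintype.card G ≤ Fintype.card H' + m := by
        have : 0 < Fintype.card H := Fintype.card_pos
        omega
      have h1 := ih G φ D B hS W hW hG H' (hD.trans hHH.le) hcH' Q s hs hs2
      have hε := lc_eps (p := 2 ^ k) hHH.le hcH h2
      obtain ⟨y, hy, hyH⟩ : ∃ y ∈ H', y ∉ H := SetLike.exists_of_lt hHH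
      obtain ⟨E, hnf, χ, -, -, h3⟩ := hT G φ D B hS W hW H' (fun z => if z ∈ H then (0 : ZMod (2 ^ k)) else h) hε
        (hD.trans hHH.le) (fun z hz => if_pos (hD hz)) ⟨y, hy, by
          show (if y ∈ H then (0 : ZMod (2 ^ k)) else h) ≠ 0
          rw [if_neg hyH]
          exact h0⟩
      have h4 := h3 Q s hs hs2
      have hb : ∀ (J : Subgroup G) (ψ : G → ZMod (2 ^ k)) w, ‖Fc (2 ^ k) B φ Q (mj J ψ) w‖ ≤ Fintype.card G :=
        fun J ψ w => fc_bd (Nat.cast_nonneg _) (mj_bd J ψ) w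
      have h5 : PT (Fc (2 ^ k) B φ Q (mj H fun _ => (0 : ZMod (2 ^ k)))) s =
          PT (Fc (2 ^ k) B φ Q (mj H' fun _ => (0 : ZMod (2 ^ k)))) s +
          PT (Fc (2 ^ k) B φ Q (mj H' fun z => if z ∈ H then (0 : ZMod (2 ^ k)) else h)) s := by
        rw [← pt_add (hb _ _) (hb _ _) hs]
        congr 1
        funext w
        unfold Fc
        split_ifs with hw
        · rw [mj_spl hSt.pq hHH.le hcH (fun _ => (0 : ZMod (2 ^ k))) h2 h0]
          congr 2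
          funext z
          rw [zero_add]
        · rw [add_zero]
      rw [h5, Real.exp_add]
      calc _ ≤ ((C * ly W s.im ^ A) ^ m * Real.exp (PT (Fc (2 ^ k) B φ Q (mj ⊤ fun _ => (0 : ZMod (2 ^ k)))) s)) *
            (C * ly W s.im ^ A) := mul_le_mul h1 h4 (Real.exp_pos _).le (by positivity)
        _ = _ := by ring
  refine ⟨C ^ b, A * b, one_le_pow₀ hC, ?_⟩
  intro G _ _ φ D B hS W hW hG H hD Q s hs hs2
  have h1 := key b G φ D B hS W hW hG H hD (hS.card.trans (Nat.le_add_left _ _)) Q s hs hs2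
  rw [mul_pow, ← pow_mul] at h1
  exact h1

end H93.G2
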