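import Pool.Agent.H93.G2.Ldv

/-!
# H93 G2 LAB: from weak to strong lower bounds to the right of `1`

* `ser_mvv`: the mean value theorem on a vertical line.
* `low_abs`: `(σ - 1)^a ≤ C3 ℓ^A3 |L(σ + it)|^(a+1)` and the bound for `L'` give `1 ≤ C ℓ^B |L(σ + it)|`.
* `page_abs`: `σ - 1 ≤ C ℓ^A L1(σ) L2(σ)`: at most one of the two functions can be small.
-/

set_option autoImplicit false

open scoped NumberField
open NumberField IsDedekindDomain H63.MA H36.QA Finset H1.PN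
open scoped Classical

noncomputable section

namespace H93.G2

variable {L : Type} [Field L] [NumberField L]

theorem ser_mvv (χ : Ideal (𝓞 L) → ℂ) (h0 : χ ⊥ = 0) (h1 : ∀ I, ‖χ I‖ ≤ 1) {x t D : ℝ} (hx : 1 < x)
    (hD : ∀ u : ℝ, |u| ≤ |t| → ‖LSeries (pw 1 (lbf χ)) ((x : ℂ) + (u : ℂ) * Complex.I)‖ ≤ D) :
    ‖LSeries (lbf χ) ((x : ℂ) + (t : ℂ) * Complex.I) - LSeries (lbf χ) (x : ℂ)‖ ≤ D * |t| := by
  have hder : ∀ u ∈ Set.Icc (0 : ℝ) 1, HasDerivWithinAt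
      (fun u : ℝ => LSeries (lbf χ) ((x : ℂ) + ((u : ℂ) * t) * Complex.I))
      (-LSeries (pw 1 (lbf χ)) ((x : ℂ) + ((u : ℂ) * t) * Complex.I) * (t * Complex.I)) (Set.Icc 0 1) u := by
    intro u hu
    have h2 : LSeries.abscissaOfAbsConv (lbf χ) < (((x : ℂ) + ((u : ℂ) * t) * Complex.I).re : EReal) := by
      refine (lb_abs χ h0 h1).trans_lt ?_
      have h3 : ((x : ℂ) + ((u : ℂ) * t) * Complex.I).re = x := by simp
      rw [h3]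
      exact_mod_cast hx
    have h3 := LSeries_hasDerivAt h2
    have e : pw 1 (lbf χ) = LSeries.logMul (lbf χ) := by
      rw [pw_iter]
      rfl
    rw [← e] at h3
    have h4 : HasDerivAt (fun z : ℂ => (x : ℂ) + (z * t) * Complex.I) (t * Complex.I) (u : ℂ) := by
      have h5 := (((hasDerivAt_id (u : ℂ)).mul_const (t : ℂ)).mul_const Complex.I).const_add (x : ℂ)
      simpa using h5
    have h5 := HasDerivAt.comp (u : ℂ) h3 h4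
    exact h5.comp_ofReal.hasDerivWithinAt
  have key := (convex_Icc (0 : ℝ) 1).norm_image_sub_le_of_norm_hasDerivWithin_le (C := D * |t|) hder
    (fun u hu => by
      rw [norm_mul, norm_neg, norm_mul, Complex.norm_I, mul_one, Complex.norm_real, Real.norm_eq_abs]
      refine mul_le_mul_of_nonneg_right ?_ (abs_nonneg t)
      have h6 := hD (u * t) (by
        rw [abs_mul, abs_of_nonneg hu.1]
        exact mul_le_of_le_one_left (abs_nonneg t) hu.2)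
      rw [Complex.ofReal_mul] at h6
      exact h6) ⟨le_rfl, zero_le_one⟩ ⟨zero_le_one, le_rfl⟩
  simpa using key

theorem low_abs (a : ℕ) {C3 C4 ℓ t : ℝ} {A3 A4 : ℕ} (hC3 : 1 ≤ C3) (hC4 : 1 ≤ C4) (hℓ : 1 ≤ ℓ)
    (χ : Ideal (𝓞 L) → ℂ) (h0 : χ ⊥ = 0) (h1 : ∀ I, ‖χ I‖ ≤ 1)
    (h : ∀ σ : ℝ, 1 < σ → σ ≤ 2 → (σ - 1) ^ a ≤
      C3 * ℓ ^ A3 * ‖LSeries (lbf χ) ((σ : ℂ) + (t : ℂ) * Complex.I)‖ ^ (a + 1))
    (hd : ∀ σ : ℝ, 1 < σ → σ ≤ 2 → ‖LSeries (pw 1 (lbf χ)) ((σ : ℂ) + (t : ℂ) * Complex.I)‖ ≤ C4 * ℓ ^ A4) :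
    ∀ σ : ℝ, 1 < σ → σ ≤ 2 → 1 ≤ 2 * ((2 ^ (a + 1) * C3 * C4 ^ (a + 1)) ^ a * C3) * ℓ ^ (A3 + (a + 1) * A4) *
      ‖LSeries (lbf χ) ((σ : ℂ) + (t : ℂ) * Complex.I)‖ := by
  intro σ hσ hσ2
  obtain ⟨C5, hC5⟩ : ∃ C5 : ℝ, C5 = 2 ^ (a + 1) * C3 * C4 ^ (a + 1) := ⟨_, rfl⟩
  have hC51 : 1 ≤ C5 := by
    rw [hC5]
    exact one_le_mul_of_one_le_of_one_le (one_le_mul_of_one_le_of_one_le (one_le_pow₀ (by norm_num)) hC3)
      (one_le_pow₀ hC4)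
  obtain ⟨E, hE⟩ : ∃ E : ℕ, E = A3 + (a + 1) * A4 := ⟨_, rfl⟩
  obtain ⟨C6, hC6⟩ : ∃ C6 : ℝ, C6 = C5 ^ a * C3 := ⟨_, rfl⟩
  have hC61 : 1 ≤ C6 := by
    rw [hC6]
    exact one_le_mul_of_one_le_of_one_le (one_le_pow₀ hC51) hC3
  rw [← hC5, ← hC6, ← hE]
  have hℓ0 : 0 < ℓ := by linarith
  obtain ⟨κ, hκ⟩ : ∃ κ : ℝ, κ = 1 / (C5 * ℓ ^ E) := ⟨_, rfl⟩
  have hden : 1 ≤ C5 * ℓ ^ E := one_le_mul_of_one_le_of_one_le hC51 (one_le_pow₀ hℓ)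
  have hκ0 : 0 < κ := by
    rw [hκ]
    positivity
  have hκ1 : κ ≤ 1 := by
    rw [hκ, div_le_one (by linarith)]
    exact hden
  have hκe : κ * (C5 * ℓ ^ E) = 1 := by
    rw [hκ]
    field_simp
  obtain ⟨g, hg⟩ : ∃ g : ℝ → ℝ, g = fun x : ℝ => ‖LSeries (lbf χ) ((x : ℂ) + (t : ℂ) * Complex.I)‖ := ⟨_, rfl⟩
  have hg0 : ∀ x, 0 ≤ g x := fun x => by
    rw [hg]
    exact norm_nonneg _
  -- at distance at least `κ`
  have hfar : ∀ y : ℝ, 1 + κ ≤ y → y ≤ 2 → κ ^ a ≤ C3 * ℓ ^ A3 * g y ^ (a + 1) := by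
    intro y hy hy2
    have h2 := h y (by linarith) hy2
    rw [hg]
    exact (pow_le_pow_left₀ hκ0.le (by linarith) a).trans h2
  have hroot : ∀ y : ℝ, κ ^ a ≤ C3 * ℓ ^ A3 * g y ^ (a + 1) → 1 / (C6 * ℓ ^ E) ≤ g y := by
    intro y hy
    have h2 : (1 / (C6 * ℓ ^ E)) ^ (a + 1) ≤ g y ^ (a + 1) := by
      have h3 : κ ^ a / (C3 * ℓ ^ A3) ≤ g y ^ (a + 1) := by
        rw [div_le_iff₀ (by positivity), mul_comm]
        exact hy
      refine le_trans ?_ h3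
      rw [div_pow, one_pow, hκ, div_pow, one_pow, div_div]
      apply one_div_le_one_div_of_le (by positivity)
      calc (C5 * ℓ ^ E) ^ a * (C3 * ℓ ^ A3) = C6 * ℓ ^ (a * E + A3) := by
            rw [hC6]
            ring
        _ ≤ C6 ^ (a + 1) * ℓ ^ (E * (a + 1)) := by
            apply mul_le_mul _ _ (by positivity) (by positivity)
            · exact le_self_pow₀ hC61 (by omega)
            · apply pow_le_pow_right₀ hℓ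
              have : A3 ≤ E := by rw [hE]; exact Nat.le_add_right _ _
              nlinarith
        _ = (C6 * ℓ ^ E) ^ (a + 1) := by ring
    exact (pow_le_pow_iff_left₀ (by positivity) (hg0 y) (by omega)).1 h2
  have hfin : ∀ x : ℝ, 1 / (C6 * ℓ ^ E) ≤ 2 * x → 1 ≤ 2 * C6 * ℓ ^ E * x := by
    intro x hx
    rw [div_le_iff₀ (by positivity)] at hx
    linarith
  have hgs : ‖LSeries (lbf χ) ((σ : ℂ) + (t : ℂ) * Complex.I)‖ = g σ := by rw [hg]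
  rw [hgs]
  by_cases hcase : 1 + κ ≤ σ
  · have h2 := hroot σ (hfar σ hcase hσ2)
    exact hfin _ (by linarith [hg0 σ])
  · have hcase' : σ < 1 + κ := not_le.1 hcase
    have h2 := hfar (1 + κ) le_rfl (by linarith)
    have h3 := hroot (1 + κ) h2
    obtain ⟨D, hD⟩ : ∃ D : ℝ, D = C4 * ℓ ^ A4 := ⟨_, rfl⟩
    have hD0 : 0 < D := by
      rw [hD]
      positivity
    have h4 : 2 * (κ * D) ≤ g (1 + κ) := by
      have h5 : (2 * (κ * D)) ^ (a + 1) ≤ g (1 + κ) ^ (a + 1) := by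
        have h6 : κ ^ a / (C3 * ℓ ^ A3) ≤ g (1 + κ) ^ (a + 1) := by
          rw [div_le_iff₀ (by positivity), mul_comm]
          exact h2
        refine le_trans ?_ h6
        rw [le_div_iff₀ (by positivity)]
        have h7 : (2 * (κ * D)) ^ (a + 1) * (C3 * ℓ ^ A3) = κ ^ a * (κ * (C5 * ℓ ^ E)) := by
          rw [hD, hC5, hE]
          ring
        rw [h7, hκe, mul_one]
      exact (pow_le_pow_iff_left₀ (by positivity) (hg0 _) (by omega)).1 h5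
    have h7 := ser_mv χ h0 h1 (a := σ) (b := 1 + κ) (t := t) (D := D) hσ hcase'.le (by
        intro x hx1 hx2
        rw [hD]
        exact hd x (hσ.trans_le hx1) (hx2.trans (by linarith)))
    have h8 : g (1 + κ) ≤ g σ + D * (1 + κ - σ) := by
      have h9 := norm_le_norm_sub_add (LSeries (lbf χ) (((1 + κ : ℝ) : ℂ) + (t : ℂ) * Complex.I))
        (LSeries (lbf χ) ((σ : ℂ) + (t : ℂ) * Complex.I))
      rw [hg]
      show ‖LSeries (lbf χ) (((1 + κ : ℝ) : ℂ) + (t : ℂ) * Complex.I)‖ ≤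
        ‖LSeries (lbf χ) ((σ : ℂ) + (t : ℂ) * Complex.I)‖ + D * (1 + κ - σ)
      linarith
    have h9 : D * (1 + κ - σ) ≤ κ * D := by
      rw [mul_comm κ D]
      exact mul_le_mul_of_nonneg_left (by linarith) hD0.le
    exact hfin _ (by linarith)

theorem page_abs {C ℓ : ℝ} {A : ℕ} (hC : 1 ≤ C) (hℓ : 1 ≤ ℓ) (f g : ℝ → ℝ)
    (hf0 : ∀ σ, 0 ≤ f σ) (hg0 : ∀ σ, 0 ≤ g σ)
    (hfu : ∀ σ, 1 < σ → σ ≤ 2 → f σ ≤ C * ℓ ^ A) (hgu : ∀ σ, 1 < σ → σ ≤ 2 → g σ ≤ C * ℓ ^ A)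
    (hfm : ∀ σ τ, 1 < σ → σ ≤ τ → τ ≤ 2 → f τ ≤ f σ + C * ℓ ^ A * (τ - σ))
    (hgm : ∀ σ τ, 1 < σ → σ ≤ τ → τ ≤ 2 → g τ ≤ g σ + C * ℓ ^ A * (τ - σ))
    (hp : ∀ σ, 1 < σ → σ ≤ 2 → σ - 1 ≤ C * ℓ ^ A * (f σ * g σ)) :
    (∀ σ, 1 < σ → σ ≤ 2 → 1 ≤ 8 * C ^ 5 * ℓ ^ (5 * A) * f σ) ∨
      (∀ σ, 1 < σ → σ ≤ 2 → 1 ≤ 8 * C ^ 5 * ℓ ^ (5 * A) * g σ) := by
  obtain ⟨D, hD⟩ : ∃ D : ℝ, D = C * ℓ ^ A := ⟨_, rfl⟩
  have hD1 : 1 ≤ D := by
    rw [hD]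
    exact one_le_mul_of_one_le_of_one_le hC (one_le_pow₀ hℓ)
  have hD0 : 0 < D := by linarith
  have e5 : 8 * C ^ 5 * ℓ ^ (5 * A) = 8 * D ^ 5 := by
    rw [hD]
    ring
  rw [e5]
  rw [← hD] at hfu hgu hfm hgm hp
  obtain ⟨κ, hκ⟩ : ∃ κ : ℝ, κ = 1 / (8 * D ^ 3) := ⟨_, rfl⟩
  have hD3 : 1 ≤ D ^ 3 := one_le_pow₀ hD1
  have hκ0 : 0 < κ := by
    rw [hκ]
    positivity
  have hκ1 : κ ≤ 1 := by
    rw [hκ, div_le_one (by positivity)]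
    linarith
  have hκe : κ * (8 * D ^ 3) = 1 := by
    rw [hκ]
    field_simp
  -- away from `1`
  have hfar : ∀ u v : ℝ → ℝ, (∀ σ, 0 ≤ u σ) → (∀ σ, 1 < σ → σ ≤ 2 → v σ ≤ D) →
      (∀ σ, 1 < σ → σ ≤ 2 → σ - 1 ≤ D * (u σ * v σ)) → ∀ σ, 1 + κ ≤ σ → σ ≤ 2 → 1 ≤ 8 * D ^ 5 * u σ := by
    intro u v hu hv huv σ hσ hσ2
    have h1 := huv σ (by linarith) hσ2
    have h2 := hv σ (by linarith) hσ2
    have h3 : u σ * v σ ≤ u σ * D := mul_le_mul_of_nonneg_left h2 (hu σ)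
    have h4 : κ ≤ D * (u σ * D) := by
      have := mul_le_mul_of_nonneg_left h3 hD0.le
      linarith
    have h5 : κ * (8 * D ^ 3) ≤ D * (u σ * D) * (8 * D ^ 3) := mul_le_mul_of_nonneg_right h4 (by positivity)
    rw [hκe] at h5
    calc 1 ≤ D * (u σ * D) * (8 * D ^ 3) := h5
      _ = _ := by ring
  by_contra hcon
  rw [not_or] at hcon
  obtain ⟨h1, h2⟩ := hcon
  push Not at h1 h2
  obtain ⟨σ, hσ, hσ2, hσf⟩ := h1
  obtain ⟨τ, hτ, hτ2, hτg⟩ := h2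
  have hσκ : σ < 1 + κ := by
    by_contra h
    have := hfar f g hf0 hgu hp σ (not_lt.1 h) hσ2
    linarith
  have hτκ : τ < 1 + κ := by
    by_contra h
    have := hfar g f hg0 hfu (fun σ h1 h2 => by
      rw [mul_comm (g σ)]
      exact hp σ h1 h2) τ (not_lt.1 h) hτ2
    linarith
  have hnear : ∀ u : ℝ → ℝ, (∀ σ τ, 1 < σ → σ ≤ τ → τ ≤ 2 → u τ ≤ u σ + D * (τ - σ)) → ∀ σ, 1 < σ → σ < 1 + κ →
      8 * D ^ 5 * u σ < 1 → u (1 + κ) ≤ 2 * (D * κ) := by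
    intro u hu σ h1 h2 h3
    have h4 := hu σ (1 + κ) h1 h2.le (by linarith)
    have h5 : D * (1 + κ - σ) ≤ D * κ := mul_le_mul_of_nonneg_left (by linarith) hD0.le
    have h6 : u σ ≤ D * κ := by
      have h7 : D * κ * (8 * D ^ 5) = D ^ 3 := by
        calc D * κ * (8 * D ^ 5) = κ * (8 * D ^ 3) * D ^ 3 := by ring
          _ = D ^ 3 := by rw [hκe, one_mul]
      by_contra h8
      have h9 : D * κ * (8 * D ^ 5) < u σ * (8 * D ^ 5) := mul_lt_mul_of_pos_right (not_le.1 h8) (by positivity)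
      rw [h7] at h9
      linarith
    linarith
  have h3 := hnear f hfm σ hσ hσκ hσf
  have h4 := hnear g hgm τ hτ hτκ hτg
  have h5 := hp (1 + κ) (by linarith) (by linarith)
  have h6 : f (1 + κ) * g (1 + κ) ≤ (2 * (D * κ)) * (2 * (D * κ)) := mul_le_mul h3 h4 (hg0 _) (by positivity)
  have h7 : κ ≤ D * ((2 * (D * κ)) * (2 * (D * κ))) := by
    have := mul_le_mul_of_nonneg_left h6 hD0.le
    linarith
  have h8 : D * ((2 * (D * κ)) * (2 * (D * κ))) = κ * (κ * (8 * D ^ 3)) / 2 := by ring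
  rw [h8, hκe, mul_one] at h7
  linarith

end H93.G2
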