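import Pool.Agent.H93.G2.Dsa
import Pool.Agent.H93.G2.Lab

/-!
# H93 G2 DSB: the descent (Stark's argument by positivity) for real characters

* `pt0c`, `pt0r`: upper bounds for the principal character of a subgroup.
* `Sgm c a W B φ Q H ψ`: the lower bound `1 ≤ c (ly W 0)^a exp (PT (mj H ψ) σ)` for `1 < σ ≤ 2`.
* `dsc`: if it holds for the real characters of `K` then for all real characters of subgroups.
-/

set_option autoImplicit false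

open scoped NumberField Pointwise Classical
open IsDedekindDomain H63.MA NumberField H36.QA H57.LI H57.LC H67.SX H38.ML H57.SL H57.AN H57.GP H57.GP.Q H57.GP.Q.E H1.PN

noncomputable section

namespace H93.G2

variable {K : IntermediateField ℚ QBar} [NumberField K]

theorem fc_top {k : ℕ} (hk : PQ 2 (2 ^ k)) {G : Type} [Group G] [Fintype G] (φ : Gal(QBar/K) →* G) (B : Finset (Pl K))
    (Q : DP K QBar) : Fc (2 ^ k) B φ Q (mj ⊤ fun _ => (0 : ZMod (2 ^ k))) =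
      fun w : Pl K => if w ∉ B ∧ ¬ Above (2 ^ k) w ∧ (nm w).Prime then 1 else 0 := by
  funext w
  unfold Fc
  split_ifs
  · rw [mj_top hk (fun a _ b _ => (add_zero (0 : ZMod (2 ^ k))).symm), ep_zero]
  · rfl

theorem pt0c {k b : ℕ} (hSt : Stg k b K) : ∃ (C : ℝ) (A : ℕ), 1 ≤ C ∧ ∀ (G : Type) [Group G] [Fintype G]
    (φ : Gal(QBar/K) →* G) (D : Subgroup G) (B : Finset (Pl K)), Sd (2 ^ k) b φ D B → ∀ W : ℝ, Real.log (nr B) ≤ W → IsPGroup 2 G → ∀ (H : Subgroup G), D ≤ H →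
    ∀ (Q : DP K QBar) (s : ℂ), 1 < s.re → s.re ≤ 2 → s.im ≠ 0 →
      Real.exp (PT (Fc (2 ^ k) B φ Q (mj H fun _ => (0 : ZMod (2 ^ k)))) s) ≤ C * ly W s.im ^ A * (1 + 1 / |s.im|) := by
  obtain ⟨C, A, hC, h⟩ := dec0 hSt
  obtain ⟨C', A', hC', h'⟩ := zkp K (2 ^ k) (by positivity)
  refine ⟨C * C', A + A', one_le_mul_of_one_le_of_one_le hC hC', ?_⟩
  intro G _ _ φ D B hS W hW hG H hD Q s hs hs2 hs0
  have h1 := h G φ D B hS W hW hG H hD Q s hs hs2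
  have h2 := h' B s hs hs2 hs0
  rw [fc_top hSt.pq] at h1
  have hly := ly_one ((lnr B).trans hW) s.im
  have e : (1 + Real.log (nr B) + Real.log (2 + |s.im|)) ≤ ly W s.im := by
    unfold ly
    linarith
  have h3 : 0 ≤ C * ly W s.im ^ A := by positivity
  calc _ ≤ _ := h1
    _ ≤ C * ly W s.im ^ A * (C' * ly W s.im ^ A' * (1 + 1 / |s.im|)) := by
        refine mul_le_mul_of_nonneg_left (h2.trans ?_) h3
        refine mul_le_mul_of_nonneg_right (mul_le_mul_of_nonneg_left ?_ (by linarith)) (by positivity)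
        refine pow_le_pow_left₀ ?_ e _
        have g1 := lnr B
        have g2 : 0 ≤ Real.log (2 + |s.im|) := Real.log_nonneg (by linarith [abs_nonneg s.im])
        linarith
    _ = _ := by
        rw [pow_add]
        ring

theorem pt0r {k b : ℕ} (hSt : Stg k b K) : ∃ (C : ℝ) (A : ℕ), 1 ≤ C ∧ ∀ (G : Type) [Group G] [Fintype G]
    (φ : Gal(QBar/K) →* G) (D : Subgroup G) (B : Finset (Pl K)), Sd (2 ^ k) b φ D B → ∀ W : ℝ, Real.log (nr B) ≤ W → IsPGroup 2 G → ∀ (H : Subgroup G), D ≤ H →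
    ∀ (Q : DP K QBar) (σ : ℝ), 1 < σ → σ ≤ 2 →
      Real.exp (PT (Fc (2 ^ k) B φ Q (mj H fun _ => (0 : ZMod (2 ^ k)))) σ) * (σ - 1) ≤ C * ly W 0 ^ A := by
  obtain ⟨C, A, hC, h⟩ := dec0 hSt
  obtain ⟨C', hC', h'⟩ := zkr K (2 ^ k)
  refine ⟨C * C', A, one_le_mul_of_one_le_of_one_le hC hC', ?_⟩
  intro G _ _ φ D B hS W hW hG H hD Q σ hσ hσ2
  have h1 := h G φ D B hS W hW hG H hD Q σ (by simpa using hσ) (by simpa using hσ2)
  have h2 := h' B σ hσ hσ2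
  rw [fc_top hSt.pq, Complex.ofReal_im] at h1
  have hly := ly_one ((lnr B).trans hW) 0
  have h3 : 0 ≤ C * ly W 0 ^ A := by positivity
  calc _ ≤ (C * ly W 0 ^ A * Real.exp (PT (fun w : Pl K => if w ∉ B ∧ ¬ Above (2 ^ k) w ∧ (nm w).Prime then 1 else 0) σ)) *
        (σ - 1) := mul_le_mul_of_nonneg_right h1 (by linarith)
    _ = C * ly W 0 ^ A * (Real.exp (PT (fun w : Pl K => if w ∉ B ∧ ¬ Above (2 ^ k) w ∧ (nm w).Prime then 1 else 0) σ) *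
        (σ - 1)) := by ring
    _ ≤ C * ly W 0 ^ A * C' := mul_le_mul_of_nonneg_left h2 h3
    _ = _ := by ring

/-- the lower bound on the segment -/
def Sgm {G : Type} [Group G] [Fintype G] {p : ℕ} (c : ℝ) (a : ℕ) (W : ℝ) (B : Finset (Pl K)) (φ : Gal(QBar/K) →* G) (Q : DP K QBar)
    (H : Subgroup G) (ψ : G → ZMod p) : Prop :=
  ∀ σ : ℝ, 1 < σ → σ ≤ 2 → 1 ≤ c * ly W 0 ^ a * Real.exp (PT (Fc p B φ Q (mj H ψ)) σ)

theorem Sgm.mono {G : Type} [Group G] [Fintype G] {p : ℕ} {c c' : ℝ} {a a' : ℕ} {W : ℝ} (hW : 0 ≤ W) {B : Finset (Pl K)} {φ : Gal(QBar/K) →* G}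
    {Q : DP K QBar} {H : Subgroup G} {ψ : G → ZMod p} (h : Sgm c a W B φ Q H ψ) (hc0 : 0 ≤ c) (hc : c ≤ c') (ha : a ≤ a') :
    Sgm c' a' W B φ Q H ψ := by
  intro σ hσ hσ2
  refine (h σ hσ hσ2).trans (mul_le_mul_of_nonneg_right ?_ (Real.exp_pos _).le)
  have := ly_one hW 0
  exact mul_le_mul hc (pow_le_pow_right₀ this ha) (by positivity) (by linarith)

/-- the prime sum of a nonnegative combination at a real point -/
theorem pt_real {G : Type} [Group G] [Fintype G] {p : ℕ} (B : Finset (Pl K)) (φ : Gal(QBar/K) →* G) (Q : DP K QBar)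
    (f : G → ℂ) (h : ∀ y, 0 ≤ (f y).re) (σ : ℝ) : 0 ≤ PT (Fc p B φ Q f) σ := by
  apply pt_nonneg
  intro w
  have e : ((nm w : ℂ)) ^ (-(σ : ℂ)) = (((nm w : ℝ) ^ (-σ) : ℝ) : ℂ) := by
    rw [Complex.ofReal_cpow (Nat.cast_nonneg _), Complex.ofReal_natCast, Complex.ofReal_neg]
  rw [e, Complex.re_mul_ofReal]
  refine mul_nonneg ?_ (Real.rpow_nonneg (Nat.cast_nonneg _) _)
  unfold Fc
  split_ifs
  · exact h _
  · exact le_rfl

theorem fc_add {G : Type} [Group G] [Fintype G] {p : ℕ} (B : Finset (Pl K)) (φ : Gal(QBar/K) →* G) (Q : DP K QBar)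
    (f g : G → ℂ) : Fc p B φ Q (fun y => f y + g y) = fun w => Fc p B φ Q f w + Fc p B φ Q g w := by
  funext w
  unfold Fc
  split_ifs
  · rfl
  · rw [add_zero]

/-- the case of a nonnegative combination -/
theorem dscA {k b : ℕ} (hSt : Stg k b K) : ∃ (C : ℝ) (A : ℕ), 1 ≤ C ∧ ∀ (G : Type) [Group G] [Fintype G]
    (φ : Gal(QBar/K) →* G) (D : Subgroup G) (B : Finset (Pl K)), Sd (2 ^ k) b φ D B → ∀ W : ℝ, Real.log (nr B) ≤ W → IsPGroup 2 G → ∀ (H : Subgroup G)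
    (ψ ψ₂ : G → ZMod (2 ^ k)), D ≤ H → Lc H ψ → Lc H ψ₂ → (∀ y ∈ D, ψ y = 0) → (∀ y ∈ D, ψ₂ y = 0) →
    (∃ y ∈ H, ψ y ≠ 0) → (∃ y ∈ H, ψ₂ y ≠ 0) →
    (∀ y, 0 ≤ (mj H (fun _ => (0 : ZMod (2 ^ k))) y).re + 2 * (mj H ψ y).re + (mj H ψ₂ y).re) →
    ∀ Q : DP K QBar, Sgm C A W B φ Q H ψ := by
  obtain ⟨C1, A1, hC1, hT⟩ := tru hSt
  obtain ⟨C2, A2, hC2, h0⟩ := pt0r hSt
  obtain ⟨C3, hC3⟩ : ∃ C3 : ℝ, C3 = C2 * C1 * C1 ^ 2 := ⟨_, rfl⟩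
  obtain ⟨A3, hA3⟩ : ∃ A3 : ℕ, A3 = A2 + A1 := ⟨_, rfl⟩
  have hC31 : 1 ≤ C3 := by
    rw [hC3]
    exact one_le_mul_of_one_le_of_one_le (one_le_mul_of_one_le_of_one_le hC2 hC1) (one_le_pow₀ hC1)
  obtain ⟨C4, hC4⟩ : ∃ C4 : ℝ, C4 = 2 * ((2 ^ (1 + 1) * C3 * C1 ^ (1 + 1)) ^ 1 * C3) := ⟨_, rfl⟩
  have hC41 : 1 ≤ C4 := by
    rw [hC4]
    have h1 : 1 ≤ (2 ^ (1 + 1) * C3 * C1 ^ (1 + 1)) ^ 1 * C3 :=
      one_le_mul_of_one_le_of_one_le (one_le_pow₀ (one_le_mul_of_one_le_of_one_le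
        (one_le_mul_of_one_le_of_one_le (one_le_pow₀ (by norm_num)) hC31) (one_le_pow₀ hC1))) hC31
    linarith
  refine ⟨C4 * C1, A3 + (1 + 1) * A1, one_le_mul_of_one_le_of_one_le hC41 hC1, ?_⟩
  intro G _ _ φ D B hS W hW hG H ψ ψ₂ hD hψ hψ₂ hD0 hD2 hne hne2 hpos Q
  obtain ⟨E, hnf, χ, hL, hU, hP⟩ := hT G φ D B hS W hW H ψ hψ hD hD0 hne
  obtain ⟨-, -, -, -, -, hP2⟩ := hT G φ D B hS W hW H ψ₂ hψ₂ hD hD2 hne2
  have hly := ly_one ((lnr B).trans hW) 0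
  have hχb := lbd_rc_norm_le χ
  have hb : ∀ (J : Subgroup G) (ψ : G → ZMod (2 ^ k)) w, ‖Fc (2 ^ k) B φ Q (mj J ψ) w‖ ≤ Fintype.card G :=
    fun J ψ w => fc_bd (Nat.cast_nonneg _) (mj_bd J ψ) w
  have hlow : ∀ σ : ℝ, 1 < σ → σ ≤ 2 → (σ - 1) ^ 1 ≤
      C3 * ly W 0 ^ A3 * ‖LSeries (lbf χ.χ) ((σ : ℂ) + ((0 : ℝ) : ℂ) * Complex.I)‖ ^ (1 + 1) := by
    intro σ hσ hσ2
    have hσ' : 1 < ((σ : ℝ) : ℂ).re := by simpa using hσ
    have hσ2' : ((σ : ℝ) : ℂ).re ≤ 2 := by simpa using hσ2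
    have e0 : (σ : ℂ) + ((0 : ℝ) : ℂ) * Complex.I = (σ : ℂ) := by simp
    rw [e0, pow_one]
    have h1 := pt_real (p := 2 ^ k) B φ Q (fun y => mj H (fun _ => (0 : ZMod (2 ^ k))) y + (mj H ψ y + (mj H ψ y + mj H ψ₂ y)))
      (fun y => by
        have := hpos y
        simp only [Complex.add_re]
        linarith) σ
    rw [fc_add, pt_add (hb _ _) (b := Fintype.card G + (Fintype.card G + Fintype.card G)) ?_ hσ', fc_add,
      pt_add (hb _ _) (b := Fintype.card G + Fintype.card G) ?_ hσ', fc_add, pt_add (hb _ _) (hb _ _) hσ'] at h1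
    rotate_left
    · intro w
      rw [fc_add]
      exact (norm_add_le _ _).trans (add_le_add (hb _ _ w) (hb _ _ w))
    · intro w
      rw [fc_add]
      refine (norm_add_le _ _).trans (add_le_add (hb _ _ w) ?_)
      rw [fc_add]
      exact (norm_add_le _ _).trans (add_le_add (hb _ _ w) (hb _ _ w))
    obtain ⟨x0, hx0⟩ : ∃ x : ℝ, x = Real.exp (PT (Fc (2 ^ k) B φ Q (mj H fun _ => (0 : ZMod (2 ^ k)))) σ) := ⟨_, rfl⟩
    obtain ⟨x1, hx1⟩ : ∃ x : ℝ, x = Real.exp (PT (Fc (2 ^ k) B φ Q (mj H ψ)) σ) := ⟨_, rfl⟩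
    obtain ⟨x2, hx2⟩ : ∃ x : ℝ, x = Real.exp (PT (Fc (2 ^ k) B φ Q (mj H ψ₂)) σ) := ⟨_, rfl⟩
    have h2 : 1 ≤ x0 * (x1 * (x1 * x2)) := by
      rw [hx0, hx1, hx2, ← Real.exp_add, ← Real.exp_add, ← Real.exp_add]
      exact Real.one_le_exp h1
    have g0 := h0 G φ D B hS W hW hG H hD Q σ hσ hσ2
    have g1 := hL.lo Q σ hσ' hσ2'
    have g2 := hP2 Q σ hσ' hσ2'
    rw [← hx0] at g0
    rw [← hx1] at g1
    rw [← hx2, Complex.ofReal_im] at g2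
    have hx00 : 0 ≤ x0 := hx0 ▸ (Real.exp_pos _).le
    have hx10 : 0 ≤ x1 := hx1 ▸ (Real.exp_pos _).le
    have hx20 : 0 ≤ x2 := hx2 ▸ (Real.exp_pos _).le
    have hσ1 : 0 ≤ σ - 1 := by linarith
    calc σ - 1 = (σ - 1) * 1 := (mul_one _).symm
      _ ≤ (σ - 1) * (x0 * (x1 * (x1 * x2))) := mul_le_mul_of_nonneg_left h2 hσ1
      _ = (x0 * (σ - 1)) * x2 * (x1 * x1) := by ring
      _ ≤ (C2 * ly W 0 ^ A2) * (C1 * ly W 0 ^ A1) * ((C1 * ‖LSeries (lbf χ.χ) (σ : ℂ)‖) * (C1 * ‖LSeries (lbf χ.χ) (σ : ℂ)‖)) := by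
          gcongr
      _ = _ := by
          rw [hC3, hA3, pow_add]
          ring
  have hd : ∀ σ : ℝ, 1 < σ → σ ≤ 2 →
      ‖LSeries (pw 1 (lbf χ.χ)) ((σ : ℂ) + ((0 : ℝ) : ℂ) * Complex.I)‖ ≤ C1 * ly W 0 ^ A1 := by
    intro σ hσ hσ2
    have h1 := (hU ((σ : ℂ) + ((0 : ℝ) : ℂ) * Complex.I) (by simpa using hσ) (by simpa using hσ2)).2
    simpa using h1
  intro σ hσ hσ2
  have h1 := low_abs 1 hC31 hC1 hly (χ.χ : Ideal (𝓞 E) → ℂ) (map_zero χ.χ) hχb hlow hd σ hσ hσ2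
  rw [← hC4] at h1
  have e0 : (σ : ℂ) + ((0 : ℝ) : ℂ) * Complex.I = (σ : ℂ) := by simp
  rw [e0] at h1
  have h2 := hL.up Q σ (by simpa using hσ) (by simpa using hσ2)
  have h3 : 0 ≤ C4 * ly W 0 ^ (A3 + (1 + 1) * A1) := by positivity
  calc 1 ≤ C4 * ly W 0 ^ (A3 + (1 + 1) * A1) * ‖LSeries (lbf χ.χ) (σ : ℂ)‖ := h1
    _ ≤ C4 * ly W 0 ^ (A3 + (1 + 1) * A1) * (C1 * Real.exp (PT (Fc (2 ^ k) B φ Q (mj H ψ)) σ)) :=
        mul_le_mul_of_nonneg_left h2 h3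
    _ = _ := by ring

/-- the case of a character with `2 ψ ≠ 0` -/
theorem dscC {k b : ℕ} (hSt : Stg k b K) : ∃ (C : ℝ) (A : ℕ), 1 ≤ C ∧ ∀ (G : Type) [Group G] [Fintype G]
    (φ : Gal(QBar/K) →* G) (D : Subgroup G) (B : Finset (Pl K)), Sd (2 ^ k) b φ D B → ∀ W : ℝ, Real.log (nr B) ≤ W → ∀ (H : Subgroup G)
    (ψ : G → ZMod (2 ^ k)), D ≤ H → Lc H ψ → (∀ y ∈ D, ψ y = 0) → (∃ y ∈ H, ψ y + ψ y ≠ 0) →
    ∀ Q : DP K QBar, Sgm C A W B φ Q H ψ := by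
  obtain ⟨C1, A1, hC1, hT⟩ := tru hSt
  have hl : ∀ n : ℕ, ∃ (C : ℝ) (B : ℕ), 1 ≤ C ∧ (0 < n → ∀ (L : Type) [Field L] [NumberField L], TC L n →
    ∀ 𝔣 : Ideal (𝓞 L), 𝔣 ≠ ⊥ → ∀ χ : RC L 𝔣, Sq2 χ → ∀ s : ℂ, 1 < s.re → s.re ≤ 2 →
      1 ≤ C * el L 𝔣 s.im ^ B * ‖LSeries (lbf χ.χ) s‖) := by
    intro n
    rcases Nat.eq_zero_or_pos n with hn | hn
    · exact ⟨1, 0, le_rfl, fun h => absurd h (by omega)⟩
    · obtain ⟨C, B, hC, h⟩ := low n hn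
      exact ⟨C, B, hC, fun _ => h⟩
  choose U V hU1 hUV using hl
  obtain ⟨N, hN⟩ : ∃ N : ℕ, N = Module.finrank ℚ K * b := ⟨_, rfl⟩
  obtain ⟨U0, hU0⟩ : ∃ U0 : ℝ, U0 = ∑ n ∈ Finset.range (N + 1), U n := ⟨_, rfl⟩
  obtain ⟨V0, hV0⟩ : ∃ V0 : ℕ, V0 = ∑ n ∈ Finset.range (N + 1), V n := ⟨_, rfl⟩
  have hUn : ∀ n ≤ N, U n ≤ U0 := by
    intro n hn
    rw [hU0]
    exact Finset.single_le_sum (f := U) (fun i _ => by linarith [hU1 i]) (Finset.mem_range.2 (by omega))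
  have hVn : ∀ n ≤ N, V n ≤ V0 := by
    intro n hn
    rw [hV0]
    exact Finset.single_le_sum (f := V) (fun _ _ => Nat.zero_le _) (Finset.mem_range.2 (by omega))
  have hU01 : 1 ≤ U0 := (hU1 0).trans (hUn 0 (Nat.zero_le _))
  have hC3 : 1 ≤ C1 + 3 := by linarith
  refine ⟨U0 * (C1 + 3) ^ V0 * C1, V0, one_le_mul_of_one_le_of_one_le
    (one_le_mul_of_one_le_of_one_le hU01 (one_le_pow₀ hC3)) hC1, ?_⟩
  intro G _ _ φ D B hS W hW H ψ hD hψ hD0 hne2 Q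
  have hne : ∃ y ∈ H, ψ y ≠ 0 := by
    obtain ⟨y, hy, h⟩ := hne2
    exact ⟨y, hy, fun h' => h (by rw [h', add_zero])⟩
  obtain ⟨E, hnf, χ, hL, hU, hP⟩ := hT G φ D B hS W hW H ψ hψ hD hD0 hne
  have hEN : Module.finrank ℚ E ≤ N := by
    rw [hN, ← Module.finrank_mul_finrank ℚ K E]
    exact Nat.mul_le_mul_left _ hL.deg
  intro σ hσ hσ2
  have hσ' : 1 < ((σ : ℝ) : ℂ).re := by simpa using hσ
  have hσ2' : ((σ : ℝ) : ℂ).re ≤ 2 := by simpa using hσ2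
  have h1 := hUV (Module.finrank ℚ E) Module.finrank_pos E hL.tc _ hL.ne χ (hL.non2 hne2) σ hσ' hσ2'
  rw [Complex.ofReal_im] at h1
  have h2 := hL.up Q σ hσ' hσ2'
  have hel := el_ly hC1 hL hW 0
  have he2 := (el_two _ hL.ne 0).1
  have hly := ly_one ((lnr B).trans hW) 0
  have h3 : el E (md (mB (2 ^ k) B) E) 0 ^ V (Module.finrank ℚ E) ≤ ((C1 + 3) * ly W 0) ^ V0 := by
    calc _ ≤ el E (md (mB (2 ^ k) B) E) 0 ^ V0 := pow_le_pow_right₀ (by linarith) (hVn _ hEN)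
      _ ≤ _ := pow_le_pow_left₀ (by linarith) hel _
  rw [mul_pow] at h3
  have h4 : 0 ≤ el E (md (mB (2 ^ k) B) E) 0 ^ V (Module.finrank ℚ E) := by
    have : 0 ≤ el E (md (mB (2 ^ k) B) E) 0 := by linarith
    positivity
  calc 1 ≤ U (Module.finrank ℚ E) * el E (md (mB (2 ^ k) B) E) 0 ^ V (Module.finrank ℚ E) * ‖LSeries (lbf χ.χ) (σ : ℂ)‖ := h1
    _ ≤ U0 * ((C1 + 3) ^ V0 * ly W 0 ^ V0) * (C1 * Real.exp (PT (Fc (2 ^ k) B φ Q (mj H ψ)) σ)) := by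
        refine mul_le_mul (mul_le_mul (hUn _ hEN) h3 h4 (by linarith)) h2 (norm_nonneg _) (by positivity)
    _ = _ := by ring

/-- the descent -/
theorem dsc {k b : ℕ} (hSt : Stg k b K) {c0 : ℝ} (hc0 : 1 ≤ c0) (a0 : ℕ) : ∃ (C : ℝ) (A : ℕ), 1 ≤ C ∧
    ∀ (G : Type) [Group G] [Fintype G] (φ : Gal(QBar/K) →* G) (D : Subgroup G) (B : Finset (Pl K)),
    Sd (2 ^ k) b φ D B → ∀ W : ℝ, Real.log (nr B) ≤ W → IsPGroup 2 G → ∀ Q : DP K QBar,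
    (∀ μ : G → ZMod (2 ^ k), Lc ⊤ μ → (∀ y, μ y + μ y = 0) → (∃ y, μ y ≠ 0) → (∀ y ∈ D, μ y = 0) →
      Sgm c0 a0 W B φ Q ⊤ μ) →
    ∀ (H : Subgroup G) (ψ : G → ZMod (2 ^ k)), D ≤ H → Lc H ψ → (∀ y ∈ D, ψ y = 0) → (∀ y ∈ H, ψ y + ψ y = 0) →
      (∃ y ∈ H, ψ y ≠ 0) → Sgm C A W B φ Q H ψ := by
  obtain ⟨CA, AA, hCA, hA⟩ := dscA hSt
  obtain ⟨CC, AC, hCC, hC⟩ := dscC hSt
  have key : ∀ m : ℕ, ∃ (C : ℝ) (A : ℕ), 1 ≤ C ∧
    ∀ (G : Type) [Group G] [Fintype G] (φ : Gal(QBar/K) →* G) (D : Subgroup G) (B : Finset (Pl K)),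
    Sd (2 ^ k) b φ D B → ∀ W : ℝ, Real.log (nr B) ≤ W → IsPGroup 2 G → ∀ Q : DP K QBar,
    (∀ μ : G → ZMod (2 ^ k), Lc ⊤ μ → (∀ y, μ y + μ y = 0) → (∃ y, μ y ≠ 0) → (∀ y ∈ D, μ y = 0) →
      Sgm c0 a0 W B φ Q ⊤ μ) →
    ∀ (H : Subgroup G) (ψ : G → ZMod (2 ^ k)), D ≤ H → Fintype.card G ≤ Fintype.card H + m → Lc H ψ →
      (∀ y ∈ D, ψ y = 0) → (∀ y ∈ H, ψ y + ψ y = 0) → (∃ y ∈ H, ψ y ≠ 0) → Sgm C A W B φ Q H ψ := by
    intro m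
    induction m with
    | zero =>
      refine ⟨c0, a0, hc0, ?_⟩
      intro G _ _ φ D B hS W hW hG Q hμ H ψ hD hcard hψ hD0 hr hne
      have hH : H = ⊤ := by
        apply Subgroup.eq_top_of_card_eq
        rw [Nat.card_eq_fintype_card, Nat.card_eq_fintype_card]
        exact le_antisymm (Fintype.card_subtype_le _) (by simpa using hcard)
      subst hH
      obtain ⟨y, -, hy⟩ := hne
      exact hμ ψ hψ (fun y => hr y (Subgroup.mem_top y)) ⟨y, hy⟩ hD0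
    | succ m ih =>
      obtain ⟨C, A, hC1, hI⟩ := ih
      refine ⟨CA + CC ^ 2 + C ^ 2, AA + 2 * AC + 2 * A, by nlinarith, ?_⟩
      intro G _ _ φ D B hS W hW hG Q hμ H ψ hD hcard hψ hD0 hr hne
      have hm0 : ∀ {c : ℝ} {a : ℕ} {J : Subgroup G} {ρ : G → ZMod (2 ^ k)}, Sgm c a W B φ Q J ρ → 0 ≤ c →
          c ≤ CA + CC ^ 2 + C ^ 2 → a ≤ AA + 2 * AC + 2 * A →
          Sgm (CA + CC ^ 2 + C ^ 2) (AA + 2 * AC + 2 * A) W B φ Q J ρ := fun h h0 h1 h2 => h.mono ((lnr B).trans hW) h0 h1 h2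
      have hly := ly_one ((lnr B).trans hW) 0
      by_cases hH : H = ⊤
      · refine hm0 (hI G φ D B hS W hW hG Q hμ H ψ hD ?_ hψ hD0 hr hne) (by linarith) (by nlinarith) (by omega)
        subst hH
        have : Fintype.card (⊤ : Subgroup G) = Fintype.card G := by
          rw [← Nat.card_eq_fintype_card, ← Nat.card_eq_fintype_card, Subgroup.card_top]
        omega
      rcases stp hSt.two hG hS.nor hD hH hψ hr hne hD0 with h1 | h1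
      · obtain ⟨ψ₂, hψ₂, hD2, hne2, hpos⟩ := h1
        refine hm0 (hA G φ D B hS W hW hG H ψ ψ₂ hD hψ hψ₂ hD0 hD2 hne hne2 hpos Q) (by linarith) (by nlinarith) (by omega)
      · obtain ⟨H', ψ', ψ'', hHH, hψ', hψ'', hD', hD'', hsum, hcase⟩ := h1
        have hDH' : D ≤ H' := hD.trans hHH.le
        -- the product
        have hprod : ∀ {c : ℝ} {a : ℕ}, 1 ≤ c → Sgm c a W B φ Q H' ψ' → Sgm c a W B φ Q H' ψ'' → Sgm (c ^ 2) (2 * a) W B φ Q H ψ := by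
          intro c a hc h2 h3 σ hσ hσ2
          have hσ' : 1 < ((σ : ℝ) : ℂ).re := by simpa using hσ
          have hb : ∀ (J : Subgroup G) (ψ : G → ZMod (2 ^ k)) w, ‖Fc (2 ^ k) B φ Q (mj J ψ) w‖ ≤ Fintype.card G :=
            fun J ψ w => fc_bd (Nat.cast_nonneg _) (mj_bd J ψ) w
          have e : PT (Fc (2 ^ k) B φ Q (mj H ψ)) σ = PT (Fc (2 ^ k) B φ Q (mj H' ψ')) σ + PT (Fc (2 ^ k) B φ Q (mj H' ψ'')) σ := by
            rw [← pt_add (hb _ _) (hb _ _) hσ', ← fc_add]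
            congr 2
            funext y
            exact hsum y
          rw [e, Real.exp_add]
          have h4 := h2 σ hσ hσ2
          have h5 := h3 σ hσ hσ2
          calc (1 : ℝ) = 1 * 1 := (mul_one 1).symm
            _ ≤ (c * ly W 0 ^ a * Real.exp (PT (Fc (2 ^ k) B φ Q (mj H' ψ')) σ)) *
                (c * ly W 0 ^ a * Real.exp (PT (Fc (2 ^ k) B φ Q (mj H' ψ'')) σ)) :=
                mul_le_mul h4 h5 zero_le_one (zero_le_one.trans h4)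
            _ = _ := by ring
        rcases hcase with ⟨n1, n2⟩ | ⟨r1, r2, n1, n2⟩
        · refine hm0 (hprod hCC (hC G φ D B hS W hW H' ψ' hDH' hψ' hD' n1 Q) (hC G φ D B hS W hW H' ψ'' hDH' hψ'' hD'' n2 Q))
            (by positivity) (by nlinarith) (by omega)
        · have hcard' : Fintype.card G ≤ Fintype.card H' + m := by
            have h2 : Fintype.card H < Fintype.card H' := by
              rw [← Nat.card_eq_fintype_card, ← Nat.card_eq_fintype_card]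
              by_contra h3
              have h4 := Subgroup.eq_of_le_of_card_ge hHH.le (not_lt.1 h3)
              exact hHH.ne h4
            omega
          refine hm0 (hprod hC1 (hI G φ D B hS W hW hG Q hμ H' ψ' hDH' hcard' hψ' hD' r1 n1)
            (hI G φ D B hS W hW hG Q hμ H' ψ'' hDH' hcard' hψ'' hD'' r2 n2)) (by positivity) (by nlinarith) (by omega)
  obtain ⟨C, A, hC1, h⟩ := key b
  exact ⟨C, A, hC1, fun G _ _ φ D B hS W hW hG Q hμ H ψ hD hψ hD0 hr hne =>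
    h G φ D B hS W hW hG Q hμ H ψ hD (hS.card.trans (Nat.le_add_left _ _)) hψ hD0 hr hne⟩

end H93.G2
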