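import Pool.Agent.H93.G2.Dsb

/-!
# H93 G2 DSD: the lower bound `Lo` for the characters of `Lt`

* `pt_341`: `3 PT(mj H 0)(σ) + 4 PT(mj H ψ)(σ + it) + PT(mj H 0)(σ + 2it) ≥ 0` for real `ψ`.
* `lor`: a real character with `Sgm` satisfies `Lo` (small `t`: mean value theorem; other `t`: 3-4-1 over `K`).
* `lor_all`: `Lo` for all nontrivial characters, if the real characters of `K` satisfy `Sgm`.
-/

set_option autoImplicit false

open scoped NumberField Pointwise Classical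
open IsDedekindDomain H63.MA NumberField H36.QA H57.LI H57.LC H67.SX H38.ML H57.SL H57.AN H57.GP H57.GP.Q H57.GP.Q.E H1.PN

noncomputable section

namespace H93.G2

variable {K : IntermediateField ℚ QBar} [NumberField K]

theorem pt_341 {k : ℕ} (hk : PQ 2 (2 ^ k)) {G : Type} [Group G] [Fintype G] (B : Finset (Pl K)) (φ : Gal(QBar/K) →* G)
    (Q : DP K QBar) {H : Subgroup G} {ψ : G → ZMod (2 ^ k)} (hr : ∀ y ∈ H, ψ y + ψ y = 0) {σ : ℝ} (hσ : 1 < σ) (t : ℝ) :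
    0 ≤ 3 * PT (Fc (2 ^ k) B φ Q (mj H fun _ => (0 : ZMod (2 ^ k)))) σ +
      4 * PT (Fc (2 ^ k) B φ Q (mj H ψ)) ((σ : ℂ) + (t : ℂ) * Complex.I) +
      PT (Fc (2 ^ k) B φ Q (mj H fun _ => (0 : ZMod (2 ^ k)))) ((σ : ℂ) + ((2 * t : ℝ) : ℂ) * Complex.I) := by
  have hb : ∀ (J : Subgroup G) (ψ : G → ZMod (2 ^ k)) w, ‖Fc (2 ^ k) B φ Q (mj J ψ) w‖ ≤ Fintype.card G :=
    fun J ψ w => fc_bd (Nat.cast_nonneg _) (mj_bd J ψ) w
  have s0 := pt_sum (hb H fun _ => (0 : ZMod (2 ^ k))) (s := (σ : ℂ)) (by simpa using hσ)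
  have s1 := pt_sum (hb H ψ) (s := (σ : ℂ) + (t : ℂ) * Complex.I) (by simpa using hσ)
  have s2 := pt_sum (hb H fun _ => (0 : ZMod (2 ^ k))) (s := (σ : ℂ) + ((2 * t : ℝ) : ℂ) * Complex.I) (by simpa using hσ)
  unfold PT
  rw [← tsum_mul_left, ← tsum_mul_left, ← (s0.mul_left 3).tsum_add (s1.mul_left 4),
    ← ((s0.mul_left 3).add (s1.mul_left 4)).tsum_add s2]
  refine tsum_nonneg fun w => ?_
  have hn0 : (nm w : ℂ) ≠ 0 := by
    have := nm_pos w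
    exact_mod_cast this.ne'
  obtain ⟨r, hr'⟩ : ∃ r : ℝ, r = (nm w : ℝ) ^ (-σ) := ⟨_, rfl⟩
  have hr0 : 0 ≤ r := by
    rw [hr']
    exact Real.rpow_nonneg (Nat.cast_nonneg _) _
  obtain ⟨z, hz⟩ : ∃ z : ℂ, z = (nm w : ℂ) ^ (-((t : ℂ) * Complex.I)) := ⟨_, rfl⟩
  have hz1 : ‖z‖ ≤ 1 := by
    rw [hz, Complex.norm_natCast_cpow_of_pos (nm_pos w)]
    have h2 : (-((t : ℂ) * Complex.I)).re = 0 := by simp
    rw [h2, Real.rpow_zero]
  have e0 : (nm w : ℂ) ^ (-(σ : ℂ)) = (r : ℂ) := by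
    rw [hr', Complex.ofReal_cpow (Nat.cast_nonneg _), Complex.ofReal_natCast, Complex.ofReal_neg]
  have e1 : (nm w : ℂ) ^ (-((σ : ℂ) + (t : ℂ) * Complex.I)) = z * (r : ℂ) := by
    rw [hz, ← e0, ← Complex.cpow_add _ _ hn0]
    congr 1
    ring
  have e2 : (nm w : ℂ) ^ (-((σ : ℂ) + ((2 * t : ℝ) : ℂ) * Complex.I)) = z ^ 2 * (r : ℂ) := by
    rw [hz, ← Complex.cpow_nat_mul, ← e0, ← Complex.cpow_add _ _ hn0]
    congr 1
    push_cast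
    ring
  rw [e0, e1, e2]
  unfold Fc
  split_ifs with hw
  · have h1 := mj_341 hk hr (φ (fr Q w)) hz1
    have h2 : 3 * (mj H (fun _ => (0 : ZMod (2 ^ k))) (φ (fr Q w)) * (r : ℂ)).re +
        4 * (mj H ψ (φ (fr Q w)) * (z * (r : ℂ))).re +
        (mj H (fun _ => (0 : ZMod (2 ^ k))) (φ (fr Q w)) * (z ^ 2 * (r : ℂ))).re =
        (3 * (mj H (fun _ => (0 : ZMod (2 ^ k))) (φ (fr Q w))).re + 4 * (mj H ψ (φ (fr Q w)) * z).re +
          (mj H (fun _ => (0 : ZMod (2 ^ k))) (φ (fr Q w)) * z ^ 2).re) * r := by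
      rw [← mul_assoc, ← mul_assoc, Complex.re_mul_ofReal, Complex.re_mul_ofReal, Complex.re_mul_ofReal]
      ring
    rw [h2]
    exact mul_nonneg h1 hr0
  · simp

theorem lor {k b : ℕ} (hSt : Stg k b K) {c0 : ℝ} (hc0 : 1 ≤ c0) (a0 : ℕ) {C1 : ℝ} (hC1 : 1 ≤ C1) (A1 : ℕ) : ∃ (C : ℝ) (A : ℕ), 1 ≤ C ∧
    ∀ (G : Type) [Group G] [Fintype G] (φ : Gal(QBar/K) →* G) (D : Subgroup G) (B : Finset (Pl K)),
    Sd (2 ^ k) b φ D B → ∀ W : ℝ, Real.log (nr B) ≤ W → IsPGroup 2 G → ∀ Q : DP K QBar, ∀ (H : Subgroup G) (ψ : G → ZMod (2 ^ k)), D ≤ H →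
      (∀ y ∈ H, ψ y + ψ y = 0) → (∃ y ∈ H, ψ y ≠ 0) → Sgm c0 a0 W B φ Q H ψ →
      ∀ (E : IntermediateField K QBar) [NumberField E] (χ : RC E (md (mB (2 ^ k) B) E)), Lt (2 ^ k) b C1 φ B H ψ E χ →
      (∀ s : ℂ, 1 < s.re → s.re ≤ 2 → ‖LSeries (pw 1 (lbf χ.χ)) s‖ ≤ C1 * ly W s.im ^ A1) →
      ∀ s : ℂ, 1 < s.re → s.re ≤ 2 → 1 ≤ C * ly W s.im ^ A * ‖LSeries (lbf χ.χ) s‖ := by
  obtain ⟨C3, A3, hC3, hc⟩ := pt0c hSt
  obtain ⟨C4, A4, hC4, h0⟩ := pt0r hSt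
  obtain ⟨C5, hC5⟩ : ∃ C5 : ℝ, C5 = C4 ^ 3 * C1 ^ 4 * (C3 * 2 ^ A3) * (2 * (c0 * C1) * (C1 * 2 ^ A1)) := ⟨_, rfl⟩
  obtain ⟨A5, hA5⟩ : ∃ A5 : ℕ, A5 = 3 * A4 + A3 + a0 + A1 := ⟨_, rfl⟩
  have h2n : ∀ n : ℕ, (1 : ℝ) ≤ 2 ^ n := fun n => one_le_pow₀ (by norm_num)
  have hcc : 1 ≤ c0 * C1 := one_le_mul_of_one_le_of_one_le hc0 hC1
  have hC51 : 1 ≤ C5 := by
    rw [hC5]
    refine one_le_mul_of_one_le_of_one_le (one_le_mul_of_one_le_of_one_le (one_le_mul_of_one_le_of_one_le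
      (one_le_pow₀ hC4) (one_le_pow₀ hC1)) (one_le_mul_of_one_le_of_one_le hC3 (h2n _)))
      (one_le_mul_of_one_le_of_one_le (by linarith) (one_le_mul_of_one_le_of_one_le hC1 (h2n _)))
  obtain ⟨C6, hC6⟩ : ∃ C6 : ℝ, C6 = 2 * ((2 ^ (3 + 1) * C5 * C1 ^ (3 + 1)) ^ 3 * C5) := ⟨_, rfl⟩
  have hC61 : 1 ≤ C6 := by
    rw [hC6]
    have h1 : 1 ≤ (2 ^ (3 + 1) * C5 * C1 ^ (3 + 1)) ^ 3 * C5 :=
      one_le_mul_of_one_le_of_one_le (one_le_pow₀ (one_le_mul_of_one_le_of_one_le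
        (one_le_mul_of_one_le_of_one_le (h2n _) hC51) (one_le_pow₀ hC1))) hC51
    linarith
  refine ⟨C6 + 2 * (c0 * C1), A5 + (3 + 1) * A1 + a0, by linarith, ?_⟩
  intro G _ _ φ D B hS W hW hG Q H ψ hD hr hne hSg E _ χ hL hU s hs hs2
  obtain ⟨σ, hσ⟩ : ∃ σ : ℝ, σ = s.re := ⟨_, rfl⟩
  obtain ⟨t, ht⟩ : ∃ t : ℝ, t = s.im := ⟨_, rfl⟩
  have hse : s = (σ : ℂ) + (t : ℂ) * Complex.I := by
    rw [hσ, ht, Complex.re_add_im]
  rw [← hσ] at hs hs2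
  rw [← ht, hse]
  have hχb := lbd_rc_norm_le χ
  obtain ⟨ℓ, hℓ⟩ : ∃ ℓ : ℝ, ℓ = ly W t := ⟨_, rfl⟩
  obtain ⟨m, hm⟩ : ∃ m : ℝ, m = ly W 0 := ⟨_, rfl⟩
  have hm1 : 1 ≤ m := by rw [hm]; exact ly_one ((lnr B).trans hW) 0
  have hmℓ : m ≤ ℓ := by rw [hm, hℓ]; exact ly_zero_le W t
  have hℓ1 : 1 ≤ ℓ := hm1.trans hmℓ
  rw [← hℓ]
  obtain ⟨X, hX⟩ : ∃ X : ℝ, X = c0 * C1 * m ^ a0 := ⟨_, rfl⟩
  obtain ⟨Y, hY⟩ : ∃ Y : ℝ, Y = C1 * (2 * m) ^ A1 := ⟨_, rfl⟩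
  have hX1 : 1 ≤ X := by
    rw [hX]
    exact one_le_mul_of_one_le_of_one_le hcc (one_le_pow₀ hm1)
  have hY1 : 1 ≤ Y := by
    rw [hY]
    exact one_le_mul_of_one_le_of_one_le hC1 (one_le_pow₀ (by linarith))
  -- the real point
  have hreal : ∀ x : ℝ, 1 < x → x ≤ 2 → 1 ≤ X * ‖LSeries (lbf χ.χ) (x : ℂ)‖ := by
    intro x hx hx2
    have h1 := hSg x hx hx2
    have h2 := hL.lo Q x (by simpa using hx) (by simpa using hx2)
    rw [← hm] at h1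
    calc 1 ≤ c0 * m ^ a0 * Real.exp (PT (Fc (2 ^ k) B φ Q (mj H ψ)) x) := h1
      _ ≤ c0 * m ^ a0 * (C1 * ‖LSeries (lbf χ.χ) (x : ℂ)‖) := mul_le_mul_of_nonneg_left h2 (by positivity)
      _ = _ := by
          rw [hX]
          ring
  obtain ⟨τ, hτ⟩ : ∃ τ : ℝ, τ = 1 / (2 * X * Y) := ⟨_, rfl⟩
  have hXY : 1 ≤ X * Y := one_le_mul_of_one_le_of_one_le hX1 hY1
  have hτ0 : 0 < τ := by
    rw [hτ]
    positivity
  have hτ1 : τ ≤ 1 := by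
    rw [hτ, div_le_one (by positivity)]
    nlinarith
  have hτe : τ * (2 * X * Y) = 1 := by
    rw [hτ]
    field_simp
  by_cases hcase : |t| ≤ τ
  · -- small `t`
    have h1 := ser_mvv (χ.χ : Ideal (𝓞 E) → ℂ) (map_zero χ.χ) hχb (x := σ) (t := t) (D := Y) hs (by
      intro u hu
      have hu1 : |u| ≤ 1 := hu.trans (hcase.trans hτ1)
      have h2 := hU ((σ : ℂ) + (u : ℂ) * Complex.I) (by simpa using hs) (by simpa using hs2)
      have e : ((σ : ℂ) + (u : ℂ) * Complex.I).im = u := by simp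
      rw [e] at h2
      refine h2.trans ?_
      rw [hY, hm]
      refine mul_le_mul_of_nonneg_left ?_ (by linarith)
      exact pow_le_pow_left₀ (by linarith [ly_one ((lnr B).trans hW) u]) (ly_unit ((lnr B).trans hW) hu1) _)
    have h2 := hreal σ hs hs2
    have h3 : ‖LSeries (lbf χ.χ) (σ : ℂ)‖ ≤ ‖LSeries (lbf χ.χ) ((σ : ℂ) + (t : ℂ) * Complex.I)‖ + Y * |t| := by
      have := norm_le_norm_add_norm_sub' (LSeries (lbf χ.χ) (σ : ℂ)) (LSeries (lbf χ.χ) ((σ : ℂ) + (t : ℂ) * Complex.I))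
      rw [norm_sub_rev] at this
      linarith
    have h4 : X * (Y * |t|) ≤ 1 / 2 := by
      have h5 : X * (Y * |t|) ≤ X * (Y * τ) :=
        mul_le_mul_of_nonneg_left (mul_le_mul_of_nonneg_left hcase (by linarith)) (by linarith)
      have h6 : X * (Y * τ) = τ * (2 * X * Y) / 2 := by ring
      rw [h6, hτe] at h5
      exact h5
    have h5 : X * ‖LSeries (lbf χ.χ) (σ : ℂ)‖ ≤ X * (‖LSeries (lbf χ.χ) ((σ : ℂ) + (t : ℂ) * Complex.I)‖ + Y * |t|) :=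
      mul_le_mul_of_nonneg_left h3 (by linarith)
    have h6 : 1 ≤ 2 * X * ‖LSeries (lbf χ.χ) ((σ : ℂ) + (t : ℂ) * Complex.I)‖ := by
      have : X * (‖LSeries (lbf χ.χ) ((σ : ℂ) + (t : ℂ) * Complex.I)‖ + Y * |t|) =
        X * ‖LSeries (lbf χ.χ) ((σ : ℂ) + (t : ℂ) * Complex.I)‖ + X * (Y * |t|) := by ring
      linarith
    refine h6.trans (mul_le_mul_of_nonneg_right ?_ (norm_nonneg _))
    have h7 : m ^ a0 ≤ ℓ ^ (A5 + (3 + 1) * A1 + a0) :=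
      (pow_le_pow_left₀ (by linarith) hmℓ _).trans (pow_le_pow_right₀ hℓ1 (by omega))
    calc 2 * X = 2 * (c0 * C1) * m ^ a0 := by rw [hX]; ring
      _ ≤ 2 * (c0 * C1) * ℓ ^ (A5 + (3 + 1) * A1 + a0) := mul_le_mul_of_nonneg_left h7 (by linarith)
      _ ≤ (C6 + 2 * (c0 * C1)) * ℓ ^ (A5 + (3 + 1) * A1 + a0) :=
          mul_le_mul_of_nonneg_right (by linarith) (by positivity)
  · -- large `t`
    have hcase' : τ < |t| := not_le.1 hcase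
    have ht0 : 0 < |t| := hτ0.trans hcase'
    have ht1 : 1 / |t| ≤ 2 * X * Y := by
      rw [div_le_iff₀ ht0]
      have : τ * (2 * X * Y) ≤ |t| * (2 * X * Y) := mul_le_mul_of_nonneg_right hcase'.le (by positivity)
      rw [hτe] at this
      linarith
    have hXℓ : X ≤ c0 * C1 * ℓ ^ a0 := by
      rw [hX]
      exact mul_le_mul_of_nonneg_left (pow_le_pow_left₀ (by linarith) hmℓ _) (by linarith)
    have hYℓ : Y ≤ C1 * 2 ^ A1 * ℓ ^ A1 := by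
      rw [hY, mul_pow, mul_assoc]
      refine mul_le_mul_of_nonneg_left (mul_le_mul_of_nonneg_left ?_ (by positivity)) (by linarith)
      exact pow_le_pow_left₀ (by linarith) hmℓ _
    have hlow : ∀ x : ℝ, 1 < x → x ≤ 2 → (x - 1) ^ 3 ≤
        C5 * ℓ ^ A5 * ‖LSeries (lbf χ.χ) ((x : ℂ) + (t : ℂ) * Complex.I)‖ ^ (3 + 1) := by
      intro x hx hx2
      have h1 := pt_341 hSt.pq B φ Q hr hx t
      obtain ⟨x0, hx0⟩ : ∃ y : ℝ, y = Real.exp (PT (Fc (2 ^ k) B φ Q (mj H fun _ => (0 : ZMod (2 ^ k)))) x) := ⟨_, rfl⟩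
      obtain ⟨x1, hx1⟩ : ∃ y : ℝ, y = Real.exp (PT (Fc (2 ^ k) B φ Q (mj H ψ)) ((x : ℂ) + (t : ℂ) * Complex.I)) := ⟨_, rfl⟩
      obtain ⟨x2, hx2'⟩ : ∃ y : ℝ, y = Real.exp (PT (Fc (2 ^ k) B φ Q (mj H fun _ => (0 : ZMod (2 ^ k))))
        ((x : ℂ) + ((2 * t : ℝ) : ℂ) * Complex.I)) := ⟨_, rfl⟩
      have h2 : 1 ≤ x0 ^ 3 * x1 ^ 4 * x2 := by
        rw [hx0, hx1, hx2', ← Real.exp_nat_mul, ← Real.exp_nat_mul, ← Real.exp_add, ← Real.exp_add]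
        exact Real.one_le_exp (by simp only [Nat.cast_ofNat]; exact h1)
      have g0 := h0 G φ D B hS W hW hG H hD Q x hx hx2
      have g1 := hL.lo Q ((x : ℂ) + (t : ℂ) * Complex.I) (by simpa using hx) (by simpa using hx2)
      have g2 := hc G φ D B hS W hW hG H hD Q ((x : ℂ) + ((2 * t : ℝ) : ℂ) * Complex.I) (by simpa using hx) (by simpa using hx2) (by
        have : ((x : ℂ) + ((2 * t : ℝ) : ℂ) * Complex.I).im = 2 * t := by simp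
        rw [this]
        intro h
        rw [abs_pos] at ht0
        apply ht0
        linarith)
      have e : ((x : ℂ) + ((2 * t : ℝ) : ℂ) * Complex.I).im = 2 * t := by simp
      rw [← hx0, ← hm] at g0
      rw [← hx1] at g1
      rw [← hx2', e] at g2
      have hx00 : 0 ≤ x0 := hx0 ▸ (Real.exp_pos _).le
      have hx10 : 0 ≤ x1 := hx1 ▸ (Real.exp_pos _).le
      have hx20 : 0 ≤ x2 := hx2' ▸ (Real.exp_pos _).le
      have k0 : x0 * (x - 1) ≤ C4 * ℓ ^ A4 :=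
        g0.trans (mul_le_mul_of_nonneg_left (pow_le_pow_left₀ (by linarith) hmℓ _) (by linarith))
      have k2 : x2 ≤ (C3 * 2 ^ A3) * ℓ ^ A3 * (2 * (c0 * C1 * ℓ ^ a0) * (C1 * 2 ^ A1 * ℓ ^ A1)) := by
        have h3 : ly W (2 * t) ^ A3 ≤ 2 ^ A3 * ℓ ^ A3 := by
          rw [← mul_pow, hℓ]
          exact pow_le_pow_left₀ (by linarith [ly_one ((lnr B).trans hW) (2 * t)]) (ly_dbl ((lnr B).trans hW) t) _
        have h4 : 1 + 1 / |2 * t| ≤ 2 * (c0 * C1 * ℓ ^ a0) * (C1 * 2 ^ A1 * ℓ ^ A1) := by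
          have h5 : 1 / |2 * t| ≤ X * Y := by
            rw [abs_mul, abs_two]
            have h6 : 1 / (2 * |t|) = (1 / |t|) / 2 := by
              field_simp
            rw [h6]
            linarith
          have h6 : X * Y ≤ (c0 * C1 * ℓ ^ a0) * (C1 * 2 ^ A1 * ℓ ^ A1) := mul_le_mul hXℓ hYℓ (by linarith) (by positivity)
          calc 1 + 1 / |2 * t| ≤ X * Y + X * Y := add_le_add hXY h5
            _ ≤ _ := by
                have := add_le_add h6 h6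
                linarith
        calc x2 ≤ C3 * ly W (2 * t) ^ A3 * (1 + 1 / |2 * t|) := g2
          _ ≤ C3 * (2 ^ A3 * ℓ ^ A3) * (2 * (c0 * C1 * ℓ ^ a0) * (C1 * 2 ^ A1 * ℓ ^ A1)) := by
              refine mul_le_mul (mul_le_mul_of_nonneg_left h3 (by linarith)) h4 (by positivity) (by positivity)
          _ = _ := by ring
      have hx1' : 0 ≤ x - 1 := by linarith
      calc (x - 1) ^ 3 = (x - 1) ^ 3 * 1 := (mul_one _).symm
        _ ≤ (x - 1) ^ 3 * (x0 ^ 3 * x1 ^ 4 * x2) := mul_le_mul_of_nonneg_left h2 (by positivity)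
        _ = (x0 * (x - 1)) ^ 3 * x1 ^ 4 * x2 := by ring
        _ ≤ (C4 * ℓ ^ A4) ^ 3 * (C1 * ‖LSeries (lbf χ.χ) ((x : ℂ) + (t : ℂ) * Complex.I)‖) ^ 4 *
            ((C3 * 2 ^ A3) * ℓ ^ A3 * (2 * (c0 * C1 * ℓ ^ a0) * (C1 * 2 ^ A1 * ℓ ^ A1))) := by
            gcongr
        _ = _ := by
            rw [hC5, hA5]
            ring
    have hd : ∀ x : ℝ, 1 < x → x ≤ 2 →
        ‖LSeries (pw 1 (lbf χ.χ)) ((x : ℂ) + (t : ℂ) * Complex.I)‖ ≤ C1 * ℓ ^ A1 := by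
      intro x hx hx2
      have h1 := hU ((x : ℂ) + (t : ℂ) * Complex.I) (by simpa using hx) (by simpa using hx2)
      have e : ((x : ℂ) + (t : ℂ) * Complex.I).im = t := by simp
      rw [e, ← hℓ] at h1
      exact h1
    have h1 := low_abs 3 hC51 hC1 hℓ1 (χ.χ : Ideal (𝓞 E) → ℂ) (map_zero χ.χ) hχb hlow hd σ hs hs2
    rw [← hC6] at h1
    refine h1.trans (mul_le_mul_of_nonneg_right ?_ (norm_nonneg _))
    refine mul_le_mul (by linarith) (pow_le_pow_right₀ hℓ1 (by omega)) (by positivity) (by linarith)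

/-- the lower bound for all nontrivial characters -/
theorem lor_all {k b : ℕ} (hSt : Stg k b K) {c0 : ℝ} (hc0 : 1 ≤ c0) (a0 : ℕ) : ∃ (C : ℝ) (A : ℕ), 1 ≤ C ∧
    ∀ (G : Type) [Group G] [Fintype G] (φ : Gal(QBar/K) →* G) (D : Subgroup G) (B : Finset (Pl K)),
    Sd (2 ^ k) b φ D B → ∀ W : ℝ, Real.log (nr B) ≤ W → IsPGroup 2 G → ∀ Q : DP K QBar,
    (∀ μ : G → ZMod (2 ^ k), Lc ⊤ μ → (∀ y, μ y + μ y = 0) → (∃ y, μ y ≠ 0) → (∀ y ∈ D, μ y = 0) →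
      Sgm c0 a0 W B φ Q ⊤ μ) →
    ∀ (H : Subgroup G) (ψ : G → ZMod (2 ^ k)), D ≤ H → Lc H ψ → (∀ y ∈ D, ψ y = 0) →
      (∃ y ∈ H, ψ y ≠ 0) → ∃ (E : IntermediateField K QBar) (_ : NumberField E) (χ : RC E (md (mB (2 ^ k) B) E)),
        Lt (2 ^ k) b C φ B H ψ E χ ∧ Lo C A (1 + W) χ := by
  obtain ⟨C1, A1, hC1, hT⟩ := tru hSt
  obtain ⟨C2, A2, hC2, hdsc⟩ := dsc hSt hc0 a0
  obtain ⟨C3, A3, hC3, hlor⟩ := lor hSt hC2 A2 hC1 A1
  have hl : ∀ n : ℕ, ∃ (C : ℝ) (B : ℕ), 1 ≤ C ∧ (0 < n → ∀ (L : Type) [Field L] [NumberField L], TC L n →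
    ∀ 𝔣 : Ideal (𝓞 L), 𝔣 ≠ ⊥ → ∀ χ : RC L 𝔣, Sq2 χ → ∀ W : ℝ, 0 ≤ W → Lo C B W χ) := by
    intro n
    rcases Nat.eq_zero_or_pos n with hn | hn
    · exact ⟨1, 0, le_rfl, fun h => absurd h (by omega)⟩
    · obtain ⟨C, B, hC, h⟩ := lo_sq2 n hn
      exact ⟨C, B, hC, fun _ => h⟩
  choose U V hU1 hUV using hl
  obtain ⟨N, hN⟩ : ∃ N : ℕ, N = Module.finrank ℚ K * b := ⟨_, rfl⟩
  obtain ⟨U0, hU0⟩ : ∃ U0 : ℝ, U0 = ∑ n ∈ Finset.range (N + 1), U n := ⟨_, rfl⟩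
  obtain ⟨V0, hV0⟩ : ∃ V0 : ℕ, V0 = ∑ n ∈ Finset.range (N + 1), V n := ⟨_, rfl⟩
  have hUn : ∀ n ≤ N, U n ≤ U0 := by
    intro n hn
    rw [hU0]
    exact Finset.single_le_sum (f := U) (fun i _ => by linarith [hU1 i]) (Finset.mem_range.2 (by omega))
  have hVn : ∀ n ≤ N, V n ≤ V0 := by
    intro n hn
    rw [hV0]
    exact Finset.single_le_sum (f := V) (fun _ _ => Nat.zero_le _) (Finset.mem_range.2 (by omega))
  have hU01 : 1 ≤ U0 := (hU1 0).trans (hUn 0 (Nat.zero_le _))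
  refine ⟨C1 + C3 + U0, A3 + V0, by linarith, ?_⟩
  intro G _ _ φ D B hS W hW hG Q hμ H ψ hD hψ hD0 hne
  obtain ⟨E, hnf, χ, hL, hU, -⟩ := hT G φ D B hS W hW H ψ hψ hD hD0 hne
  have hB0 : 0 ≤ Real.log (nr B) := Real.log_nonneg (nr_one B)
  have hW0 : 0 ≤ W := hB0.trans hW
  have hle : C1 ≤ C1 + C3 + U0 := by linarith
  refine ⟨E, hnf, χ, ⟨hL.deg, hL.tc, hL.ne, hL.cond.trans ?_, hL.non, hL.non2, hL.zero, hL.d1, ?_, ?_⟩, ?_⟩
  · exact mul_le_mul_of_nonneg_right hle (by linarith)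
  · exact fun Q s hs hs2 => (hL.up Q s hs hs2).trans (mul_le_mul_of_nonneg_right hle (Real.exp_pos _).le)
  · exact fun Q s hs hs2 => (hL.lo Q s hs hs2).trans (mul_le_mul_of_nonneg_right hle (norm_nonneg _))
  by_cases h2 : ∃ y ∈ H, ψ y + ψ y ≠ 0
  · have hEN : Module.finrank ℚ E ≤ N := by
      rw [hN, ← Module.finrank_mul_finrank ℚ K E]
      exact Nat.mul_le_mul_left _ hL.deg
    have h3 := hUV (Module.finrank ℚ E) Module.finrank_pos E hL.tc _ hL.ne χ (hL.non2 h2) (1 + W) (by linarith)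
    exact h3.mono hL.ne (by linarith [hU1 (Module.finrank ℚ E)]) (by linarith [hUn _ hEN])
      ((hVn _ hEN).trans (Nat.le_add_left _ _)) (by linarith) le_rfl
  · push Not at h2
    refine ⟨hL.non hne, fun s hs hs2 => ?_⟩
    have h3 := hlor G φ D B hS W hW hG Q H ψ hD h2 hne (hdsc G φ D B hS W hW hG Q hμ H ψ hD hψ hD0 h2 hne) E χ hL
      (fun s hs hs2 => (hU s hs hs2).2) s hs hs2
    refine h3.trans (mul_le_mul_of_nonneg_right ?_ (norm_nonneg _))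
    have h4 := ly_one ((lnr B).trans hW) s.im
    have h5 : ly W s.im ≤ el E (md (mB (2 ^ k) B) E) s.im + (1 + W) := by
      obtain ⟨g1, g2, g3, g4⟩ := el_two _ hL.ne s.im
      unfold ly el
      linarith
    calc C3 * ly W s.im ^ A3 ≤ (C1 + C3 + U0) * (el E (md (mB (2 ^ k) B) E) s.im + (1 + W)) ^ A3 := by
          refine mul_le_mul (by linarith) (pow_le_pow_left₀ (by linarith) h5 _) (by positivity) (by linarith)
      _ ≤ _ := by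
          refine mul_le_mul_of_nonneg_left (pow_le_pow_right₀ (by linarith) (Nat.le_add_right _ _)) (by linarith)

end H93.G2
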