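import Pool.Agent.H93.G2.Rqd
import Pool.Agent.H93.G2.Chw
import Pool.Agent.H62.SG.Nv

/-!
# H93 G2 NVK: every nonzero real character has a prime sum bounded below near the point `1`

`nvk_p`: the prime sum of a function with the values of a Kummer character (Kummer theory, density of the split primes of a quadratic extension), no series needed.
`nvK`: for the function `Fm` of a nonzero real character `μ` with values in `ZMod (2 ^ k)`; `lam σ = 0` if `μ σ = 0`, else `1`.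
-/

set_option autoImplicit false

open scoped NumberField Pointwise Classical
open IsDedekindDomain H63.MA NumberField H36.QA H57.LI H57.LC H67.SX H38.ML H57.SL H57.AN H57.GP H57.GP.Q H57.GP.Q.E H1.PN H57.RQ

noncomputable section

namespace H93.G2

section one

variable {K : Type} [Field K] [NumberField K]

/-- the values are those of a Kummer character, up to a thin set -/
theorem nvk_k (δ : Kˣ) (hδ : ¬ IsPow 2 δ) (F : Pl K → ℂ) (hF : ∀ v, ‖F v‖ ≤ 1)
    (T : Set (Pl K)) (hT : ∃ C : ℝ, ∀ s : ℝ, 1 < s → PZ T s ≤ C)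
    (h : ∀ v ∉ T, ¬ Above 2 v ∧ F v = if Spl 2 (-1 : K) v δ then 1 else -1) :
    ∃ C : ℝ, ∀ s : ℝ, 1 < s → s ≤ 2 → -C ≤ PT F s := by
  obtain ⟨C1, hC1⟩ := pz_all K
  obtain ⟨C2, hC2⟩ := pz_spl Nat.prime_two H62.SG.nv_prim hδ
  obtain ⟨C3, hC3⟩ := hT
  refine ⟨C1 + C2 + 2 * C3, fun s hs hs2 => ?_⟩
  obtain ⟨S, hS⟩ : ∃ S : Set (Pl K), S = {v : Pl K | ¬ Above 2 v ∧ Spl 2 (-1 : K) v δ} := ⟨_, rfl⟩
  have h1 := hC1 s hs hs2
  have h2 := hC2 s hs hs2
  have h3 := hC3 s hs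
  rw [← hS] at h2
  have hps := pz_summable K hs
  have hsum : ∀ U : Set (Pl K), Summable fun v : Pl K => U.indicator (fun v => (nm v : ℝ) ^ (-s)) v :=
    fun U => hps.indicator U
  have hnn : ∀ v : Pl K, 0 ≤ (nm v : ℝ) ^ (-s) := fun v => Real.rpow_nonneg (Nat.cast_nonneg _) _
  have hre : ∀ v : Pl K, |(F v).re| ≤ 1 := fun v => (Complex.abs_re_le_norm _).trans (hF _)
  have hχs : Summable fun v : Pl K => (F v).re * (nm v : ℝ) ^ (-s) := by
    refine Summable.of_norm_bounded hps fun v => ?_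
    rw [norm_mul, Real.norm_eq_abs, Real.norm_of_nonneg (hnn v)]
    calc |(F v).re| * (nm v : ℝ) ^ (-s) ≤ 1 * (nm v : ℝ) ^ (-s) :=
          mul_le_mul_of_nonneg_right (hre v) (hnn v)
      _ = _ := one_mul _
  have hPT : PT F s = ∑' v : Pl K, (F v).re * (nm v : ℝ) ^ (-s) := by
    unfold PT
    refine tsum_congr fun v => ?_
    have h0 : ((nm v : ℂ)) ^ (-(s : ℂ)) = (((nm v : ℝ) ^ (-s) : ℝ) : ℂ) := by
      rw [Complex.ofReal_cpow (Nat.cast_nonneg _), Complex.ofReal_natCast, Complex.ofReal_neg]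
    rw [h0, Complex.re_mul_ofReal]
  rw [hPT]
  have key : 2 * PZ S s - PZ (Set.univ : Set (Pl K)) s - 2 * PZ T s ≤ ∑' v : Pl K, (F v).re * (nm v : ℝ) ^ (-s) := by
    unfold PZ
    rw [← tsum_mul_left, ← tsum_mul_left, ← (((hsum S).mul_left 2).tsum_sub (hsum Set.univ)),
      ← ((((hsum S).mul_left 2).sub (hsum Set.univ)).tsum_sub ((hsum T).mul_left 2))]
    refine Summable.tsum_le_tsum (fun v => ?_)
      ((((hsum S).mul_left 2).sub (hsum Set.univ)).sub ((hsum T).mul_left 2)) hχs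
    have hv := hnn v
    have hr := abs_le.1 (hre v)
    by_cases hvT : v ∈ T
    · rw [Set.indicator_of_mem hvT, Set.indicator_of_mem (Set.mem_univ v)]
      by_cases hvS : v ∈ S
      · rw [Set.indicator_of_mem hvS]
        nlinarith [hr.1]
      · rw [Set.indicator_of_notMem hvS]
        nlinarith [hr.1]
    · rw [Set.indicator_of_notMem hvT, Set.indicator_of_mem (Set.mem_univ v)]
      obtain ⟨h4, h5⟩ := h v hvT
      by_cases hvS : v ∈ S
      · rw [Set.indicator_of_mem hvS]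
        rw [hS] at hvS
        rw [h5, if_pos hvS.2, Complex.one_re]
        linarith
      · rw [Set.indicator_of_notMem hvS]
        rw [hS] at hvS
        have h6 : ¬ Spl 2 (-1 : K) v δ := fun h7 => hvS ⟨h4, h7⟩
        rw [h5, if_neg h6, Complex.neg_re, Complex.one_re]
        linarith
  have h4 := abs_le.1 h1
  have h5 := abs_le.1 h2
  push_cast at h5
  linarith [h4.1, h4.2, h5.1, h5.2]

end one

theorem nvk_p {K : Type} [Field K] [NumberField K] {Ω : Type} [Field Ω] [Algebra K Ω] [IsAlgClosure K Ω]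
    (lam : Gal(Ω/K) → ZMod 2) (hl : ∀ σ τ, lam (σ * τ) = lam σ + lam τ)
    (hft : ∃ M : IntermediateField K Ω, FiniteDimensional K M ∧ ∀ σ ∈ M.fixingSubgroup, lam σ = 0)
    (hne : ∃ σ, lam σ ≠ 0) (Q : DP K Ω) (F : Pl K → ℂ) (hF : ∀ v, ‖F v‖ ≤ 1)
    (E : Finset (Pl K))
    (h : ∀ v ∉ E, ¬ Above 2 v → (nm v).Prime → F v = ep 2 (lam (fr Q v))) :
    ∃ C : ℝ, ∀ s : ℝ, 1 < s → s ≤ 2 → -C ≤ PT F s := by
  have hz : IsPrimitiveRoot (-1 : K) (2 ^ 1) := by
    rw [pow_one]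
    exact H62.SG.nv_prim
  obtain ⟨δ, β, hβ, hσ⟩ := kmk (k := 1) Nat.prime_two hz lam hl hft
  have hβ0 : β ≠ 0 := by
    rintro rfl
    rw [zero_pow (by norm_num)] at hβ
    exact δ.ne_zero ((map_eq_zero _).1 hβ.symm)
  have hδ : ¬ IsPow 2 δ := by
    rintro ⟨y, hy⟩
    obtain ⟨σ, hs⟩ := hne
    have h1 : β ^ 2 = (algebraMap K Ω (y : K)) ^ 2 := by
      rw [← map_pow, ← Units.val_pow_eq_pow_val, hy]
      rw [pow_one] at hβ
      exact hβ
    have h2 : σ β = β := by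
      rcases sq_eq_sq_iff_eq_or_eq_neg.1 h1 with h3 | h3
      · rw [h3, AlgEquiv.commutes]
      · rw [h3, map_neg, AlgEquiv.commutes]
    have h3 := hσ σ
    rw [h2, map_neg, map_one] at h3
    have h4 : (lam σ).val = 1 := by
      have h5 := ZMod.val_lt (lam σ)
      have h6 : (lam σ).val ≠ 0 := by
        rw [Ne, ZMod.val_eq_zero]
        exact hs
      have h7 : (lam σ).val < 2 := h5
      omega
    rw [h4, pow_one, neg_one_mul] at h3
    have : CharZero Ω := charZero_of_injective_algebraMap (algebraMap K Ω).injective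
    exact hβ0 (self_eq_neg.1 h3)
  refine nvk_k δ hδ F hF ({v : Pl K | ¬ (nm v).Prime} ∪ ((E : Set (Pl K)) ∪ ({v | Above 2 v} ∪ {v | ord v δ ≠ 0})))
    ?_ ?_
  · obtain ⟨C1, h1⟩ := pz_deg K
    obtain ⟨C2, h2⟩ := pz_finite (S := (E : Set (Pl K)) ∪ ({v | Above 2 v} ∪ {v | ord v δ ≠ 0}))
      (E.finite_toSet.union ((finite_above two_ne_zero).union (finite_ord δ)))
    refine ⟨C1 + C2, fun s hs => ?_⟩
    exact (pzs_union _ _ hs).trans (add_le_add (h1 s hs) (h2 s hs))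
  · intro v hv
    rw [Set.mem_union, Set.mem_union, Set.mem_union, not_or, not_or, not_or] at hv
    obtain ⟨h1, h2, h3, h4⟩ := hv
    have hp : (nm v).Prime := not_not.1 h1
    have ho : ord v δ = 0 := not_not.1 h4
    have hE : v ∉ E := fun h5 => h2 (Finset.mem_coe.2 h5)
    have ha : ¬ Above 2 v := h3
    refine ⟨ha, ?_⟩
    rw [h v hE ha hp]
    obtain ⟨π, hπ⟩ := exists_unif v
    have h5 := kmk_fr (k := 1) Nat.prime_two hz hβ hσ ha (by rw [ho]; exact dvd_zero _) hπ (Q.prime v)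
      (Q.under v) (F := fr Q v) (fr_spec Q v)
    rw [ho, zpow_zero, inv_one, mul_one] at h5
    have h6 : lam (fr Q v) = lg 2 (-1 : K) v δ := by
      exact h5
    rw [h6]
    have h7 : Spl 2 (-1 : K) v δ ↔ lg 2 (-1 : K) v δ = 0 := by
      constructor
      · intro hh
        have h8 := hh π
        rw [B_unit Nat.prime_two H62.SG.nv_prim ha ho, hπ, Int.cast_one, one_mul] at h8
        exact h8
      · intro hh x
        rw [B_unit Nat.prime_two H62.SG.nv_prim ha ho, hh, mul_zero]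
    by_cases h8 : Spl 2 (-1 : K) v δ
    · rw [if_pos h8, h7.1 h8]
      unfold ep
      simp
    · rw [if_neg h8]
      have h9 : lg 2 (-1 : K) v δ ≠ 0 := fun hh => h8 (h7.2 hh)
      have h10 : (lg 2 (-1 : K) v δ).val = 1 := by
        have h5 := ZMod.val_lt (lg 2 (-1 : K) v δ)
        have h6 : (lg 2 (-1 : K) v δ).val ≠ 0 := by
          rw [Ne, ZMod.val_eq_zero]
          exact h9
        omega
      unfold ep
      rw [h10, Nat.cast_one]
      have h11 : 2 * (Real.pi : ℂ) * Complex.I * (1 / ((2 : ℕ) : ℂ)) = Real.pi * Complex.I := by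
        push_cast
        ring
      rw [h11, Complex.exp_pi_mul_I]

private theorem nvk_ep2 : ep 2 (1 : ZMod 2) = -1 := by
  unfold ep
  have h10 : (1 : ZMod 2).val = 1 := rfl
  rw [h10, Nat.cast_one]
  have h11 : 2 * (Real.pi : ℂ) * Complex.I * (1 / ((2 : ℕ) : ℂ)) = Real.pi * Complex.I := by
    push_cast
    ring
  rw [h11, Complex.exp_pi_mul_I]

/-- two elements of order `2` of `ZMod (2 ^ k)` are equal -/
private theorem nvk_two {k : ℕ} {a b : ZMod (2 ^ k)} (ha : a + a = 0) (hb : b + b = 0) (ha0 : a ≠ 0) (hb0 : b ≠ 0) :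
    a = b := by
  have hN : NeZero (2 ^ k) := ⟨pow_ne_zero _ two_ne_zero⟩
  have key : ∀ c : ZMod (2 ^ k), c + c = 0 → c ≠ 0 → 2 * c.val = 2 ^ k := by
    intro c hc hc0
    have h1 : ((2 * c.val : ℕ) : ZMod (2 ^ k)) = 0 := by
      rw [Nat.cast_mul, ZMod.natCast_zmod_val, Nat.cast_two, two_mul, hc]
    obtain ⟨t, ht⟩ := (ZMod.natCast_eq_zero_iff _ _).1 h1
    have h2 : c.val < 2 ^ k := ZMod.val_lt c
    have h3 : c.val ≠ 0 := fun h => hc0 ((ZMod.val_eq_zero c).1 h)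
    have h4 : t = 1 := by
      have h5 : t ≠ 0 := by
        rintro rfl
        omega
      have h6 : t < 2 := by
        by_contra hcon
        have h7 : 2 ^ k * 2 ≤ 2 ^ k * t := Nat.mul_le_mul_left _ (by omega)
        omega
      omega
    rw [h4, mul_one] at ht
    exact ht
  have h1 := key a ha ha0
  have h2 := key b hb hb0
  exact ZMod.val_injective _ (by omega)

variable {K : IntermediateField ℚ QBar} [NumberField K]

/-- every nonzero real character has `exp (PT μ) ≥ c > 0` near `1` -/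
theorem nvK' {k : ℕ} (B : Finset (Pl K)) (μ : Gal(QBar/K) → ZMod (2 ^ k)) (hμ : Rq (2 ^ k) μ B)
    (Q : DP K QBar) : ∃ c : ℝ, 0 < c ∧ ∀ σ : ℝ, 1 < σ → σ ≤ 2 → c ≤ Real.exp (PT (Fm (2 ^ k) B Q μ) σ) := by
  obtain ⟨σ₀, hσ₀⟩ := hμ.ne
  obtain ⟨j, rfl⟩ : ∃ j, k = j + 1 := by
    rcases k with _ | j
    · exact absurd (Subsingleton.elim (α := ZMod 1) _ _) hσ₀
    · exact ⟨j, rfl⟩
  have hp : PQ 2 (2 ^ (j + 1)) := pq_pow Nat.prime_two j
  obtain ⟨lam, hlam⟩ : ∃ lam : Gal(QBar/K) → ZMod 2, ∀ σ, lam σ = if μ σ = 0 then 0 else 1 := ⟨_, fun _ => rfl⟩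
  have g1 : ∀ σ τ, lam (σ * τ) = lam σ + lam τ := by
    intro σ τ
    rw [hlam, hlam, hlam, hμ.mul]
    by_cases h1 : μ σ = 0
    · rw [h1, zero_add, if_pos rfl, zero_add]
    · by_cases h2 : μ τ = 0
      · rw [h2, add_zero, if_pos rfl, add_zero]
      · have h3 := nvk_two (hμ.real σ) (hμ.real τ) h1 h2
        rw [if_neg h1, if_neg h2, if_pos (by rw [h3, hμ.real τ])]
        rfl
  have g2 : ∃ M : IntermediateField K QBar, FiniteDimensional K M ∧ ∀ σ ∈ M.fixingSubgroup, lam σ = 0 := by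
    obtain ⟨M, hM, h⟩ := hμ.ft
    exact ⟨M, hM, fun σ hσ => by rw [hlam, if_pos (h σ hσ)]⟩
  have g3 : lam σ₀ ≠ 0 := by
    rw [hlam, if_neg hσ₀]
    exact one_ne_zero
  obtain ⟨C, hC⟩ := nvk_p lam g1 g2 ⟨σ₀, g3⟩ Q (Fm (2 ^ (j + 1)) B Q μ) (fm_bd B Q μ) B (by
    intro v hv hv2 hvp
    unfold Fm
    rw [if_pos ⟨hv, fun h => hv2 ((pq_above hp v).1 h), hvp⟩, hlam]
    by_cases h1 : μ (fr Q v) = 0
    · rw [if_pos h1, h1, ep_zero, ep_zero]
    · rw [if_neg h1, nvk_ep2]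
      exact ep_neg1 hp (hμ.real _) h1)
  exact ⟨Real.exp (-C), Real.exp_pos _, fun σ h1 h2 => Real.exp_le_exp.2 (hC σ h1 h2)⟩

theorem nvK {k b : ℕ} (_hSt : Stg k b K) (B : Finset (Pl K)) (μ : Gal(QBar/K) → ZMod (2 ^ k)) (hμ : Rq (2 ^ k) μ B)
    (Q : DP K QBar) : ∃ c : ℝ, 0 < c ∧ ∀ σ : ℝ, 1 < σ → σ ≤ 2 → c ≤ Real.exp (PT (Fm (2 ^ k) B Q μ) σ) :=
  nvK' B μ hμ Q

end H93.G2
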