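import Pool.Agent.H93.G2.Trw
import Pool.Agent.H93.G2.Nvk

/-!
# H93 G2 SGL: Siegel's theorem for the real characters of the Galois group of `K`
-/

set_option autoImplicit false

open scoped NumberField Pointwise Classical
open IsDedekindDomain H63.MA NumberField H36.QA H57.LI H57.LC H67.SX H38.ML H57.SL H57.AN H57.GP H57.GP.Q H57.GP.Q.E H1.PN

noncomputable section

namespace H93.G2

variable {K : IntermediateField ℚ QBar} [NumberField K]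

/-- Siegel's theorem -/
theorem sgl {k b : ℕ} (hSt : Stg k b K) {ε : ℝ} (hε : 0 < ε) : ∃ c : ℝ, 0 < c ∧ ∀ (B : Finset (Pl K))
    (μ : Gal(QBar/K) → ZMod (2 ^ k)), Rq (2 ^ k) μ B → ∀ (Q : DP K QBar) (σ : ℝ), 1 < σ → σ ≤ 2 →
      c * nr B ^ (-ε) ≤ Real.exp (PT (Fm (2 ^ k) B Q μ) σ) := by
  obtain ⟨ζ, hζ⟩ := hSt.root
  obtain ⟨hnf, C, hC, htc, htr⟩ := trw hSt.pq hSt.mq hζ
  have hn : 0 < Module.finrank ℚ (⊥ : IntermediateField K QBar) := Module.finrank_pos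
  obtain ⟨c, hc, hs⟩ := H1.P2.sieg hn htc hε
  obtain ⟨q0, hq0⟩ : ∃ q0 : ℝ, q0 = (((2 ^ k : ℕ) : ℝ) ^ 3) ^ Module.finrank ℚ K := ⟨_, rfl⟩
  have hq1 : 0 < q0 := by
    rw [hq0]
    positivity
  have hC0 : 0 < C := by linarith
  have hqe : 0 < q0 ^ (-ε) := Real.rpow_pos_of_pos hq1 _
  refine ⟨c * q0 ^ (-ε) / C, by positivity, ?_⟩
  intro B μ hμ Q σ hσ hσ2
  obtain ⟨χ, hnon, hrl, hlu⟩ := htr B μ hμ
  have hne : md (mB (2 ^ k) B) (⊥ : IntermediateField K QBar) ≠ ⊥ := by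
    unfold md
    rw [Ne, Ideal.map_eq_bot_iff_of_injective (FaithfulSMul.algebraMap_injective (𝓞 K) (𝓞 (⊥ : IntermediateField K QBar)))]
    exact mB_ne hSt.pq B
  have hNv : H1.P2.Nv χ.χ := by
    obtain ⟨c', hc', h⟩ := nvK hSt B μ hμ Q
    refine ⟨c' / C, by positivity, fun σ hσ hσ2 => ?_⟩
    rw [div_le_iff₀ hC0, mul_comm]
    exact (h σ hσ hσ2).trans (hlu Q σ hσ hσ2).1
  have h1 := hs _ hne χ hnon hrl hNv σ hσ hσ2
  have h2 : (Ideal.absNorm (md (mB (2 ^ k) B) (⊥ : IntermediateField K QBar)) : ℝ) = q0 * nr B := by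
    rw [mB_norm, IntermediateField.finrank_bot, pow_one, hq0]
  have hB0 : 0 < nr B := by linarith [nr_one B]
  rw [h2, Real.mul_rpow hq1.le hB0.le] at h1
  have h3 := h1.trans (hlu Q σ hσ hσ2).2
  rw [div_mul_eq_mul_div, div_le_iff₀ hC0]
  calc c * q0 ^ (-ε) * nr B ^ (-ε) = c * (q0 ^ (-ε) * nr B ^ (-ε)) := by ring
    _ ≤ _ := h3
    _ = _ := by ring

end H93.G2
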