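import Pool.Agent.H93.G2.Pag
import Pool.Agent.H93.G2.Sgl

/-!
# H93 G2 EXC: the exceptional set

* `re p μ`: the set of tame ramified primes of a character `μ`.
* `exc`: constants `c, a`; for every `D` and every large `Z` a set `e` with `nr e ≥ (log Z) ^ D` such that `exp (PT μ) ≥ 1 / (c ly^a)` for all real
  characters `μ` unramified outside `B`, `nr B ≤ Z`, if `e` is not contained in `B`.
-/

set_option autoImplicit false

open scoped NumberField Pointwise Classical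
open IsDedekindDomain H63.MA NumberField H36.QA H57.LI H57.LC H67.SX H38.ML H57.SL H57.AN H57.GP H57.GP.Q H57.GP.Q.E H1.PN

noncomputable section

namespace H93.G2

variable {K : IntermediateField ℚ QBar} [NumberField K]

/-- the tame ramified primes -/
def Rm (p : ℕ) (μ : Gal(QBar/K) → ZMod p) : Set (Pl K) :=
  {l | ¬ Above p l ∧ ∃ P : Ideal (𝓞 QBar), P.IsPrime ∧ P.under (𝓞 K) = l.asIdeal ∧
    ∃ τ ∈ P.inertia Gal(QBar/K), μ τ ≠ 0}

def re (p : ℕ) (μ : Gal(QBar/K) → ZMod p) : Finset (Pl K) :=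
  if h : (Rm p μ).Finite then h.toFinset else ∅

theorem Rq.rm {p : ℕ} {μ : Gal(QBar/K) → ZMod p} {B : Finset (Pl K)} (h : Rq p μ B) : Rm p μ ⊆ (B : Set (Pl K)) := by
  rintro l ⟨hl, P, hP, hPl, τ, hτ, hne⟩
  by_contra hlB
  exact hne (h.unr l hl (fun h' => hlB (Finset.mem_coe.2 h')) P hP hPl τ hτ)

theorem Rq.mem {p : ℕ} {μ : Gal(QBar/K) → ZMod p} {B : Finset (Pl K)} (h : Rq p μ B) (l : Pl K) :
    l ∈ re p μ ↔ l ∈ Rm p μ := by
  have hf : (Rm p μ).Finite := B.finite_toSet.subset h.rm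
  unfold re
  rw [dif_pos hf, Set.Finite.mem_toFinset]

theorem Rq.sub {p : ℕ} {μ : Gal(QBar/K) → ZMod p} {B : Finset (Pl K)} (h : Rq p μ B) : re p μ ⊆ B := by
  intro l hl
  exact Finset.mem_coe.1 (h.rm ((h.mem l).1 hl))

theorem Rq.self {p : ℕ} {μ : Gal(QBar/K) → ZMod p} {B : Finset (Pl K)} (h : Rq p μ B) : Rq p μ (re p μ) := by
  refine ⟨h.mul, h.ft, h.real, h.ne, fun l hl hlB P hP hPl τ hτ => ?_⟩
  by_contra hne
  exact hlB ((h.mem l).2 ⟨hl, P, hP, hPl, τ, hτ, hne⟩)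

theorem Rq.up {p : ℕ} {μ : Gal(QBar/K) → ZMod p} {B B' : Finset (Pl K)} (h : Rq p μ B) (hB : B ⊆ B') : Rq p μ B' :=
  ⟨h.mul, h.ft, h.real, h.ne, fun l hl hlB P hP hPl τ hτ => h.unr l hl (fun h' => hlB (hB h')) P hP hPl τ hτ⟩

theorem nr_mono {B B' : Finset (Pl K)} (h : B ⊆ B') : nr B ≤ nr B' := by
  have h1 : nr B' = nr B * nr (B' \ B) := by
    unfold nr
    rw [mul_comm]
    exact (Finset.prod_sdiff h).symm
  rw [h1]
  exact le_mul_of_one_le_right (by linarith [nr_one B]) (nr_one _)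

theorem nr_union (B B' : Finset (Pl K)) : nr (B ∪ B') ≤ nr B * nr B' := by
  have h1 : nr (B ∪ B') * nr (B ∩ B') = nr B * nr B' := by
    unfold nr
    exact Finset.prod_union_inter
  rw [← h1]
  exact le_mul_of_one_le_right (by linarith [nr_one (B ∪ B')]) (nr_one _)

/-- the prime sum does not depend much on the set of excluded primes -/
theorem fm_cmp {p : ℕ} {B B' : Finset (Pl K)} (hB : B ⊆ B') (Q : DP K QBar) (μ : Gal(QBar/K) → ZMod p) {σ : ℝ}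
    (hσ : 1 < σ) : |PT (Fm p B Q μ) σ - PT (Fm p B' Q μ) σ| ≤ ∑ w ∈ B', (1 : ℝ) / nm w := by
  have hs : 1 < (σ : ℂ).re := by simpa using hσ
  obtain ⟨D, hD⟩ : ∃ D : Pl K → ℂ, D = fun w => if w ∈ B' then Fm p B Q μ w else 0 := ⟨_, rfl⟩
  have hDb : ∀ w, ‖D w‖ ≤ 1 := by
    intro w
    rw [hD]
    show ‖if w ∈ B' then Fm p B Q μ w else 0‖ ≤ 1
    split_ifs
    · exact fm_bd B Q μ w
    · rw [norm_zero]
      exact zero_le_one
  have h1 : PT (Fm p B Q μ) σ = PT (Fm p B' Q μ) σ + PT D σ := by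
    rw [← pt_add (fm_bd B' Q μ) hDb hs]
    congr 1
    funext w
    rw [hD]
    show Fm p B Q μ w = Fm p B' Q μ w + if w ∈ B' then Fm p B Q μ w else 0
    by_cases hw : w ∈ B'
    · have h2 : Fm p B' Q μ w = 0 := by
        unfold Fm
        rw [if_neg (fun h => h.1 hw)]
      rw [h2, zero_add, if_pos hw]
    · rw [if_neg hw, add_zero]
      unfold Fm
      by_cases hw2 : ¬ Above p w ∧ (nm w).Prime
      · rw [if_pos ⟨fun h => hw (hB h), hw2⟩, if_pos ⟨hw, hw2⟩]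
      · rw [if_neg (fun h => hw2 h.2), if_neg (fun h => hw2 h.2)]
  have h2 : PT D σ = ∑ w ∈ B', (D w * (nm w : ℂ) ^ (-(σ : ℂ))).re := by
    unfold PT
    apply tsum_eq_sum
    intro w hw
    have : D w = 0 := by
      rw [hD]
      exact if_neg hw
    rw [this, zero_mul, Complex.zero_re]
  rw [h1, add_sub_cancel_left, h2]
  refine (Finset.abs_sum_le_sum_abs _ _).trans (Finset.sum_le_sum fun w _ => ?_)
  refine (term_le hDb (σ : ℂ) w).trans ?_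
  have h3 := nm_pos w
  have h4 : (1 : ℝ) ≤ nm w := by exact_mod_cast h3
  rw [one_mul, one_div, ← Real.rpow_neg_one]
  exact Real.rpow_le_rpow_of_exponent_le h4 (by linarith)

theorem fm_exp (n : ℕ) : ∃ C : ℝ, 1 ≤ C ∧ ∀ (K : IntermediateField ℚ QBar) [NumberField K], Module.finrank ℚ K = n →
    ∀ (p : ℕ) (B B' : Finset (Pl K)), B ⊆ B' → ∀ (Q : DP K QBar) (μ : Gal(QBar/K) → ZMod p) (σ : ℝ), 1 < σ →
      Real.exp (PT (Fm p B Q μ) σ) ≤ C * (1 + Real.log (nr B')) ^ n * Real.exp (PT (Fm p B' Q μ) σ) ∧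
      Real.exp (PT (Fm p B' Q μ) σ) ≤ C * (1 + Real.log (nr B')) ^ n * Real.exp (PT (Fm p B Q μ) σ) := by
  obtain ⟨C, hC, h⟩ := hbd n
  refine ⟨C, hC, fun K _ hn p B B' hB Q μ σ hσ => ?_⟩
  have h1 := abs_le.1 (fm_cmp hB Q μ hσ)
  have h2 := h K hn B'
  constructor
  · calc Real.exp (PT (Fm p B Q μ) σ) ≤ Real.exp (∑ w ∈ B', (1 : ℝ) / nm w + PT (Fm p B' Q μ) σ) :=
          Real.exp_le_exp.2 (by linarith [h1.2])
      _ = Real.exp (∑ w ∈ B', (1 : ℝ) / nm w) * Real.exp (PT (Fm p B' Q μ) σ) := Real.exp_add _ _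
      _ ≤ _ := mul_le_mul_of_nonneg_right h2 (Real.exp_pos _).le
  · calc Real.exp (PT (Fm p B' Q μ) σ) ≤ Real.exp (∑ w ∈ B', (1 : ℝ) / nm w + PT (Fm p B Q μ) σ) :=
          Real.exp_le_exp.2 (by linarith [h1.1])
      _ = Real.exp (∑ w ∈ B', (1 : ℝ) / nm w) * Real.exp (PT (Fm p B Q μ) σ) := Real.exp_add _ _
      _ ≤ _ := mul_le_mul_of_nonneg_right h2 (Real.exp_pos _).le

/-- independence of the choice of the primes of `QBar` -/
theorem fm_q {ℓ p : ℕ} (hp : PQ ℓ p) (h2 : PQ 2 p) (hM : MQ ℓ p K) {ζ : K} (hζ : IsPrimitiveRoot ζ p) {B : Finset (Pl K)}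
    {μ : Gal(QBar/K) → ZMod p} (hμ : Rq p μ B) (Q Q' : DP K QBar) : Fm p B Q μ = Fm p B Q' μ := by
  obtain ⟨G, _, _, φ, m, n, hS, -, hm, -, hmμ, -, -, -⟩ := rq_sd hp hμ hμ
  obtain ⟨C, -, h⟩ := trb hp hM hζ (p * p)
  have hm1 : m 1 = 0 := by
    have h1 := hm 1 trivial 1 trivial
    rw [mul_one] at h1
    simpa using h1.symm
  obtain ⟨E, _, χ, hL⟩ := h G φ ⊥ B hS ⊤ m hm bot_le (fun y hy => by rw [Subgroup.mem_bot.1 hy, hm1])
  funext w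
  unfold Fm
  split_ifs with hw
  · have h1 := hL.d1 Q w hw.2.1 hw.1 hw.2.2
    have h3 := hL.d1 Q' w hw.2.1 hw.1 hw.2.2
    rw [h1, mj_top h2 hm, mj_top h2 hm, hmμ, hmμ] at h3
    exact h3
  · rfl

/-- sets of large norm -/
theorem nr_large (X : ℝ) : ∃ e : Finset (Pl K), X ≤ nr e := by
  obtain ⟨v, hv⟩ := lin_infinite (PB K X)
  rw [mem_PB, not_le] at hv
  refine ⟨{v}, ?_⟩
  unfold nr
  rw [Finset.prod_singleton]
  exact hv.le

private theorem exc_dp (K : IntermediateField ℚ QBar) [NumberField K] : Nonempty (DP K QBar) := by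
  have h : ∀ v : Pl K, ∃ P : Ideal (𝓞 QBar), P.IsPrime ∧ P.under (𝓞 K) = v.asIdeal := fun v =>
    gloc_over K QBar v.asIdeal v.isPrime
  choose P h1 h2 using h
  exact ⟨⟨P, h1, h2⟩⟩

/-- the exceptional set -/
theorem exc {k b : ℕ} (hSt : Stg k b K) : ∃ (c : ℝ) (a : ℕ), 1 ≤ c ∧ ∀ D : ℕ, ∃ Z₀ : ℝ, 3 ≤ Z₀ ∧ ∀ Z : ℝ, Z₀ ≤ Z →
    ∃ e : Finset (Pl K), Real.log Z ^ D ≤ nr e ∧ ∀ (B : Finset (Pl K)) (μ : Gal(QBar/K) → ZMod (2 ^ k)), Rq (2 ^ k) μ B →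
      nr B ≤ Z → ¬ e ⊆ B → ∀ (Q : DP K QBar) (σ : ℝ), 1 < σ → σ ≤ 2 →
        1 ≤ c * ly (Real.log Z) 0 ^ a * Real.exp (PT (Fm (2 ^ k) B Q μ) σ) := by
  obtain ⟨ζ, hζ⟩ := hSt.root
  have hSt' : Stg k (2 ^ k * 2 ^ k) K := ⟨hSt.two, hSt.root, hSt.mq⟩
  obtain ⟨c0, a0, hc0, hpag⟩ := pag hSt'
  obtain ⟨n, hn⟩ : ∃ n : ℕ, Module.finrank ℚ K = n := ⟨_, rfl⟩
  obtain ⟨C1, hC1, hexp⟩ := fm_exp n
  obtain ⟨Q0⟩ : Nonempty (DP K QBar) := exc_dp K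
  obtain ⟨c1, hc1⟩ : ∃ c1 : ℝ, c1 = c0 * 2 ^ a0 * (C1 * 2 ^ n) := ⟨_, rfl⟩
  obtain ⟨a1, ha1⟩ : ∃ a1 : ℕ, a1 = a0 + n + 1 := ⟨_, rfl⟩
  have h2n : ∀ m : ℕ, (1 : ℝ) ≤ 2 ^ m := fun m => one_le_pow₀ (by norm_num)
  have hc11 : 1 ≤ c1 := by
    rw [hc1]
    exact one_le_mul_of_one_le_of_one_le (one_le_mul_of_one_le_of_one_le hc0 (h2n _))
      (one_le_mul_of_one_le_of_one_le hC1 (h2n _))
  refine ⟨c1 * C1, a1 + n, one_le_mul_of_one_le_of_one_le hc11 hC1, fun D => ?_⟩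
  obtain ⟨ε, hε⟩ : ∃ ε : ℝ, ε = 1 / (2 * ((D : ℝ) + 1)) := ⟨_, rfl⟩
  have hD0 : (0 : ℝ) < (D : ℝ) + 1 := by positivity
  have hε0 : 0 < ε := by
    rw [hε]
    positivity
  obtain ⟨cs, hcs, hsg⟩ := sgl hSt hε0
  refine ⟨max 3 (Real.exp (2 + (1 / cs) ^ 2)), le_max_left _ _, fun Z hZ => ?_⟩
  have hZ3 : 3 ≤ Z := (le_max_left _ _).trans hZ
  have hZ0 : 0 < Z := by linarith
  obtain ⟨L, hL⟩ : ∃ L : ℝ, L = Real.log Z := ⟨_, rfl⟩
  have hLb : 2 + (1 / cs) ^ 2 ≤ L := by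
    rw [hL, Real.le_log_iff_exp_le hZ0]
    exact (le_max_right _ _).trans hZ
  have hLs : 0 ≤ (1 / cs) ^ 2 := by positivity
  have hL1 : 1 ≤ L := by linarith
  obtain ⟨Λ, hΛ⟩ : ∃ Λ : ℝ, Λ = ly L 0 := ⟨_, rfl⟩
  have hΛL : 1 + L ≤ Λ := by
    rw [hΛ]
    unfold ly
    have : 0 ≤ Real.log (2 + |(0 : ℝ)|) := Real.log_nonneg (by rw [abs_zero]; norm_num)
    linarith
  have hΛ1 : 1 ≤ Λ := by linarith
  rw [← hL, ← hΛ]
  -- exceptional characters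
  obtain ⟨Ex, hEx⟩ : ∃ Ex : (Gal(QBar/K) → ZMod (2 ^ k)) → Prop, Ex = fun μ =>
      (∃ B, Rq (2 ^ k) μ B) ∧ nr (re (2 ^ k) μ) ≤ Z ∧ ∃ σ : ℝ, 1 < σ ∧ σ ≤ 2 ∧
        c1 * Λ ^ a1 * Real.exp (PT (Fm (2 ^ k) (re (2 ^ k) μ) Q0 μ) σ) < 1 := ⟨_, rfl⟩
  -- from not exceptional to the claim
  have hne : ∀ (B : Finset (Pl K)) (μ : Gal(QBar/K) → ZMod (2 ^ k)), Rq (2 ^ k) μ B → nr B ≤ Z → ¬ Ex μ →
      ∀ (Q : DP K QBar) (σ : ℝ), 1 < σ → σ ≤ 2 →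
        1 ≤ c1 * C1 * Λ ^ (a1 + n) * Real.exp (PT (Fm (2 ^ k) B Q μ) σ) := by
    intro B μ hμ hB hx Q σ hσ hσ2
    have h1 : 1 ≤ c1 * Λ ^ a1 * Real.exp (PT (Fm (2 ^ k) (re (2 ^ k) μ) Q0 μ) σ) := by
      by_contra h2
      apply hx
      rw [hEx]
      exact ⟨⟨B, hμ⟩, (nr_mono hμ.sub).trans hB, σ, hσ, hσ2, not_le.1 h2⟩
    have h3 := (hexp K hn (2 ^ k) _ B hμ.sub Q0 μ σ hσ).1
    rw [fm_q hSt.pq hSt.pq hSt.mq hζ hμ Q0 Q] at h3
    have h4 : 1 + Real.log (nr B) ≤ Λ := by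
      have h5 : Real.log (nr B) ≤ L := by
        rw [hL]
        exact Real.log_le_log (by linarith [nr_one B]) hB
      linarith
    have h5 : (1 + Real.log (nr B)) ^ n ≤ Λ ^ n := pow_le_pow_left₀ (by linarith [lnr B]) h4 _
    calc 1 ≤ c1 * Λ ^ a1 * Real.exp (PT (Fm (2 ^ k) (re (2 ^ k) μ) Q0 μ) σ) := h1
      _ ≤ c1 * Λ ^ a1 * (C1 * (1 + Real.log (nr B)) ^ n * Real.exp (PT (Fm (2 ^ k) B Q μ) σ)) :=
          mul_le_mul_of_nonneg_left h3 (by positivity)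
      _ ≤ c1 * Λ ^ a1 * (C1 * Λ ^ n * Real.exp (PT (Fm (2 ^ k) B Q μ) σ)) := by
          refine mul_le_mul_of_nonneg_left (mul_le_mul_of_nonneg_right (mul_le_mul_of_nonneg_left h5 (by linarith))
            (Real.exp_pos _).le) (by positivity)
      _ = _ := by
          rw [pow_add]
          ring
  -- uniqueness
  have huni : ∀ μ ν, Ex μ → Ex ν → μ = ν := by
    intro μ ν hμ hν
    by_contra hne'
    rw [hEx] at hμ hν
    obtain ⟨⟨B1, hB1⟩, h1, σ1, h11, h12, h13⟩ := hμ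
    obtain ⟨⟨B2, hB2⟩, h2, σ2, h21, h22, h23⟩ := hν
    obtain ⟨B, hB⟩ : ∃ B : Finset (Pl K), B = re (2 ^ k) μ ∪ re (2 ^ k) ν := ⟨_, rfl⟩
    have hμB : re (2 ^ k) μ ⊆ B := by rw [hB]; exact Finset.subset_union_left
    have hνB : re (2 ^ k) ν ⊆ B := by rw [hB]; exact Finset.subset_union_right
    have hlB : Real.log (nr B) ≤ 2 * L := by
      have h3 : nr B ≤ Z * Z := by
        rw [hB]
        exact (nr_union _ _).trans (mul_le_mul h1 h2 (by linarith [nr_one (re (2 ^ k) ν)]) hZ0.le)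
      have h4 := Real.log_le_log (by linarith [nr_one B]) h3
      rw [Real.log_mul hZ0.ne' hZ0.ne', ← hL] at h4
      linarith
    have hly : ly (2 * L) 0 ≤ 2 * Λ := by
      rw [hΛ]
      unfold ly
      have : 0 ≤ Real.log (2 + |(0 : ℝ)|) := Real.log_nonneg (by rw [abs_zero]; norm_num)
      linarith
    have hly0 : 0 ≤ ly (2 * L) 0 := by linarith [ly_one (show (0 : ℝ) ≤ 2 * L by linarith) 0]
    have h4 : (1 + Real.log (nr B)) ^ n ≤ (2 * Λ) ^ n := by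
      apply pow_le_pow_left₀ (by linarith [lnr B])
      linarith
    have key : ∀ (κ : Gal(QBar/K) → ZMod (2 ^ k)), re (2 ^ k) κ ⊆ B →
        (∀ σ : ℝ, 1 < σ → σ ≤ 2 → 1 ≤ c0 * ly (2 * L) 0 ^ a0 * Real.exp (PT (Fm (2 ^ k) B Q0 κ) σ)) →
        ∀ σ : ℝ, 1 < σ → σ ≤ 2 → 1 ≤ c1 * Λ ^ a1 * Real.exp (PT (Fm (2 ^ k) (re (2 ^ k) κ) Q0 κ) σ) := by
      intro κ hκ hk σ hσ hσ2
      have h5 := (hexp K hn (2 ^ k) _ B hκ Q0 κ σ hσ).2
      calc 1 ≤ c0 * ly (2 * L) 0 ^ a0 * Real.exp (PT (Fm (2 ^ k) B Q0 κ) σ) := hk σ hσ hσ2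
        _ ≤ c0 * (2 * Λ) ^ a0 * (C1 * (2 * Λ) ^ n * Real.exp (PT (Fm (2 ^ k) (re (2 ^ k) κ) Q0 κ) σ)) := by
            refine mul_le_mul (mul_le_mul_of_nonneg_left (pow_le_pow_left₀ hly0 hly _) (by linarith)) ?_
              (Real.exp_pos _).le (by positivity)
            exact h5.trans (mul_le_mul_of_nonneg_right (mul_le_mul_of_nonneg_left h4 (by linarith)) (Real.exp_pos _).le)
        _ = c1 * Λ ^ (a0 + n) * Real.exp (PT (Fm (2 ^ k) (re (2 ^ k) κ) Q0 κ) σ) := by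
            rw [hc1, mul_pow, mul_pow, pow_add]
            ring
        _ ≤ c1 * Λ ^ a1 * Real.exp (PT (Fm (2 ^ k) (re (2 ^ k) κ) Q0 κ) σ) := by
            refine mul_le_mul_of_nonneg_right (mul_le_mul_of_nonneg_left ?_ (by linarith)) (Real.exp_pos _).le
            rw [ha1]
            exact pow_le_pow_right₀ hΛ1 (Nat.le_succ _)
    rcases hpag B μ ν (hB1.self.up hμB) (hB2.self.up hνB) hne' (2 * L) hlB Q0 with h | h
    · exact absurd (key μ hμB h σ1 h11 h12) (not_le.2 h13)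
    · exact absurd (key ν hνB h σ2 h21 h22) (not_le.2 h23)
  by_cases hex : ∃ μ, Ex μ
  · obtain ⟨μ, hμ⟩ := hex
    refine ⟨re (2 ^ k) μ, ?_, ?_⟩
    · have hμ' := hμ
      rw [hEx] at hμ'
      obtain ⟨⟨B1, hB1⟩, h1, σ, h11, h12, h13⟩ := hμ'
      by_contra hlt
      rw [not_le] at hlt
      have h2 := hsg (re (2 ^ k) μ) μ hB1.self Q0 σ h11 h12
      have hr0 : 0 < nr (re (2 ^ k) μ) := by linarith [nr_one (re (2 ^ k) μ)]
      have h3 : L ^ (-(1 / 2) : ℝ) ≤ nr (re (2 ^ k) μ) ^ (-ε) := by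
        have h4 : nr (re (2 ^ k) μ) ≤ L ^ ((D : ℝ) + 1) := by
          refine hlt.le.trans ?_
          rw [← Real.rpow_natCast]
          exact Real.rpow_le_rpow_of_exponent_le hL1 (by linarith)
        have h5 : (L ^ ((D : ℝ) + 1)) ^ (-ε) ≤ nr (re (2 ^ k) μ) ^ (-ε) :=
          Real.rpow_le_rpow_of_nonpos hr0 h4 (by linarith)
        rw [← Real.rpow_mul (by linarith)] at h5
        have h6 : ((D : ℝ) + 1) * -ε = -(1 / 2) := by
          rw [hε]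
          field_simp
        rwa [h6] at h5
      have h4 : cs * L ^ (-(1 / 2) : ℝ) ≤ Real.exp (PT (Fm (2 ^ k) (re (2 ^ k) μ) Q0 μ) σ) :=
        (mul_le_mul_of_nonneg_left h3 hcs.le).trans h2
      have h5 : L ≤ c1 * Λ ^ a1 := by
        calc L ≤ Λ := by linarith
          _ = 1 * Λ ^ 1 := by rw [pow_one, one_mul]
          _ ≤ c1 * Λ ^ a1 := mul_le_mul hc11 (pow_le_pow_right₀ hΛ1 (by omega)) (by positivity) (by linarith)
      have h6 : L * (cs * L ^ (-(1 / 2) : ℝ)) < 1 := by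
        refine lt_of_le_of_lt ?_ h13
        exact mul_le_mul h5 h4 (by positivity) (by positivity)
      have h7 : L * (cs * L ^ (-(1 / 2) : ℝ)) = cs * L ^ (1 / 2 : ℝ) := by
        have h8 : L * L ^ (-(1 / 2) : ℝ) = L ^ (1 / 2 : ℝ) := by
          nth_rewrite 1 [← Real.rpow_one L]
          rw [← Real.rpow_add (by linarith)]
          norm_num
        calc L * (cs * L ^ (-(1 / 2) : ℝ)) = cs * (L * L ^ (-(1 / 2) : ℝ)) := by ring
          _ = _ := by rw [h8]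
      rw [h7] at h6
      have h8 : 1 / cs ≤ L ^ (1 / 2 : ℝ) := by
        have h9 : ((1 / cs) ^ 2) ^ (1 / 2 : ℝ) ≤ L ^ (1 / 2 : ℝ) :=
          Real.rpow_le_rpow hLs (by linarith) (by norm_num)
        rwa [← Real.rpow_natCast, ← Real.rpow_mul (by positivity), show ((2 : ℕ) : ℝ) * (1 / 2) = 1 by norm_num,
          Real.rpow_one] at h9
      have h9 : 1 ≤ cs * L ^ (1 / 2 : ℝ) := by
        rwa [div_le_iff₀ hcs, mul_comm] at h8
      linarith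
    · intro B ν hν hB he Q σ hσ hσ2
      refine hne B ν hν hB ?_ Q σ hσ hσ2
      intro hx
      rw [huni ν μ hx hμ] at hν
      exact he hν.sub
  · obtain ⟨e, he⟩ := nr_large (K := K) (L ^ D + (Z + 1))
    have hLD : 0 ≤ L ^ D := pow_nonneg (by linarith) _
    refine ⟨e, by linarith, ?_⟩
    intro B ν hν hB _ Q σ hσ hσ2
    exact hne B ν hν hB (fun hx => hex ⟨ν, hx⟩) Q σ hσ hσ2

end H93.G2
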