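import Pool.Agent.H1.PN.Dv

/-!
# H93 G2 LDV: the derivatives of `L'/L` to the right of `1` from a lower bound

`Lo C B W χ`: the ray class character `χ` is not principal and `1 ≤ C (el + W)^B |L(s, χ)|` for `1 < Re s ≤ 2`.
`dvl`: `|∑ lam(n) (log n)^j n^(-s)| ≤ C (el + W)^(B (j + 1))` for `1 < Re s ≤ 2` (as H1/PN/Dv, with `Lo` in place of `Sq2`).
`lo_sq2`: characters with nontrivial square.
-/

set_option autoImplicit false

open scoped NumberField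
open NumberField IsDedekindDomain H63.MA H36.QA Finset
open scoped Classical

noncomputable section

namespace H1.PN

/-- the lower bound to the right of `1` -/
def Lo {L : Type} [Field L] [NumberField L] {𝔣 : Ideal (𝓞 L)} (C : ℝ) (B : ℕ) (W : ℝ)
    (χ : RC L 𝔣) : Prop :=
  χ.Non ∧ ∀ s : ℂ, 1 < s.re → s.re ≤ 2 → 1 ≤ C * (el L 𝔣 s.im + W) ^ B * ‖LSeries (lbf χ.χ) s‖

theorem lo_sq2 (n : ℕ) (hn : 0 < n) : ∃ (C : ℝ) (B : ℕ), 1 ≤ C ∧ ∀ (L : Type) [Field L] [NumberField L], TC L n →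
    ∀ 𝔣 : Ideal (𝓞 L), 𝔣 ≠ ⊥ → ∀ χ : RC L 𝔣, Sq2 χ → ∀ W : ℝ, 0 ≤ W → Lo C B W χ := by
  obtain ⟨C, B, hC, h⟩ := low n hn
  refine ⟨C, B, hC, fun L _ _ hL 𝔣 h𝔣 χ hχ W hW => ⟨hχ.non, fun s hs hs2 => ?_⟩⟩
  refine (h L hL 𝔣 h𝔣 χ hχ s hs hs2).trans ?_
  have h1 := (el_two 𝔣 h𝔣 s.im).1
  refine mul_le_mul_of_nonneg_right (mul_le_mul_of_nonneg_left ?_ (by linarith)) (norm_nonneg _)
  exact pow_le_pow_left₀ (by linarith) (by linarith) _

theorem Lo.mono {L : Type} [Field L] [NumberField L] {𝔣 : Ideal (𝓞 L)} (h𝔣 : 𝔣 ≠ ⊥) {C C' : ℝ} {B B' : ℕ} {W W' : ℝ}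
    {χ : RC L 𝔣} (h : Lo C B W χ) (hC0 : 0 ≤ C) (hC : C ≤ C') (hB : B ≤ B') (hW0 : 0 ≤ W) (hW : W ≤ W') : Lo C' B' W' χ := by
  refine ⟨h.1, fun s hs hs2 => (h.2 s hs hs2).trans ?_⟩
  have h1 := (el_two 𝔣 h𝔣 s.im).1
  refine mul_le_mul_of_nonneg_right ?_ (norm_nonneg _)
  refine mul_le_mul hC ?_ (by positivity) (by linarith)
  exact (pow_le_pow_left₀ (by linarith) (by linarith) _).trans (pow_le_pow_right₀ (by linarith) hB)

theorem dvl (n : ℕ) (hn : 0 < n) (C0 : ℝ) (B1 : ℕ) (hC0 : 1 ≤ C0) : ∃ B : ℕ, ∀ j : ℕ, ∃ C : ℝ, 1 ≤ C ∧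
    ∀ (L : Type) [Field L] [NumberField L], TC L n → ∀ 𝔣 : Ideal (𝓞 L), 𝔣 ≠ ⊥ → ∀ χ : RC L 𝔣, ∀ W : ℝ, 0 ≤ W → Lo C0 B1 W χ →
      ∀ s : ℂ, 1 < s.re → s.re ≤ 2 → ‖LSeries (pw j (lam χ.χ)) s‖ ≤ C * (el L 𝔣 s.im + W) ^ (B * (j + 1)) := by
  obtain ⟨A, hA⟩ := up n hn
  choose U hU1 hU using hA
  obtain ⟨B, hB⟩ : ∃ B : ℕ, B = B1 + 1 + A := ⟨_, rfl⟩
  have key : ∀ j : ℕ, ∃ C : ℝ, 1 ≤ C ∧ ∀ i, i ≤ j →
      ∀ (L : Type) [Field L] [NumberField L], TC L n → ∀ 𝔣 : Ideal (𝓞 L), 𝔣 ≠ ⊥ → ∀ χ : RC L 𝔣, ∀ W : ℝ, 0 ≤ W → Lo C0 B1 W χ →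
      ∀ s : ℂ, 1 < s.re → s.re ≤ 2 → ‖LSeries (pw i (lam χ.χ)) s‖ ≤ C * (el L 𝔣 s.im + W) ^ (B * (i + 1)) := by
    -- one step
    have step : ∀ m : ℕ, ∀ C : ℝ, 1 ≤ C → (∀ i, i < m →
        ∀ (L : Type) [Field L] [NumberField L], TC L n → ∀ 𝔣 : Ideal (𝓞 L), 𝔣 ≠ ⊥ → ∀ χ : RC L 𝔣, ∀ W : ℝ, 0 ≤ W → Lo C0 B1 W χ →
        ∀ s : ℂ, 1 < s.re → s.re ≤ 2 → ‖LSeries (pw i (lam χ.χ)) s‖ ≤ C * (el L 𝔣 s.im + W) ^ (B * (i + 1))) →
        ∀ (L : Type) [Field L] [NumberField L], TC L n → ∀ 𝔣 : Ideal (𝓞 L), 𝔣 ≠ ⊥ → ∀ χ : RC L 𝔣, ∀ W : ℝ, 0 ≤ W → Lo C0 B1 W χ →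
        ∀ s : ℂ, 1 < s.re → s.re ≤ 2 → ‖LSeries (pw m (lam χ.χ)) s‖ ≤
          (C0 * (U (m + 1) + ∑ k ∈ range m, (m.choose (k + 1) : ℝ) * U (k + 1) * C)) * (el L 𝔣 s.im + W) ^ (B * (m + 1)) := by
      intro m C hC hind L _ _ hL 𝔣 h𝔣 χ W hW hχ s hs hs2
      obtain ⟨hℓ2, -, -, -⟩ := el_two 𝔣 h𝔣 s.im
      obtain ⟨ℓ, hℓ⟩ : ∃ ℓ : ℝ, ℓ = el L 𝔣 s.im + W := ⟨_, rfl⟩
      rw [← hℓ]
      have hℓ1 : 1 ≤ ℓ := by linarith
      have h1 := hχ.2 s hs hs2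
      rw [← hℓ] at h1
      have hb := lbd_rc_norm_le χ
      have h2 := rec χ.χ hb m hs
      obtain ⟨S, hS⟩ : ∃ S : ℂ, S = ∑ k ∈ range m, ((m.choose (k + 1) : ℕ) : ℂ) *
        (LSeries (pw (k + 1) (lbf χ.χ)) s * LSeries (pw (m - (k + 1)) (lam χ.χ)) s) := ⟨_, rfl⟩
      rw [← hS] at h2
      have h3 : LSeries (lbf χ.χ) s * LSeries (pw m (lam χ.χ)) s = LSeries (pw (m + 1) (lbf χ.χ)) s - S := by
        rw [h2]
        ring
      have hu : ∀ k, ‖LSeries (pw k (lbf χ.χ)) s‖ ≤ U k * ℓ ^ (k + A) := by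
        intro k
        refine (hU k L hL 𝔣 h𝔣 χ hχ.1 s hs hs2).trans ?_
        refine mul_le_mul_of_nonneg_left ?_ (by linarith [hU1 k])
        exact pow_le_pow_left₀ (by linarith) (by linarith) _
      have hS' : ‖S‖ ≤ ∑ k ∈ range m, (m.choose (k + 1) : ℝ) * ((U (k + 1) * ℓ ^ (k + 1 + A)) *
          (C * ℓ ^ (B * (m - (k + 1) + 1)))) := by
        rw [hS]
        refine (norm_sum_le _ _).trans (sum_le_sum fun k hk => ?_)
        rw [mem_range] at hk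
        rw [norm_mul, norm_mul, Complex.norm_natCast]
        apply mul_le_mul_of_nonneg_left _ (Nat.cast_nonneg _)
        apply mul_le_mul (hu (k + 1)) _ (norm_nonneg _)
        · have := hU1 (k + 1)
          positivity
        · rw [hℓ]
          exact hind (m - (k + 1)) (by omega) L hL 𝔣 h𝔣 χ W hW hχ s hs hs2
      have h4 : ‖LSeries (lbf χ.χ) s * LSeries (pw m (lam χ.χ)) s‖ ≤ U (m + 1) * ℓ ^ (m + 1 + A) +
          ∑ k ∈ range m, (m.choose (k + 1) : ℝ) * ((U (k + 1) * ℓ ^ (k + 1 + A)) *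
          (C * ℓ ^ (B * (m - (k + 1) + 1)))) := by
        rw [h3]
        exact (norm_sub_le _ _).trans (add_le_add (hu (m + 1)) hS')
      rw [norm_mul] at h4
      have hC00 : 0 ≤ C0 := by linarith
      obtain ⟨x, hx⟩ : ∃ x : ℝ, x = ‖LSeries (pw m (lam χ.χ)) s‖ := ⟨_, rfl⟩
      rw [← hx] at h4 ⊢
      have hx0 : 0 ≤ x := hx ▸ norm_nonneg _
      calc x = 1 * x := (one_mul _).symm
        _ ≤ (C0 * ℓ ^ B1 * ‖LSeries (lbf χ.χ) s‖) * x := mul_le_mul_of_nonneg_right h1 hx0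
        _ = C0 * ℓ ^ B1 * (‖LSeries (lbf χ.χ) s‖ * x) := by ring
        _ ≤ C0 * ℓ ^ B1 * (U (m + 1) * ℓ ^ (m + 1 + A) +
          ∑ k ∈ range m, (m.choose (k + 1) : ℝ) * ((U (k + 1) * ℓ ^ (k + 1 + A)) *
          (C * ℓ ^ (B * (m - (k + 1) + 1))))) := mul_le_mul_of_nonneg_left h4 (by positivity)
        _ = C0 * (U (m + 1) * ℓ ^ (B1 + (m + 1 + A)) +
          ∑ k ∈ range m, (m.choose (k + 1) : ℝ) * U (k + 1) * C * ℓ ^ (B1 + (k + 1 + A) + B * (m - (k + 1) + 1))) := by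
            rw [mul_add, mul_add, mul_sum, mul_sum]
            congr 1
            · rw [pow_add]
              ring
            · refine sum_congr rfl fun k _ => ?_
              rw [pow_add, pow_add]
              ring
        _ ≤ C0 * (U (m + 1) * ℓ ^ (B * (m + 1)) +
          ∑ k ∈ range m, (m.choose (k + 1) : ℝ) * U (k + 1) * C * ℓ ^ (B * (m + 1))) := by
            apply mul_le_mul_of_nonneg_left _ hC00
            apply add_le_add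
            · apply mul_le_mul_of_nonneg_left _ (by linarith [hU1 (m + 1)])
              apply pow_le_pow_right₀ hℓ1
              rw [hB]
              nlinarith [Nat.zero_le (m * (B1 + A))]
            · refine sum_le_sum fun k hk => ?_
              rw [mem_range] at hk
              apply mul_le_mul_of_nonneg_left
              · apply pow_le_pow_right₀ hℓ1
                obtain ⟨r, hr⟩ : ∃ r, m = k + 1 + r := ⟨m - (k + 1), by omega⟩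
                have e1 : m - (k + 1) = r := by omega
                rw [e1, hr, hB]
                nlinarith [Nat.zero_le (k * (B1 + A))]
              · have h5 := hU1 (k + 1)
                positivity
        _ = _ := by
            rw [← sum_mul]
            ring
    intro j
    induction j with
    | zero =>
      refine ⟨C0 * (U 1 + 0), ?_, ?_⟩
      · have := hU1 1
        rw [add_zero]
        exact one_le_mul_of_one_le_of_one_le hC0 this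
      · intro i hi
        have hi0 : i = 0 := by omega
        subst hi0
        intro L _ _ hL 𝔣 h𝔣 χ W hW hχ s hs hs2
        have h := step 0 1 le_rfl (fun i hi => absurd hi (by omega)) L hL 𝔣 h𝔣 χ W hW hχ s hs hs2
        rw [range_zero, sum_empty] at h
        exact h
    | succ j ih =>
      obtain ⟨C, hC, hind⟩ := ih
      obtain ⟨C', hC'⟩ : ∃ C' : ℝ, C' = C0 * (U (j + 1 + 1) +
        ∑ k ∈ range (j + 1), ((j + 1).choose (k + 1) : ℝ) * U (k + 1) * C) := ⟨_, rfl⟩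
      refine ⟨max C C', le_max_of_le_left hC, ?_⟩
      intro i hi L _ _ hL 𝔣 h𝔣 χ W hW hχ s hs hs2
      have hℓ0 : 0 ≤ el L 𝔣 s.im + W := by linarith [(el_two 𝔣 h𝔣 s.im).1]
      rcases Nat.lt_or_ge i (j + 1) with h | h
      · refine (hind i (by omega) L hL 𝔣 h𝔣 χ W hW hχ s hs hs2).trans ?_
        exact mul_le_mul_of_nonneg_right (le_max_left _ _) (by positivity)
      · have hi' : i = j + 1 := by omega
        subst hi'
        have h' := step (j + 1) C hC (fun i hi => hind i (by omega)) L hL 𝔣 h𝔣 χ W hW hχ s hs hs2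
        rw [← hC'] at h'
        exact h'.trans (mul_le_mul_of_nonneg_right (le_max_right _ _) (by positivity))
  refine ⟨B, fun j => ?_⟩
  obtain ⟨C, hC, h⟩ := key j
  exact ⟨C, hC, fun L _ _ hL 𝔣 h𝔣 χ W hW hχ s hs hs2 => h j le_rfl L hL 𝔣 h𝔣 χ W hW hχ s hs hs2⟩

end H1.PN
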