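import Pool.Agent.H1.PN.Sw
import Pool.Agent.H93.G2.Lbk

/-!
# H93 G2 LSW: sums over prime ideals of a Hecke character of small conductor with a lower bound to the right of `1`

`lsw`: as `H1.PN.sw'`, for `Lo C0 B0 W ψ` with `W ≤ (log x)^c` in place of a nontrivial square.
-/

set_option autoImplicit false

open scoped NumberField
open NumberField IsDedekindDomain H63.MA H36.QA H57.AN Finset

noncomputable section

namespace H1.PN

/-- the exponent `c` does not depend on `A` -/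
theorem lsw (n : ℕ) (C0 : ℝ) (B1 : ℕ) (hC0 : 1 ≤ C0) : ∃ c : ℝ, 0 < c ∧ c ≤ 1 ∧ ∀ A : ℕ, ∃ C : ℝ, 1 ≤ C ∧ ∀ (E : Type) [Field E] [NumberField E], TC E n →
    ∀ 𝔣 : Ideal (𝓞 E), 𝔣 ≠ ⊥ → ∀ ψ : RC E 𝔣, ∀ W : ℝ, 0 ≤ W → Lo C0 B1 W ψ →
    ∀ x : ℝ, 3 ≤ x → Real.log (dd E * Ideal.absNorm 𝔣) ≤ Real.log x ^ c → W ≤ Real.log x ^ c →
      ‖∑ w ∈ PB E x, ψ.χ w.asIdeal‖ ≤ C * x * Real.log x ^ (-(A : ℝ)) := by
  rcases Nat.eq_zero_or_pos n with hn | hn
  · refine ⟨1, one_pos, le_rfl, fun A => ⟨1, le_rfl, ?_⟩⟩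
    intro E _ _ hE
    exfalso
    have h1 := hE.2
    rw [hn] at h1
    have h2 : 0 < Module.finrank ℚ E := Module.finrank_pos
    omega
  obtain ⟨B, hB, hblk⟩ := lbk n hn C0 B1 hC0
  obtain ⟨c, hc⟩ : ∃ c : ℝ, c = 1 / (4 * (B : ℝ)) := ⟨_, rfl⟩
  have hBr : (1 : ℝ) ≤ B := by exact_mod_cast hB
  have hc0 : 0 < c := by
    rw [hc]
    positivity
  have hc1 : c ≤ 1 := by
    rw [hc, div_le_one (by linarith)]
    linarith
  refine ⟨c, hc0, hc1, fun A => ?_⟩
  obtain ⟨C1, hC1, hb⟩ := hblk A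
  obtain ⟨C2, hC2⟩ : ∃ C2 : ℝ, C2 = (2 * (((A + 1 : ℕ) : ℝ) + 1)) ^ (A + 1) := ⟨_, rfl⟩
  have hC20 : 0 ≤ C2 := by
    rw [hC2]
    positivity
  have hn1 : (1 : ℝ) ≤ n := by exact_mod_cast hn
  refine ⟨1 + 2 * (22 * n * C2 + 2 * (C1 * 2 ^ A)), ?_, ?_⟩
  · have : 0 ≤ 22 * n * C2 + 2 * (C1 * 2 ^ A) := by positivity
    linarith
  intro E _ _ hE 𝔣 h𝔣 ψ W hW0 hψ x hx hcond hcondW
  have hψb := lbd_rc_norm_le ψ
  obtain ⟨l, hl⟩ : ∃ l : ℝ, l = Real.log x := ⟨_, rfl⟩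
  rw [← hl] at hcond hcondW ⊢
  have hl1 : 1 ≤ l := by
    rw [hl, Real.le_log_iff_exp_le (by linarith)]
    exact Real.exp_one_lt_three.le.trans hx
  have hl0 : 0 < l := by linarith
  have hx0 : 0 < x := by linarith
  obtain ⟨r, hr⟩ : ∃ r : ℝ, r = Real.sqrt x := ⟨_, rfl⟩
  have hrr : r * r = x := by
    rw [hr]
    exact Real.mul_self_sqrt hx0.le
  have hr0 : 0 < r := by
    rw [hr]
    exact Real.sqrt_pos.2 hx0
  have hr1 : 1.7 ≤ r := by
    rw [hr]
    apply Real.le_sqrt_of_sq_le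
    norm_num
    linarith
  have hlr : Real.log r = l / 2 := by
    rw [hr, Real.log_sqrt hx0.le, hl]
  obtain ⟨K, hK⟩ : ∃ K : ℝ, K = C1 * 2 ^ A / l ^ A := ⟨_, rfl⟩
  have hK0 : 0 ≤ K := by
    rw [hK]
    positivity
  -- the blocks
  have hbl : ∀ N N' : ℕ, r ≤ N → 3 ≤ N → N ≤ N' → N' ≤ 2 * N →
      ‖∑ m ∈ Ioc N N', lam (ψ.χ : Ideal (𝓞 E) → ℂ) m‖ ≤ K * N := by
    intro N N' hrN hN hNN hN2
    have hN0 : (3 : ℝ) ≤ N := by exact_mod_cast hN
    have h1 : l / 2 ≤ Real.log N := by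
      rw [← hlr]
      exact Real.log_le_log hr0 hrN
    have h2 : l ^ c ≤ 2 * Real.log N ^ c := by
      have h3 : (l / 2) ^ c ≤ Real.log N ^ c := Real.rpow_le_rpow (by linarith) h1 hc0.le
      rw [Real.div_rpow hl0.le (by norm_num)] at h3
      have h4 : (2 : ℝ) ^ c ≤ 2 := by
        calc (2 : ℝ) ^ c ≤ 2 ^ (1 : ℝ) := Real.rpow_le_rpow_of_exponent_le (by norm_num) hc1
          _ = 2 := Real.rpow_one 2
      have h5 : 0 < (2 : ℝ) ^ c := Real.rpow_pos_of_pos (by norm_num) _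
      rw [div_le_iff₀ h5] at h3
      have h6 : 0 ≤ Real.log N ^ c := Real.rpow_nonneg (by linarith) _
      have h7 := mul_le_mul_of_nonneg_left h4 h6
      linarith
    have h3 := hb E hE 𝔣 h𝔣 ψ W hW0 hψ N N' hN hNN hN2 (by
      rw [← hc]
      exact hcond.trans h2) (by
      rw [← hc]
      exact hcondW.trans h2)
    have h4 : (l / 2) ^ A ≤ Real.log N ^ A := pow_le_pow_left₀ (by linarith) h1 A
    have h5 : (l / 2) ^ A * ‖∑ m ∈ Ioc N N', lam (ψ.χ : Ideal (𝓞 E) → ℂ) m‖ ≤ C1 * N :=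
      (mul_le_mul_of_nonneg_right h4 (norm_nonneg _)).trans h3
    rw [hK, div_mul_eq_mul_div, le_div_iff₀ (by positivity)]
    rw [div_pow, div_mul_eq_mul_div, div_le_iff₀ (by positivity)] at h5
    linarith
  -- the sums of `lam`
  obtain ⟨T0, hT0⟩ : ∃ T0 : ℝ, T0 = 21 * n * (r * l) := ⟨_, rfl⟩
  have hT00 : 0 ≤ T0 := by
    rw [hT0]
    positivity
  have hS : ∀ M : ℕ, 1 ≤ M → ‖∑ m ∈ Icc 1 M, lam (ψ.χ : Ideal (𝓞 E) → ℂ) m‖ ≤ T0 + 2 * K * M := by
    intro M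
    induction M using Nat.strong_induction_on with
    | _ M ih =>
      intro hM
      have hM0 : (1 : ℝ) ≤ M := by exact_mod_cast hM
      by_cases hsm : (M : ℝ) ≤ 7 * r
      · have h1 := lam_le' (ψ.χ : Ideal (𝓞 E) → ℂ) hψb M hM
        rw [hE.2] at h1
        refine h1.trans ?_
        have h2 : Real.log M ≤ 3 * l := by
          have h3 : Real.log M ≤ Real.log (7 * r) := Real.log_le_log (by linarith) hsm
          rw [Real.log_mul (by norm_num) hr0.ne', hlr] at h3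
          have h4 : Real.log 7 ≤ 2 := by
            rw [Real.log_le_iff_le_exp (by norm_num)]
            have h5 : Real.exp 2 = Real.exp 1 * Real.exp 1 := by
              rw [← Real.exp_add]
              norm_num
            have h6 := Real.exp_one_gt_d9
            rw [h5]
            nlinarith
          linarith
        have h7 : 0 ≤ Real.log M := Real.log_nonneg hM0
        have h8 : (M : ℝ) * Real.log M ≤ 7 * r * (3 * l) := mul_le_mul hsm h2 h7 (by positivity)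
        have h9 : (n : ℝ) * (M * Real.log M) ≤ n * (7 * r * (3 * l)) :=
          mul_le_mul_of_nonneg_left h8 (by linarith)
        have h10 : 0 ≤ 2 * K * M := by positivity
        rw [hT0]
        linarith
      · have hbig : 7 * r < M := not_le.1 hsm
        obtain ⟨N, hN⟩ : ∃ N : ℕ, N = (M + 1) / 2 := ⟨_, rfl⟩
        have h12 : (12 : ℝ) ≤ M + 1 := by nlinarith
        have hM11 : 11 ≤ M := by
          have : (12 : ℝ) ≤ ((M + 1 : ℕ) : ℝ) := by push_cast; exact h12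
          have := Nat.cast_le.1 (show ((12 : ℕ) : ℝ) ≤ ((M + 1 : ℕ) : ℝ) by exact_mod_cast this)
          omega
        have hN1 : 3 ≤ N := by omega
        have hN2 : M ≤ 2 * N := by omega
        have hN3 : 2 * N ≤ M + 1 := by omega
        have hN4 : N < M := by omega
        have hN2r : (M : ℝ) ≤ 2 * N := by exact_mod_cast hN2
        have hN3r : 2 * (N : ℝ) ≤ M + 1 := by exact_mod_cast hN3
        have h1 := ih N hN4 (by omega)
        have h2 := hbl N M (by linarith) hN1 hN4.le hN2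
        have e1 : ∑ m ∈ Icc 1 M, lam (ψ.χ : Ideal (𝓞 E) → ℂ) m =
            ∑ m ∈ Icc 1 N, lam (ψ.χ : Ideal (𝓞 E) → ℂ) m + ∑ m ∈ Ioc N M, lam (ψ.χ : Ideal (𝓞 E) → ℂ) m := by
          rw [← sum_union]
          · congr 1
            ext y
            simp only [mem_Icc, mem_union, mem_Ioc]
            omega
          · rw [disjoint_left]
            intro y hy hy'
            rw [mem_Icc] at hy
            rw [mem_Ioc] at hy'
            omega
        rw [e1]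
        have hMr : (11 : ℝ) ≤ M := by exact_mod_cast hM11
        calc _ ≤ (T0 + 2 * K * N) + K * N := (norm_add_le _ _).trans (add_le_add h1 h2)
          _ = T0 + K * (3 * N) := by ring
          _ ≤ T0 + K * (2 * M) := by
              have : 3 * (N : ℝ) ≤ 2 * M := by linarith
              have := mul_le_mul_of_nonneg_left this hK0
              linarith
          _ = _ := by ring
  -- the sums over primes
  obtain ⟨X, hX⟩ : ∃ X : ℕ, X = ⌊x⌋₊ := ⟨_, rfl⟩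
  have hX1 : 1 ≤ X := by
    rw [hX]
    exact Nat.le_floor (by push_cast; linarith)
  have hXx : (X : ℝ) ≤ x := by
    rw [hX]
    exact Nat.floor_le hx0.le
  have hPB : PB E x = PB E (X : ℝ) := by
    ext v
    rw [mem_PB, mem_PB, hX]
    constructor
    · intro h
      exact_mod_cast Nat.le_floor h
    · intro h
      exact h.trans (Nat.floor_le hx0.le)
  rw [hPB]
  obtain ⟨Q, hQ⟩ : ∃ Q : ℝ, Q = T0 + 2 * K * x + n * (r * l) := ⟨_, rfl⟩
  have hQ0 : 0 ≤ Q := by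
    rw [hQ]
    positivity
  have h1 := th_pi (ψ.χ : Ideal (𝓞 E) → ℂ) X hX1 hQ0 (by
    intro m hm hmX
    have hm0 : (1 : ℝ) ≤ m := by exact_mod_cast hm
    have hmx : (m : ℝ) ≤ x := (by exact_mod_cast hmX : (m : ℝ) ≤ X).trans hXx
    have h1 := hS m hm
    have h2 := psi_th (ψ.χ : Ideal (𝓞 E) → ℂ) hψb m hm
    rw [hE.2] at h2
    have h3 : Real.sqrt m * Real.log m ≤ r * l := by
      rw [hr, hl]
      exact mul_le_mul (Real.sqrt_le_sqrt hmx) (Real.log_le_log (by linarith) hmx) (Real.log_nonneg hm0)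
        (Real.sqrt_nonneg _)
    have h4 : (n : ℝ) * (Real.sqrt m * Real.log m) ≤ n * (r * l) := mul_le_mul_of_nonneg_left h3 (by linarith)
    have h5 : ‖Pm (ψ.χ : Ideal (𝓞 E) → ℂ) m‖ ≤ ‖∑ k ∈ Icc 1 m, lam (ψ.χ : Ideal (𝓞 E) → ℂ) k‖ +
        ‖∑ k ∈ Icc 1 m, lam (ψ.χ : Ideal (𝓞 E) → ℂ) k - Pm (ψ.χ : Ideal (𝓞 E) → ℂ) m‖ := by
      have := norm_sub_le (∑ k ∈ Icc 1 m, lam (ψ.χ : Ideal (𝓞 E) → ℂ) k)
        (∑ k ∈ Icc 1 m, lam (ψ.χ : Ideal (𝓞 E) → ℂ) k - Pm (ψ.χ : Ideal (𝓞 E) → ℂ) m)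
      rwa [sub_sub_cancel] at this
    have h6 : 2 * K * m ≤ 2 * K * x := mul_le_mul_of_nonneg_left hmx (by linarith)
    rw [hQ]
    linarith)
  refine h1.trans ?_
  -- the final bound
  have h2 : r * l ≤ C2 * x / l ^ A := by
    rw [le_div_iff₀ (by positivity)]
    have h3 := lgr (A + 1) (show (1 : ℝ) ≤ x by linarith)
    rw [← hl, ← hC2, ← Real.sqrt_eq_rpow, ← hr] at h3
    calc r * l * l ^ A = r * l ^ (A + 1) := by ring
      _ ≤ r * (C2 * r) := mul_le_mul_of_nonneg_left h3 hr0.le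
      _ = C2 * x := by rw [← hrr]; ring
  have h4 : l ^ (-(A : ℝ)) = 1 / l ^ A := by
    rw [Real.rpow_neg hl0.le, Real.rpow_natCast, one_div]
  have h5 : Q ≤ (22 * n * C2 + 2 * (C1 * 2 ^ A)) * (x / l ^ A) := by
    have h6 : (n : ℝ) * (r * l) ≤ n * (C2 * x / l ^ A) := mul_le_mul_of_nonneg_left h2 (by linarith)
    have h7 : 2 * K * x = 2 * (C1 * 2 ^ A) * (x / l ^ A) := by
      rw [hK]
      ring
    have h8 : (n : ℝ) * (C2 * x / l ^ A) = n * C2 * (x / l ^ A) := by ring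
    rw [hQ, hT0, h7]
    linarith
  rw [h4]
  have h9 : 0 ≤ x / l ^ A := by positivity
  calc 2 * Q ≤ 2 * ((22 * n * C2 + 2 * (C1 * 2 ^ A)) * (x / l ^ A)) := by linarith
    _ ≤ (1 + 2 * (22 * n * C2 + 2 * (C1 * 2 ^ A))) * (x / l ^ A) := by linarith
    _ = _ := by ring

end H1.PN
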