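import Pool.Agent.H93.G2.Rqd

/-!
# H93 G2 PAG: at most one real character of `K` is exceptional (theorem of Page over `K`)
-/

set_option autoImplicit false

open scoped NumberField Pointwise Classical
open IsDedekindDomain H63.MA NumberField H36.QA H57.LI H57.LC H67.SX H38.ML H57.SL H57.AN H57.GP H57.GP.Q H57.GP.Q.E H1.PN

noncomputable section

namespace H93.G2

variable {K : IntermediateField ℚ QBar} [NumberField K]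

/-- real points: the bound and the mean value theorem -/
private theorem pag_one {E : Type} [Field E] [NumberField E] {𝔣 : Ideal (𝓞 E)} (χ : RC E 𝔣) {C W : ℝ} {A : ℕ}
    (hU : ∀ s : ℂ, 1 < s.re → s.re ≤ 2 → ‖LSeries (lbf χ.χ) s‖ ≤ C * ly W s.im ^ A ∧
      ‖LSeries (pw 1 (lbf χ.χ)) s‖ ≤ C * ly W s.im ^ A) :
    (∀ σ : ℝ, 1 < σ → σ ≤ 2 → ‖LSeries (lbf χ.χ) (σ : ℂ)‖ ≤ C * ly W 0 ^ A) ∧
    ∀ σ τ : ℝ, 1 < σ → σ ≤ τ → τ ≤ 2 →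
      ‖LSeries (lbf χ.χ) (τ : ℂ)‖ ≤ ‖LSeries (lbf χ.χ) (σ : ℂ)‖ + C * ly W 0 ^ A * (τ - σ) := by
  constructor
  · intro σ hσ hσ2
    have h1 := (hU (σ : ℂ) (by simpa using hσ) (by simpa using hσ2)).1
    rwa [Complex.ofReal_im] at h1
  · intro σ τ hσ hστ hτ2
    have h1 := ser_mv (χ.χ : Ideal (𝓞 E) → ℂ) (map_zero χ.χ) (lbd_rc_norm_le χ) (a := σ) (b := τ) (t := 0)
      (D := C * ly W 0 ^ A) hσ hστ (by
        intro x hx1 hx2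
        have h2 := (hU ((x : ℂ) + ((0 : ℝ) : ℂ) * Complex.I) (by simpa using hσ.trans_le hx1)
          (by simpa using hx2.trans hτ2)).2
        simpa using h2)
    have e0 : ∀ x : ℝ, (x : ℂ) + ((0 : ℝ) : ℂ) * Complex.I = (x : ℂ) := fun x => by simp
    rw [e0, e0] at h1
    have h3 := norm_le_norm_sub_add (LSeries (lbf χ.χ) (τ : ℂ)) (LSeries (lbf χ.χ) (σ : ℂ))
    linarith

private theorem pag_bot {G : Type} [Group G] {p : ℕ} {m : G → ZMod p} (h : Lc ⊤ m) : ∀ y ∈ (⊥ : Subgroup G), m y = 0 := by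
  intro y hy
  rw [Subgroup.mem_bot] at hy
  rw [hy]
  have h1 := h 1 (Subgroup.mem_top _) 1 (Subgroup.mem_top _)
  rw [mul_one] at h1
  exact left_eq_add.1 h1

theorem pag {k : ℕ} (hSt : Stg k (2 ^ k * 2 ^ k) K) : ∃ (c0 : ℝ) (a0 : ℕ), 1 ≤ c0 ∧ ∀ (B : Finset (Pl K))
    (μ ν : Gal(QBar/K) → ZMod (2 ^ k)), Rq (2 ^ k) μ B → Rq (2 ^ k) ν B → μ ≠ ν → ∀ W : ℝ, Real.log (nr B) ≤ W →
    ∀ Q : DP K QBar,
    (∀ σ : ℝ, 1 < σ → σ ≤ 2 → 1 ≤ c0 * ly W 0 ^ a0 * Real.exp (PT (Fm (2 ^ k) B Q μ) σ)) ∨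
    (∀ σ : ℝ, 1 < σ → σ ≤ 2 → 1 ≤ c0 * ly W 0 ^ a0 * Real.exp (PT (Fm (2 ^ k) B Q ν) σ)) := by
  obtain ⟨C1, A1, hC1, hT⟩ := tru hSt
  obtain ⟨C2, A2, hC2, h0⟩ := pt0r hSt
  obtain ⟨C3, hC3⟩ : ∃ C3 : ℝ, C3 = C2 * C1 * C1 ^ 2 := ⟨_, rfl⟩
  obtain ⟨A3, hA3⟩ : ∃ A3 : ℕ, A3 = A2 + A1 := ⟨_, rfl⟩
  have hC31 : C1 ≤ C3 := by
    rw [hC3, mul_assoc]
    have h1 : 1 ≤ C1 ^ 2 := one_le_pow₀ hC1
    have h2 : C1 ≤ C1 * C1 ^ 2 := le_mul_of_one_le_right (by linarith) h1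
    exact h2.trans (le_mul_of_one_le_left (by positivity) hC2)
  have hC311 : 1 ≤ C3 := hC1.trans hC31
  refine ⟨8 * C3 ^ 5 * C1, 5 * A3, ?_, ?_⟩
  · have h1 : 1 ≤ C3 ^ 5 := one_le_pow₀ hC311
    nlinarith
  intro B μ ν hμ hν hne W hW Q
  have hp := hSt.pq
  obtain ⟨G, hGi, hGf, φ, m, n, hS, hG, hm, hn, hmμ, hnν, hm2, hn2⟩ := rq_sd hp hμ hν
  have hly := ly_one ((lnr B).trans hW) 0
  have hly0 : 0 ≤ ly W 0 := by linarith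
  have hmn : Lc ⊤ (fun z => m z + n z) := by
    intro a ha b hb
    show m (a * b) + n (a * b) = m a + n a + (m b + n b)
    rw [hm a ha b hb, hn a ha b hb]
    ring
  have hm0 : ∃ y ∈ (⊤ : Subgroup G), m y ≠ 0 := by
    obtain ⟨σ, hσ⟩ := hμ.ne
    exact ⟨φ σ, Subgroup.mem_top _, by rw [hmμ]; exact hσ⟩
  have hn0 : ∃ y ∈ (⊤ : Subgroup G), n y ≠ 0 := by
    obtain ⟨σ, hσ⟩ := hν.ne
    exact ⟨φ σ, Subgroup.mem_top _, by rw [hnν]; exact hσ⟩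
  have hmn0 : ∃ y ∈ (⊤ : Subgroup G), (fun z => m z + n z) y ≠ 0 := by
    by_contra hcon
    push Not at hcon
    apply hne
    funext σ
    have h1 := hcon (φ σ) (Subgroup.mem_top _)
    rw [hmμ, hnν] at h1
    have h2 := hν.real σ
    calc μ σ = (μ σ + ν σ) - (ν σ + ν σ) + ν σ := by ring
      _ = ν σ := by rw [h1, h2, sub_zero, zero_add]
  obtain ⟨E1, hnf1, χ1, hL1, hU1, -⟩ := hT G φ ⊥ B hS W hW ⊤ m hm bot_le (pag_bot hm) hm0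
  obtain ⟨E2, hnf2, χ2, hL2, hU2, -⟩ := hT G φ ⊥ B hS W hW ⊤ n hn bot_le (pag_bot hn) hn0
  obtain ⟨-, -, -, -, -, hP3⟩ := hT G φ ⊥ B hS W hW ⊤ _ hmn bot_le (pag_bot hmn) hmn0
  obtain ⟨f1, f2⟩ := pag_one χ1 hU1
  obtain ⟨g1, g2⟩ := pag_one χ2 hU2
  have hCA : C1 * ly W 0 ^ A1 ≤ C3 * ly W 0 ^ A3 := by
    refine mul_le_mul hC31 (pow_le_pow_right₀ hly (by omega)) (by positivity) (by linarith)
  have hb : ∀ (J : Subgroup G) (ψ : G → ZMod (2 ^ k)) w, ‖Fc (2 ^ k) B φ Q (mj J ψ) w‖ ≤ Fintype.card G :=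
    fun J ψ w => fc_bd (Nat.cast_nonneg _) (mj_bd J ψ) w
  have hprod : ∀ σ : ℝ, 1 < σ → σ ≤ 2 → σ - 1 ≤ C3 * ly W 0 ^ A3 *
      (‖LSeries (lbf χ1.χ) (σ : ℂ)‖ * ‖LSeries (lbf χ2.χ) (σ : ℂ)‖) := by
    intro σ hσ hσ2
    have hσ' : 1 < ((σ : ℝ) : ℂ).re := by simpa using hσ
    have hσ2' : ((σ : ℝ) : ℂ).re ≤ 2 := by simpa using hσ2
    have h1 := pt_real (p := 2 ^ k) B φ Q (fun y => mj ⊤ (fun _ => (0 : ZMod (2 ^ k))) y + (mj ⊤ m y +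
      (mj ⊤ n y + mj ⊤ (fun z => m z + n z) y)))
      (fun y => by
        have := mj_pos hp (H := ⊤) (fun y _ => hm2 y) (fun y _ => hn2 y) y
        simp only [Complex.add_re]
        linarith) σ
    rw [fc_add, pt_add (hb _ _) (b := Fintype.card G + (Fintype.card G + Fintype.card G)) ?_ hσ', fc_add,
      pt_add (hb _ _) (b := Fintype.card G + Fintype.card G) ?_ hσ', fc_add, pt_add (hb _ _) (hb _ _) hσ'] at h1
    rotate_left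
    · intro w
      rw [fc_add]
      exact (norm_add_le _ _).trans (add_le_add (hb _ _ w) (hb _ _ w))
    · intro w
      rw [fc_add]
      refine (norm_add_le _ _).trans (add_le_add (hb _ _ w) ?_)
      rw [fc_add]
      exact (norm_add_le _ _).trans (add_le_add (hb _ _ w) (hb _ _ w))
    obtain ⟨x0, hx0⟩ : ∃ x : ℝ, x = Real.exp (PT (Fc (2 ^ k) B φ Q (mj ⊤ fun _ => (0 : ZMod (2 ^ k)))) σ) := ⟨_, rfl⟩
    obtain ⟨x1, hx1⟩ : ∃ x : ℝ, x = Real.exp (PT (Fc (2 ^ k) B φ Q (mj ⊤ m)) σ) := ⟨_, rfl⟩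
    obtain ⟨x2, hx2⟩ : ∃ x : ℝ, x = Real.exp (PT (Fc (2 ^ k) B φ Q (mj ⊤ n)) σ) := ⟨_, rfl⟩
    obtain ⟨x3, hx3⟩ : ∃ x : ℝ, x = Real.exp (PT (Fc (2 ^ k) B φ Q (mj ⊤ fun z => m z + n z)) σ) := ⟨_, rfl⟩
    have h2 : 1 ≤ x0 * (x1 * (x2 * x3)) := by
      rw [hx0, hx1, hx2, hx3, ← Real.exp_add, ← Real.exp_add, ← Real.exp_add]
      exact Real.one_le_exp h1
    have q0 := h0 G φ ⊥ B hS W hW hG ⊤ bot_le Q σ hσ hσ2
    have q1 := hL1.lo Q σ hσ' hσ2'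
    have q2 := hL2.lo Q σ hσ' hσ2'
    have q3 := hP3 Q σ hσ' hσ2'
    rw [← hx0] at q0
    rw [← hx1] at q1
    rw [← hx2] at q2
    rw [← hx3, Complex.ofReal_im] at q3
    have hx00 : 0 ≤ x0 := hx0 ▸ (Real.exp_pos _).le
    have hx10 : 0 ≤ x1 := hx1 ▸ (Real.exp_pos _).le
    have hx20 : 0 ≤ x2 := hx2 ▸ (Real.exp_pos _).le
    have hx30 : 0 ≤ x3 := hx3 ▸ (Real.exp_pos _).le
    have hσ1 : 0 ≤ σ - 1 := by linarith
    calc σ - 1 = (σ - 1) * 1 := (mul_one _).symm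
      _ ≤ (σ - 1) * (x0 * (x1 * (x2 * x3))) := mul_le_mul_of_nonneg_left h2 hσ1
      _ = (x0 * (σ - 1)) * x3 * (x1 * x2) := by ring
      _ ≤ (C2 * ly W 0 ^ A2) * (C1 * ly W 0 ^ A1) * ((C1 * ‖LSeries (lbf χ1.χ) (σ : ℂ)‖) * (C1 * ‖LSeries (lbf χ2.χ) (σ : ℂ)‖)) := by
          gcongr
      _ = _ := by
          rw [hC3, hA3, pow_add]
          ring
  have key := page_abs hC311 hly (A := A3) (fun σ : ℝ => ‖LSeries (lbf χ1.χ) (σ : ℂ)‖) (fun σ : ℝ => ‖LSeries (lbf χ2.χ) (σ : ℂ)‖)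
    (fun _ => norm_nonneg _) (fun _ => norm_nonneg _) (fun σ hσ hσ2 => (f1 σ hσ hσ2).trans hCA)
    (fun σ hσ hσ2 => (g1 σ hσ hσ2).trans hCA)
    (fun σ τ hσ hστ hτ => (f2 σ τ hσ hστ hτ).trans (by
      have := mul_le_mul_of_nonneg_right hCA (by linarith : (0 : ℝ) ≤ τ - σ)
      linarith))
    (fun σ τ hσ hστ hτ => (g2 σ τ hσ hστ hτ).trans (by
      have := mul_le_mul_of_nonneg_right hCA (by linarith : (0 : ℝ) ≤ τ - σ)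
      linarith)) hprod
  have hc : 0 ≤ 8 * C3 ^ 5 * ly W 0 ^ (5 * A3) := by positivity
  rcases key with h | h
  · left
    intro σ hσ hσ2
    have h1 := hL1.up Q σ (by simpa using hσ) (by simpa using hσ2)
    rw [fm_fc hp φ B Q hm hmμ] at h1
    calc (1 : ℝ) ≤ 8 * C3 ^ 5 * ly W 0 ^ (5 * A3) * ‖LSeries (lbf χ1.χ) (σ : ℂ)‖ := h σ hσ hσ2
      _ ≤ 8 * C3 ^ 5 * ly W 0 ^ (5 * A3) * (C1 * Real.exp (PT (Fm (2 ^ k) B Q μ) σ)) := mul_le_mul_of_nonneg_left h1 hc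
      _ = _ := by ring
  · right
    intro σ hσ hσ2
    have h1 := hL2.up Q σ (by simpa using hσ) (by simpa using hσ2)
    rw [fm_fc hp φ B Q hn hnν] at h1
    calc (1 : ℝ) ≤ 8 * C3 ^ 5 * ly W 0 ^ (5 * A3) * ‖LSeries (lbf χ2.χ) (σ : ℂ)‖ := h σ hσ hσ2
      _ ≤ 8 * C3 ^ 5 * ly W 0 ^ (5 * A3) * (C1 * Real.exp (PT (Fm (2 ^ k) B Q ν) σ)) := mul_le_mul_of_nonneg_left h1 hc
      _ = _ := by ring

end H93.G2
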