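import Pool.Agent.H1.PN.Lw
import Pool.Agent.H57.AN.Che
import Pool.Agent.H57.LI.Defs

/-!
# H93 G2 PTS: prime sums `PT F s = Re ∑_w F(w) N(w)^(-s)`

* `pt_sum`, `pt_add`, `pt_le`: summability, additivity, monotony. `eulc`: `|L(s, χ)|` and `exp (PT χ s)` for complex `s`.
* `npr`: the primes of non prime norm. `hbd`: the primes of a finite set: `exp (∑_{w ∈ T} 1 / N w) ≤ C (1 + log (nr T))^n`.
-/

set_option autoImplicit false

open scoped NumberField
open NumberField IsDedekindDomain H63.MA H36.QA Finset H1.PN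
open scoped Classical

noncomputable section

namespace H93.G2

variable {K : Type} [Field K] [NumberField K]

/-- the prime sum -/
def PT (F : Pl K → ℂ) (s : ℂ) : ℝ := ∑' w : Pl K, (F w * (nm w : ℂ) ^ (-s)).re

theorem nm_pos (w : Pl K) : 0 < nm w := by
  have := H57.LI.prk_two w
  omega

theorem term_norm (F : Pl K → ℂ) (s : ℂ) (w : Pl K) :
    ‖F w * (nm w : ℂ) ^ (-s)‖ = ‖F w‖ * (nm w : ℝ) ^ (-s.re) := by
  rw [norm_mul, Complex.norm_natCast_cpow_of_pos (nm_pos w), Complex.neg_re]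

theorem term_le {F : Pl K → ℂ} {b : ℝ} (hF : ∀ w, ‖F w‖ ≤ b) (s : ℂ) (w : Pl K) :
    |(F w * (nm w : ℂ) ^ (-s)).re| ≤ b * (nm w : ℝ) ^ (-s.re) := by
  refine (Complex.abs_re_le_norm _).trans ?_
  rw [term_norm]
  exact mul_le_mul_of_nonneg_right (hF w) (Real.rpow_nonneg (Nat.cast_nonneg _) _)

theorem pt_sum {F : Pl K → ℂ} {b : ℝ} (hF : ∀ w, ‖F w‖ ≤ b) {s : ℂ} (hs : 1 < s.re) :
    Summable fun w : Pl K => (F w * (nm w : ℂ) ^ (-s)).re := by
  apply Summable.of_norm_bounded ((pz_summable K hs).mul_left b)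
  intro w
  rw [Real.norm_eq_abs]
  exact term_le hF s w

theorem pt_add {F G : Pl K → ℂ} {a b : ℝ} (hF : ∀ w, ‖F w‖ ≤ a) (hG : ∀ w, ‖G w‖ ≤ b) {s : ℂ} (hs : 1 < s.re) :
    PT (fun w => F w + G w) s = PT F s + PT G s := by
  unfold PT
  rw [← (pt_sum hF hs).tsum_add (pt_sum hG hs)]
  exact tsum_congr fun w => by rw [add_mul, Complex.add_re]

theorem pt_nonneg {F : Pl K → ℂ} {s : ℂ} (h : ∀ w, 0 ≤ (F w * (nm w : ℂ) ^ (-s)).re) : 0 ≤ PT F s :=
  tsum_nonneg h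

/-- comparison of two functions -/
theorem pt_le {F G : Pl K → ℂ} {a b : ℝ} (hF : ∀ w, ‖F w‖ ≤ a) (hG : ∀ w, ‖G w‖ ≤ b) {s : ℂ} (hs : 1 < s.re)
    (h : ∀ w, (F w * (nm w : ℂ) ^ (-s)).re ≤ (G w * (nm w : ℂ) ^ (-s)).re) : PT F s ≤ PT G s :=
  (pt_sum hF hs).tsum_le_tsum h (pt_sum hG hs)

/-- the Euler product for complex `s` -/
theorem eulc (n : ℕ) : ∃ C : ℝ, 1 ≤ C ∧ ∀ (L : Type) [Field L] [NumberField L], Module.finrank ℚ L = n →
    ∀ χ : Ideal (𝓞 L) →*₀ ℂ, (∀ I, ‖χ I‖ ≤ 1) → ∀ s : ℂ, 1 < s.re → s.re ≤ 2 →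
      ‖LSeries (lbf χ) s‖ ≤ C * Real.exp (PT (fun v : Pl L => χ v.asIdeal) s) ∧
      Real.exp (PT (fun v : Pl L => χ v.asIdeal) s) ≤ C * ‖LSeries (lbf χ) s‖ := by
  obtain ⟨C, hC, h⟩ := eul2 n
  refine ⟨C, hC, fun L _ _ hL χ hχ s hs hs2 => ?_⟩
  have h1 := h L hL (tw χ s.im) (tw_norm χ hχ s.im) s.re hs hs2
  rw [tw_ser χ hχ s.im hs, Complex.re_add_im] at h1
  have h2 : ∑' v : Pl L, (tw χ s.im v.asIdeal).re * (nm v : ℝ) ^ (-s.re) = PT (fun v : Pl L => χ v.asIdeal) s := by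
    unfold PT
    refine tsum_congr fun v => ?_
    have h0 : (nm v : ℂ) ≠ 0 := by
      have := nm_pos v
      exact_mod_cast this.ne'
    have e1 : (nm v : ℂ) ^ (-s) = (((nm v : ℝ) ^ (-s.re) : ℝ) : ℂ) * (nm v : ℂ) ^ (-((s.im : ℂ) * Complex.I)) := by
      rw [Complex.ofReal_cpow (Nat.cast_nonneg _), Complex.ofReal_natCast, ← Complex.cpow_add _ _ h0]
      congr 1
      conv_lhs => rw [← Complex.re_add_im s]
      push_cast
      ring
    rw [e1, tw_apply]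
    show (χ v.asIdeal * (nm v : ℂ) ^ (-((s.im : ℂ) * Complex.I))).re * _ = _
    rw [← Complex.re_mul_ofReal]
    congr 1
    ring
  rw [h2] at h1
  exact h1

/-- the primes of non prime norm -/
theorem npr (n : ℕ) : ∃ C : ℝ, 1 ≤ C ∧ ∀ (L : Type) [Field L] [NumberField L], Module.finrank ℚ L = n →
    ∀ T : Finset (Pl L), (∀ w ∈ T, ¬ (nm w).Prime) → ∑ w ∈ T, (1 : ℝ) / nm w ≤ C := by
  have hs : Summable fun m : ℕ => (1 : ℝ) / (m : ℝ) ^ 2 := Real.summable_one_div_nat_pow.2 (by norm_num)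
  have h0 : 0 ≤ ∑' m : ℕ, (1 : ℝ) / (m : ℝ) ^ 2 := tsum_nonneg fun m => by positivity
  refine ⟨1 + n * ∑' m : ℕ, (1 : ℝ) / (m : ℝ) ^ 2, by
    have : 0 ≤ n * ∑' m : ℕ, (1 : ℝ) / (m : ℝ) ^ 2 := by positivity
    linarith, fun L _ _ hn T hT => ?_⟩
  have h1 : ∑ w ∈ T, (1 : ℝ) / nm w ≤ ∑ w ∈ T, (fun m : ℕ => (1 : ℝ) / (m : ℝ) ^ 2) (nm w).minFac := by
    refine Finset.sum_le_sum fun w hw => ?_
    obtain ⟨h3, f, hf, h4⟩ := H57.LI.prk_pow w
    have hf2 : 2 ≤ f := by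
      rcases Nat.lt_or_ge f 2 with h5 | h5
      · exfalso
        have h6 : f = 1 := by omega
        rw [h6, pow_one] at h4
        exact hT w hw (h4 ▸ h3)
      · exact h5
    have h5 : (nm w).minFac ^ 2 ≤ nm w := by
      conv_rhs => rw [h4]
      exact Nat.pow_le_pow_right h3.pos hf2
    have h6 : (0 : ℝ) < ((nm w).minFac : ℝ) := by exact_mod_cast h3.pos
    have h7 : (((nm w).minFac : ℕ) : ℝ) ^ 2 ≤ nm w := by exact_mod_cast h5
    exact one_div_le_one_div_of_le (by positivity) h7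
  have h2 : ∑ w ∈ T, (fun m : ℕ => (1 : ℝ) / (m : ℝ) ^ 2) (nm w).minFac ≤
      Module.finrank ℚ L * ∑ m ∈ T.image (fun w => (nm w).minFac), (1 : ℝ) / (m : ℝ) ^ 2 := by
    rw [← Finset.sum_fiberwise_of_maps_to (t := T.image fun w => (nm w).minFac)
      (fun w hw => Finset.mem_image_of_mem _ hw), Finset.mul_sum]
    refine Finset.sum_le_sum fun m _ => ?_
    have h3 : ∑ w ∈ T with (nm w).minFac = m, (fun m : ℕ => (1 : ℝ) / (m : ℝ) ^ 2) (nm w).minFac =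
        ∑ w ∈ T with (nm w).minFac = m, (1 : ℝ) / (m : ℝ) ^ 2 :=
      Finset.sum_congr rfl fun w hw => by rw [(Finset.mem_filter.1 hw).2]
    rw [h3, Finset.sum_const, nsmul_eq_mul]
    refine mul_le_mul_of_nonneg_right ?_ (by positivity)
    exact_mod_cast H57.LI.prk_fibre m _ fun v hv => (Finset.mem_filter.1 hv).2
  have h3 : ∑ m ∈ T.image (fun w => (nm w).minFac), (1 : ℝ) / (m : ℝ) ^ 2 ≤ ∑' m : ℕ, (1 : ℝ) / (m : ℝ) ^ 2 :=
    hs.sum_le_tsum _ fun m _ => by positivity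
  rw [hn] at h2
  have h4 : (n : ℝ) * ∑ m ∈ T.image (fun w => (nm w).minFac), (1 : ℝ) / (m : ℝ) ^ 2 ≤
      n * ∑' m : ℕ, (1 : ℝ) / (m : ℝ) ^ 2 := mul_le_mul_of_nonneg_left h3 (Nat.cast_nonneg _)
  linarith

/-- sums over the primes of a finite set -/
theorem hbd1 {L : Type} [Field L] [NumberField L] (T : Finset (Pl L)) (m : ℕ) (hm : T.card ≤ m) (hm1 : 1 ≤ m) :
    ∑ w ∈ T, (1 : ℝ) / nm w ≤ Module.finrank ℚ L * (1 + Real.log m) + 1 := by
  have h1 : ∑ w ∈ T, (1 : ℝ) / nm w = ∑ w ∈ T.filter (fun w => nm w ≤ m), (1 : ℝ) / nm w +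
      ∑ w ∈ T.filter (fun w => ¬ nm w ≤ m), (1 : ℝ) / nm w := (Finset.sum_filter_add_sum_filter_not _ _ _).symm
  have hm0 : (1 : ℝ) ≤ m := by exact_mod_cast hm1
  have h2 : ∑ w ∈ T.filter (fun w => ¬ nm w ≤ m), (1 : ℝ) / nm w ≤ 1 := by
    have h3 : ∀ w ∈ T.filter (fun w => ¬ nm w ≤ m), (1 : ℝ) / nm w ≤ 1 / m := by
      intro w hw
      have h4 := (Finset.mem_filter.1 hw).2
      have h5 : (m : ℝ) ≤ nm w := by exact_mod_cast (not_le.1 h4).le
      exact one_div_le_one_div_of_le (by linarith) h5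
    refine (Finset.sum_le_sum h3).trans ?_
    rw [Finset.sum_const, nsmul_eq_mul, mul_one_div, div_le_one (by linarith)]
    exact_mod_cast (Finset.card_filter_le _ _).trans hm
  have h4 : ∑ w ∈ T.filter (fun w => nm w ≤ m), (1 : ℝ) / nm w ≤ Module.finrank ℚ L * (1 + Real.log m) := by
    have hmf : ∀ w : Pl L, (nm w).minFac ≤ nm w := fun w => Nat.minFac_le (nm_pos w)
    have h5 : ∑ w ∈ T.filter (fun w => nm w ≤ m), (1 : ℝ) / nm w ≤
        ∑ w ∈ T.filter (fun w => nm w ≤ m), (1 : ℝ) / (nm w).minFac := by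
      refine Finset.sum_le_sum fun w _ => ?_
      have h6 := (H57.LI.prk_pow w).1.pos
      exact one_div_le_one_div_of_le (by exact_mod_cast h6) (by exact_mod_cast hmf w)
    refine h5.trans ?_
    have hmaps : ∀ w ∈ T.filter (fun w => nm w ≤ m), (nm w).minFac ∈ Finset.Icc 1 m := by
      intro w hw
      rw [Finset.mem_Icc]
      exact ⟨(H57.LI.prk_pow w).1.pos, (hmf w).trans (Finset.mem_filter.1 hw).2⟩
    rw [← Finset.sum_fiberwise_of_maps_to hmaps]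
    have h6 : ∀ j ∈ Finset.Icc 1 m, ∑ w ∈ T.filter (fun w => nm w ≤ m) with (nm w).minFac = j,
        (1 : ℝ) / (nm w).minFac ≤ Module.finrank ℚ L * ((j : ℝ))⁻¹ := by
      intro j _
      have h3 : ∑ w ∈ T.filter (fun w => nm w ≤ m) with (nm w).minFac = j, (1 : ℝ) / (nm w).minFac =
          ∑ w ∈ T.filter (fun w => nm w ≤ m) with (nm w).minFac = j, (1 : ℝ) / j :=
        Finset.sum_congr rfl fun w hw => by rw [(Finset.mem_filter.1 hw).2]
      rw [h3, Finset.sum_const, nsmul_eq_mul, one_div]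
      refine mul_le_mul_of_nonneg_right ?_ (by positivity)
      exact_mod_cast H57.LI.prk_fibre j _ fun v hv => (Finset.mem_filter.1 hv).2
    refine (Finset.sum_le_sum h6).trans ?_
    rw [← Finset.mul_sum]
    refine mul_le_mul_of_nonneg_left ?_ (Nat.cast_nonneg _)
    have h7 := harmonic_le_one_add_log m
    rw [harmonic_eq_sum_Icc] at h7
    push_cast at h7
    exact h7
  linarith

theorem nr_one {L : Type} [Field L] [NumberField L] (T : Finset (Pl L)) : (1 : ℝ) ≤ nr T := by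
  unfold nr
  refine Finset.prod_induction _ (fun a : ℝ => 1 ≤ a) (fun a b ha hb => one_le_mul_of_one_le_of_one_le ha hb) le_rfl
    fun v _ => ?_
  have h2 := nm_pos v
  exact_mod_cast h2

theorem card_nr {L : Type} [Field L] [NumberField L] (T : Finset (Pl L)) : (T.card : ℝ) ≤ 2 * Real.log (nr T) := by
  have h1 : Real.log (nr T) = ∑ v ∈ T, Real.log (nm v) := by
    unfold nr
    rw [Real.log_prod]
    intro v _
    have := nm_pos v
    exact_mod_cast this.ne'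
  have h2 : ∑ v ∈ T, (1 / 2 : ℝ) ≤ ∑ v ∈ T, Real.log (nm v) := by
    refine Finset.sum_le_sum fun v _ => ?_
    have h3 : (2 : ℝ) ≤ nm v := by exact_mod_cast H57.LI.prk_two v
    have h4 := Real.log_le_log (by norm_num) h3
    have := Real.log_two_gt_d9
    linarith
  rw [Finset.sum_const, nsmul_eq_mul] at h2
  rw [h1]
  linarith

/-- the primes of a finite set -/
theorem hbd (n : ℕ) : ∃ C : ℝ, 1 ≤ C ∧ ∀ (L : Type) [Field L] [NumberField L], Module.finrank ℚ L = n →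
    ∀ T : Finset (Pl L), Real.exp (∑ w ∈ T, (1 : ℝ) / nm w) ≤ C * (1 + Real.log (nr T)) ^ n := by
  refine ⟨Real.exp (n + 1) * 3 ^ n, ?_, ?_⟩
  · refine one_le_mul_of_one_le_of_one_le (Real.one_le_exp (by positivity)) (one_le_pow₀ (by norm_num))
  intro L _ _ hn T
  have hl : 0 ≤ Real.log (nr T) := Real.log_nonneg (nr_one T)
  have h1 := hbd1 T (T.card + 1) (Nat.le_succ _) (Nat.succ_le_succ (Nat.zero_le _))
  rw [hn] at h1
  have h2 := card_nr T
  have h3 : ((T.card + 1 : ℕ) : ℝ) ≤ 3 * (1 + Real.log (nr T)) := by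
    push_cast
    linarith
  have h0 : (0 : ℝ) < ((T.card + 1 : ℕ) : ℝ) := by positivity
  calc Real.exp (∑ w ∈ T, (1 : ℝ) / nm w) ≤ Real.exp (n * (1 + Real.log ((T.card + 1 : ℕ) : ℝ)) + 1) :=
        Real.exp_le_exp.2 h1
    _ = Real.exp (n + 1) * ((T.card + 1 : ℕ) : ℝ) ^ n := by
        rw [← Real.exp_log h0, ← Real.exp_nat_mul, ← Real.exp_add, Real.exp_log h0]
        congr 1
        ring
    _ ≤ Real.exp (n + 1) * (3 * (1 + Real.log (nr T))) ^ n :=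
        mul_le_mul_of_nonneg_left (pow_le_pow_left₀ h0.le h3 n) (Real.exp_pos _).le
    _ = _ := by
        rw [mul_pow]
        ring

end H93.G2
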