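import Pool.Agent.H93.G2.Dsd

/-!
# H93 G2 RQD: real characters of the Galois group

* `Rq p μ B`: `μ` is a nonzero character with `2 μ = 0`, of finite type, unramified outside `B` and `p`.
* `Fm p B Q μ`: the values `ep (μ (fr w))` on the good primes.
* `rq_sd`: two characters come from one finite quotient.
-/

set_option autoImplicit false

open scoped NumberField Pointwise Classical
open IsDedekindDomain H63.MA NumberField H36.QA H57.LI H57.LC H67.SX H38.ML H57.SL H57.AN H57.GP H57.GP.Q H57.GP.Q.E H1.PN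

noncomputable section

namespace H93.G2

variable {K : IntermediateField ℚ QBar} [NumberField K]

/-- a nonzero real character of finite type, unramified outside `B` and `p` -/
structure Rq (p : ℕ) (μ : Gal(QBar/K) → ZMod p) (B : Finset (Pl K)) : Prop where
  mul : ∀ σ τ, μ (σ * τ) = μ σ + μ τ
  ft : ∃ M : IntermediateField K QBar, FiniteDimensional K M ∧ ∀ σ ∈ M.fixingSubgroup, μ σ = 0
  real : ∀ σ, μ σ + μ σ = 0
  ne : ∃ σ, μ σ ≠ 0
  unr : ∀ l : Pl K, ¬ Above p l → l ∉ B → ∀ P : Ideal (𝓞 QBar), P.IsPrime → P.under (𝓞 K) = l.asIdeal →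
    ∀ τ ∈ P.inertia Gal(QBar/K), μ τ = 0

theorem Rq.one {p : ℕ} {μ : Gal(QBar/K) → ZMod p} {B : Finset (Pl K)} (h : Rq p μ B) : μ 1 = 0 := by
  have h1 := h.mul 1 1
  rw [mul_one] at h1
  simpa using h1.symm

/-- the values on the good primes -/
def Fm (p : ℕ) (B : Finset (Pl K)) (Q : DP K QBar) (μ : Gal(QBar/K) → ZMod p) (w : Pl K) : ℂ :=
  if w ∉ B ∧ ¬ Above p w ∧ (nm w).Prime then ep p (μ (fr Q w)) else 0

theorem fm_bd {p : ℕ} (B : Finset (Pl K)) (Q : DP K QBar) (μ : Gal(QBar/K) → ZMod p) (w : Pl K) : ‖Fm p B Q μ w‖ ≤ 1 := by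
  unfold Fm
  split_ifs
  · exact (ep_norm _ _).le
  · rw [norm_zero]
    exact zero_le_one

theorem fm_fc {p : ℕ} (hp : PQ 2 p) {G : Type} [Group G] [Fintype G] (φ : Gal(QBar/K) →* G) (B : Finset (Pl K))
    (Q : DP K QBar) {m : G → ZMod p} (hm : Lc ⊤ m) {μ : Gal(QBar/K) → ZMod p} (h : ∀ σ, m (φ σ) = μ σ) :
    Fc p B φ Q (mj ⊤ m) = Fm p B Q μ := by
  funext w
  unfold Fc Fm
  rw [mj_top hp hm, h]

/-- two real characters come from one finite quotient -/
theorem rq_sd {ℓ p : ℕ} (hp : PQ ℓ p) {B : Finset (Pl K)} {μ ν : Gal(QBar/K) → ZMod p} (hμ : Rq p μ B) (hν : Rq p ν B) :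
    ∃ (G : Type) (_ : Group G) (_ : Fintype G) (φ : Gal(QBar/K) →* G) (m n : G → ZMod p),
      Sd p (p * p) φ ⊥ B ∧ IsPGroup ℓ G ∧ Lc ⊤ m ∧ Lc ⊤ n ∧ (∀ σ, m (φ σ) = μ σ) ∧ (∀ σ, n (φ σ) = ν σ) ∧
      (∀ y, m y + m y = 0) ∧ ∀ y, n y + n y = 0 := by
  have hNe : NeZero p := ⟨hp.ne_zero⟩
  obtain ⟨Φ, hΦ⟩ : ∃ Φ : Gal(QBar/K) →* Multiplicative (ZMod p × ZMod p), ∀ σ, Φ σ = Multiplicative.ofAdd (μ σ, ν σ) :=
    ⟨{ toFun := fun σ => Multiplicative.ofAdd (μ σ, ν σ)
       map_one' := by rw [hμ.one, hν.one]; rfl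
       map_mul' := fun σ τ => by rw [hμ.mul, hν.mul]; rfl }, fun _ => rfl⟩
  have hfin : Finite (Multiplicative (ZMod p × ZMod p)) := inferInstanceAs (Finite (ZMod p × ZMod p))
  have hft : Fintype Φ.range := Fintype.ofFinite _
  refine ⟨Φ.range, inferInstance, hft, Φ.rangeRestrict, fun y => (Multiplicative.toAdd (y : Multiplicative (ZMod p × ZMod p))).1,
    fun y => (Multiplicative.toAdd (y : Multiplicative (ZMod p × ZMod p))).2, ?_, ?_, ?_, ?_, ?_, ?_, ?_, ?_⟩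
  · refine ⟨?_, Φ.rangeRestrict_surjective, ?_, inferInstance, ?_⟩
    · have h1 : Nat.card Φ.range ≤ Nat.card (Multiplicative (ZMod p × ZMod p)) :=
        Nat.card_le_card_of_injective _ Φ.range.subtype_injective
      have h2 : Nat.card (Multiplicative (ZMod p × ZMod p)) = p * p := by
        show Nat.card (ZMod p × ZMod p) = p * p
        rw [Nat.card_prod, Nat.card_zmod]
      rw [← Nat.card_eq_fintype_card]
      omega
    · obtain ⟨M1, h1, h2⟩ := hμ.ft
      obtain ⟨M2, h3, h4⟩ := hν.ft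
      refine ⟨M1 ⊔ M2, IntermediateField.finiteDimensional_sup M1 M2, fun σ hσ => ?_⟩
      have g1 : σ ∈ M1.fixingSubgroup := IntermediateField.fixingSubgroup_antitone le_sup_left hσ
      have g2 : σ ∈ M2.fixingSubgroup := IntermediateField.fixingSubgroup_antitone le_sup_right hσ
      apply Subtype.ext
      show Φ σ = 1
      rw [hΦ, h2 σ g1, h4 σ g2]
      rfl
    · intro l hl hlB P hP hPl τ hτ
      rw [Subgroup.mem_bot]
      apply Subtype.ext
      show Φ τ = 1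
      rw [hΦ, hμ.unr l hl hlB P hP hPl τ hτ, hν.unr l hl hlB P hP hPl τ hτ]
      rfl
  · intro y
    obtain ⟨k, hk⟩ := hp.2
    refine ⟨k + 1, ?_⟩
    rw [← hk]
    apply Subtype.ext
    obtain ⟨a, ha⟩ : ∃ a : ZMod p × ZMod p, a = Multiplicative.toAdd (y : Multiplicative (ZMod p × ZMod p)) := ⟨_, rfl⟩
    have h1 : (y : Multiplicative (ZMod p × ZMod p)) = Multiplicative.ofAdd a := by rw [ha]; rfl
    rw [SubmonoidClass.coe_pow, h1, ← ofAdd_nsmul]
    have h2 : p • a = 0 := by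
      apply Prod.ext
      · show p • a.1 = 0
        rw [nsmul_eq_mul, ZMod.natCast_self, zero_mul]
      · show p • a.2 = 0
        rw [nsmul_eq_mul, ZMod.natCast_self, zero_mul]
    rw [h2]
    rfl
  · intro a _ b _
    rfl
  · intro a _ b _
    rfl
  · intro σ
    show (Multiplicative.toAdd (Φ σ)).1 = μ σ
    rw [hΦ]
    rfl
  · intro σ
    show (Multiplicative.toAdd (Φ σ)).2 = ν σ
    rw [hΦ]
    rfl
  · rintro ⟨_, σ, rfl⟩
    show (Multiplicative.toAdd (Φ σ)).1 + (Multiplicative.toAdd (Φ σ)).1 = 0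
    rw [hΦ]
    exact hμ.real σ
  · rintro ⟨_, σ, rfl⟩
    show (Multiplicative.toAdd (Φ σ)).2 + (Multiplicative.toAdd (Φ σ)).2 = 0
    rw [hΦ]
    exact hν.real σ

end H93.G2
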