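import Pool.Agent.H93.G2.Trb

/-!
# H93 G2 SMC: from the sum over the primes of `E` to the sum over the good primes of `K`
-/

set_option autoImplicit false

open scoped NumberField Pointwise Classical
open IsDedekindDomain H63.MA NumberField H36.QA H57.LI H57.LC H67.SX H38.ML H57.SL H57.AN H57.GP H57.GP.Q H57.GP.Q.E H1.PN

noncomputable section

namespace H93.G2

private theorem smc_np {L : Type} [Field L] [NumberField L] {x : ℝ} :
    (((PB L x).filter fun w => ¬ (nm w).Prime).card : ℝ) ≤ Module.finrank ℚ L * √x := by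
  have h1 : ((PB L x).filter fun w => ¬ (nm w).Prime).card ≤ Module.finrank ℚ L * (Finset.Icc 1 ⌊√x⌋₊).card := by
    refine Finset.card_le_mul_card_image_of_maps_to (f := fun w => (nm w).minFac) ?_ _ ?_
    · intro w hw
      obtain ⟨hw1, hw2⟩ := Finset.mem_filter.1 hw
      rw [mem_PB] at hw1
      obtain ⟨h3, f, hf, h4⟩ := H57.LI.prk_pow w
      have hf2 : 2 ≤ f := by
        rcases Nat.lt_or_ge f 2 with h5 | h5
        · exfalso
          have h6 : f = 1 := by omega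
          rw [h6, pow_one] at h4
          exact hw2 (h4 ▸ h3)
        · exact h5
      rw [Finset.mem_Icc]
      refine ⟨h3.pos, Nat.le_floor ?_⟩
      apply Real.le_sqrt_of_sq_le
      refine le_trans ?_ hw1
      have h5 : (nm w).minFac ^ 2 ≤ nm w := by
        conv_rhs => rw [h4]
        exact Nat.pow_le_pow_right h3.pos hf2
      exact_mod_cast h5
    · intro ℓ _
      exact H57.LI.prk_fibre ℓ _ fun v hv => (Finset.mem_filter.1 hv).2
  rw [Nat.card_Icc, Nat.add_sub_cancel] at h1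
  calc (((PB L x).filter fun w => ¬ (nm w).Prime).card : ℝ)
      ≤ ((Module.finrank ℚ L * ⌊√x⌋₊ : ℕ) : ℝ) := by exact_mod_cast h1
    _ = Module.finrank ℚ L * (⌊√x⌋₊ : ℝ) := by push_cast; rfl
    _ ≤ _ := mul_le_mul_of_nonneg_left (Nat.floor_le (Real.sqrt_nonneg x)) (Nat.cast_nonneg _)

private theorem smc_dn {K : Type} [Field K] [NumberField K] {L : Type} [Field L] [NumberField L] [Algebra K L]
    (T : Finset (Pl K)) (S : Finset (Pl L)) (hS : ∀ w ∈ S, dn K w ∈ T) :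
    (S.card : ℝ) ≤ Module.finrank K L * T.card := by
  have h1 : S.card ≤ Module.finrank K L * T.card := by
    refine Finset.card_le_mul_card_image_of_maps_to (f := fun w => dn K w) hS _ ?_
    intro v _
    exact fib K v _ fun w hw => (Finset.mem_filter.1 hw).2
  exact_mod_cast h1

private theorem smc_one {L : Type} [Field L] [NumberField L] {𝔣 : Ideal (𝓞 L)} (χ : RC L 𝔣) (I : Ideal (𝓞 L)) (hI : I ≠ ⊥) :
    ‖χ.χ I‖ ≤ 1 := by
  by_cases h : IsCoprime I 𝔣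
  · exact (χ.norm_one I hI h).le
  · rw [χ.zero_of I h, norm_zero]
    exact zero_le_one

/-- the primes of degree one over good primes -/
private theorem smc_d1 {K : Type} [Field K] [NumberField K] {L : Type} [Field L] [NumberField L] [Algebra K L]
    {𝔣 : Ideal (𝓞 L)} (χ : RC L 𝔣) (p : ℕ) (x : ℝ) (Bd : Finset (Pl K)) :
    ∑ w ∈ (PB K x).filter (fun w => w ∉ Bd ∧ (nm w).Prime ∧ ¬ Above p w), d1 K χ.χ w =
      ∑ V ∈ (PB L x).filter (fun V => dn K V ∉ Bd ∧ (nm V).Prime ∧ ¬ Above p (dn K V)), χ.χ V.asIdeal := by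
  have hmap : ∀ V ∈ (PB L x).filter (fun V => dn K V ∉ Bd ∧ (nm V).Prime ∧ ¬ Above p (dn K V)),
      dn K V ∈ (PB K x).filter (fun w => w ∉ Bd ∧ (nm w).Prime ∧ ¬ Above p w) := by
    intro V hV
    obtain ⟨h1, h2, h3, h4⟩ := Finset.mem_filter.1 hV
    rw [mem_PB] at h1
    rw [Finset.mem_filter, mem_PB, nm_dn K h3]
    exact ⟨h1, h2, h3, h4⟩
  rw [← Finset.sum_fiberwise_of_maps_to hmap]
  refine Finset.sum_congr rfl fun w hw => ?_
  obtain ⟨h1, h2, h3, h4⟩ := Finset.mem_filter.1 hw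
  rw [mem_PB] at h1
  unfold d1
  have hset : {V : Pl L | Over V w ∧ nm V = nm w} =
      ((((PB L x).filter (fun V => dn K V ∉ Bd ∧ (nm V).Prime ∧ ¬ Above p (dn K V))).filter
        (fun V => dn K V = w) : Finset (Pl L)) : Set (Pl L)) := by
    ext V
    rw [Finset.mem_coe, Finset.mem_filter, Finset.mem_filter, mem_PB, Set.mem_ofPred_eq]
    constructor
    · rintro ⟨h5, h6⟩
      have h7 : dn K V = w := dn_eq K h5
      rw [h7, h6]
      exact ⟨⟨h1, h2, h3, h4⟩, rfl⟩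
    · rintro ⟨⟨h5, h6, h7, h8⟩, h9⟩
      refine ⟨?_, ?_⟩
      · rw [← h9]
        exact dn_over K V
      · rw [← h9, nm_dn K h7]
  rw [hset, finsum_mem_coe_finset]


theorem smc {p : ℕ} (hp0 : p ≠ 0) (K : IntermediateField ℚ QBar) [NumberField K] (b A : ℕ) {C1 : ℝ} (hC1 : 1 ≤ C1) :
    ∃ C X₀ : ℝ, 1 ≤ C ∧ 3 ≤ X₀ ∧ ∀ (G : Type) [Group G] [Fintype G] (φ : Gal(QBar/K) →* G) (H : Subgroup G)
      (ψ : G → ZMod p) (B Bd : Finset (Pl K)) (Q : DP K QBar) (E : IntermediateField K QBar) [NumberField E]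
      (χ : RC E (md (mB p B) E)) (C0 : ℝ), Fintype.card G ≤ b → Lt p b C0 φ B H ψ E χ → B ⊆ Bd → ∀ x : ℝ, X₀ ≤ x →
      ‖∑ w ∈ PB E x, χ.χ w.asIdeal‖ ≤ C1 * (x * Real.log x ^ (-(A : ℝ))) →
      ‖sg x Bd (fun w => mi φ H ψ (fr Q w))‖ ≤ C * (x * Real.log x ^ (-(A : ℝ))) + C * Bd.card := by
  obtain ⟨nK, hnK⟩ : ∃ nK : ℕ, nK = Module.finrank ℚ K := ⟨_, rfl⟩
  obtain ⟨nm', hnm'⟩ : ∃ nm' : ℕ, nm' = nK * b := ⟨_, rfl⟩
  have hfin : {v : Pl K | Above p v}.Finite := finite_above hp0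
  obtain ⟨Pab, hPab⟩ : ∃ Pab : Finset (Pl K), Pab = hfin.toFinset := ⟨_, rfl⟩
  have hPm : ∀ v : Pl K, v ∈ Pab ↔ Above p v := by
    intro v
    rw [hPab, Set.Finite.mem_toFinset]
    exact Iff.rfl
  -- large `x`
  have hl2 : ∀ᶠ x : ℝ in Filter.atTop, Real.log x ^ (A : ℝ) ≤ 1 * x ^ (1 / 2 : ℝ) := by
    have h := (isLittleO_log_rpow_rpow_atTop (A : ℝ) (show (0 : ℝ) < 1 / 2 by norm_num)).bound one_pos
    filter_upwards [h, Filter.eventually_ge_atTop (1 : ℝ)] with x hx hx1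
    have h3 : 0 ≤ Real.log x := Real.log_nonneg hx1
    rw [Real.norm_of_nonneg (Real.rpow_nonneg h3 _), Real.norm_of_nonneg (Real.rpow_nonneg (by linarith) _)] at hx
    exact hx
  obtain ⟨X1, hX1⟩ := Filter.eventually_atTop.1 (hl2.and
    (Real.tendsto_log_atTop.eventually_ge_atTop 1))
  obtain ⟨Ct, hCt⟩ : ∃ Ct : ℝ, Ct = C1 + nm' + b * Pab.card + b * nK + b * Pab.card + b + 1 :=
    ⟨_, rfl⟩
  have hb0 : (0 : ℝ) ≤ b := Nat.cast_nonneg _
  have hnK0 : (0 : ℝ) ≤ nK := Nat.cast_nonneg _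
  have hnm0 : (0 : ℝ) ≤ nm' := Nat.cast_nonneg _
  have hPc0 : (0 : ℝ) ≤ Pab.card := Nat.cast_nonneg _
  refine ⟨Ct, max X1 3, ?_, le_max_right _ _, ?_⟩
  · rw [hCt]
    have h3 : 0 ≤ (b : ℝ) * Pab.card := by positivity
    have h4 : 0 ≤ (b : ℝ) * nK := by positivity
    linarith
  intro G _ _ φ H ψ B Bd Q E _ χ C0 hG hL hBd x hx hsumE
  obtain ⟨hxb, hxc⟩ := hX1 x ((le_max_left _ _).trans hx)
  have hx3 : 3 ≤ x := (le_max_right _ _).trans hx
  have hx0 : 0 < x := by linarith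
  have hlx0 : 0 < Real.log x := lt_of_lt_of_le one_pos hxc
  have hEb : Module.finrank K E ≤ b := hL.deg
  have hEQ' : Module.finrank ℚ E ≤ nm' := by
    rw [hnm', hnK, ← Module.finrank_mul_finrank ℚ K E]
    exact Nat.mul_le_mul_left _ hEb
  have hsx : √x = x ^ (1 / 2 : ℝ) := Real.sqrt_eq_rpow x
  have hmain : x ^ (1 / 2 : ℝ) ≤ x * Real.log x ^ (-(A : ℝ)) := by
    rw [Real.rpow_neg hlx0.le, ← div_eq_mul_inv, le_div_iff₀ (Real.rpow_pos_of_pos hlx0 _)]
    calc x ^ (1 / 2 : ℝ) * Real.log x ^ (A : ℝ) ≤ x ^ (1 / 2 : ℝ) * (1 * x ^ (1 / 2 : ℝ)) :=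
          mul_le_mul_of_nonneg_left hxb (Real.rpow_nonneg hx0.le _)
      _ = x := by
          rw [one_mul, ← Real.rpow_add hx0]
          norm_num
  have h1s : 1 ≤ x ^ (1 / 2 : ℝ) := Real.one_le_rpow (by linarith) (by norm_num)
  obtain ⟨X, hX⟩ : ∃ X : ℝ, X = x * Real.log x ^ (-(A : ℝ)) := ⟨_, rfl⟩
  rw [← hX] at hmain hsumE ⊢
  have hT : ‖∑ V ∈ (PB E x).filter (fun V => dn K V ∉ Bd ∧ (nm V).Prime ∧ ¬ Above p (dn K V)),
      χ.χ V.asIdeal‖ ≤ C1 * X + (nm' * x ^ (1 / 2 : ℝ) + b * (Pab.card + Bd.card)) := by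
    have h1 : ∑ V ∈ (PB E x).filter (fun V => dn K V ∉ Bd ∧ (nm V).Prime ∧ ¬ Above p (dn K V)), χ.χ V.asIdeal =
        ∑ V ∈ PB E x, χ.χ V.asIdeal -
        ∑ V ∈ (PB E x).filter (fun V => ¬ (dn K V ∉ Bd ∧ (nm V).Prime ∧ ¬ Above p (dn K V))), χ.χ V.asIdeal := by
      rw [eq_sub_iff_add_eq, Finset.sum_filter_add_sum_filter_not]
    rw [h1]
    refine (norm_sub_le _ _).trans (add_le_add hsumE ?_)
    have h2 : ‖∑ V ∈ (PB E x).filter (fun V => ¬ (dn K V ∉ Bd ∧ (nm V).Prime ∧ ¬ Above p (dn K V))),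
        χ.χ V.asIdeal‖ ≤
        (((PB E x).filter (fun V => ¬ (dn K V ∉ Bd ∧ (nm V).Prime ∧ ¬ Above p (dn K V)))).card : ℝ) := by
      refine (norm_sum_le _ _).trans ?_
      refine (Finset.sum_le_card_nsmul _ _ 1 fun V _ => smc_one _ _ V.ne_bot).trans ?_
      rw [nsmul_eq_mul, mul_one]
    refine h2.trans ?_
    have h3 : (PB E x).filter (fun V => ¬ (dn K V ∉ Bd ∧ (nm V).Prime ∧ ¬ Above p (dn K V))) ⊆
        ((PB E x).filter fun V => ¬ (nm V).Prime) ∪ ((PB E x).filter fun V => dn K V ∈ Pab ∪ Bd) := by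
      intro V hV
      obtain ⟨h4, h5⟩ := Finset.mem_filter.1 hV
      rw [Finset.mem_union, Finset.mem_filter, Finset.mem_filter]
      by_cases h6 : (nm V).Prime
      · right
        refine ⟨h4, ?_⟩
        rw [Finset.mem_union, hPm]
        by_contra h7
        rw [not_or] at h7
        exact h5 ⟨h7.2, h6, h7.1⟩
      · left
        exact ⟨h4, h6⟩
    have h4 := (Finset.card_le_card h3).trans (Finset.card_union_le _ _)
    have h5 : (((PB E x).filter (fun V => ¬ (dn K V ∉ Bd ∧ (nm V).Prime ∧ ¬ Above p (dn K V)))).card : ℝ) ≤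
        (((PB E x).filter fun V => ¬ (nm V).Prime).card : ℝ) +
          (((PB E x).filter fun V => dn K V ∈ Pab ∪ Bd).card : ℝ) := by exact_mod_cast h4
    have h6 := smc_np (L := E) (x := x)
    have h7 := smc_dn (K := K) (L := E) (Pab ∪ Bd) ((PB E x).filter fun V => dn K V ∈ Pab ∪ Bd)
      (fun w hw => (Finset.mem_filter.1 hw).2)
    have h8 : ((Pab ∪ Bd).card : ℝ) ≤ Pab.card + Bd.card := by exact_mod_cast Finset.card_union_le _ _
    have h9 : (Module.finrank ℚ E : ℝ) ≤ nm' := by exact_mod_cast hEQ'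
    have h10 : (Module.finrank K E : ℝ) ≤ b := by exact_mod_cast hEb
    rw [hsx] at h6
    have h11 : (Module.finrank ℚ E : ℝ) * x ^ (1 / 2 : ℝ) ≤ nm' * x ^ (1 / 2 : ℝ) :=
      mul_le_mul_of_nonneg_right h9 (by linarith)
    have h12 : (Module.finrank K E : ℝ) * ((Pab ∪ Bd).card : ℝ) ≤ b * (Pab.card + Bd.card) :=
      mul_le_mul h10 h8 (Nat.cast_nonneg _) hb0
    linarith
  -- the sum over the good primes
  have hgood : ∑ w ∈ (PB K x).filter (fun w => w ∉ Bd ∧ (nm w).Prime ∧ ¬ Above p w), mi φ H ψ (fr Q w) =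
      ∑ V ∈ (PB E x).filter (fun V => dn K V ∉ Bd ∧ (nm V).Prime ∧ ¬ Above p (dn K V)), χ.χ V.asIdeal := by
    rw [← smc_d1 (K := K) χ p x Bd]
    refine Finset.sum_congr rfl fun w hw => ?_
    obtain ⟨-, h2, h3, h4⟩ := Finset.mem_filter.1 hw
    rw [hL.d1 Q w h4 (fun h => h2 (hBd h)) h3]
    rfl
  have hsplit : sg x Bd (fun w => mi φ H ψ (fr Q w)) =
      ∑ w ∈ (PB K x).filter (fun w => w ∉ Bd ∧ (nm w).Prime ∧ ¬ Above p w), mi φ H ψ (fr Q w) +
      ∑ w ∈ ((PB K x).filter (fun w => w ∉ Bd)).filter (fun w => ¬ ((nm w).Prime ∧ ¬ Above p w)), mi φ H ψ (fr Q w) := by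
    unfold sg
    rw [← Finset.sum_filter_add_sum_filter_not ((PB K x).filter (fun w => w ∉ Bd)) (fun w => (nm w).Prime ∧ ¬ Above p w),
      Finset.filter_filter]
  have hbad : ‖∑ w ∈ ((PB K x).filter (fun w => w ∉ Bd)).filter (fun w => ¬ ((nm w).Prime ∧ ¬ Above p w)),
      mi φ H ψ (fr Q w)‖ ≤ b * (nK * x ^ (1 / 2 : ℝ) + Pab.card) := by
    have h1 : ‖∑ w ∈ ((PB K x).filter (fun w => w ∉ Bd)).filter (fun w => ¬ ((nm w).Prime ∧ ¬ Above p w)),
        mi φ H ψ (fr Q w)‖ ≤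
        ((((PB K x).filter (fun w => w ∉ Bd)).filter (fun w => ¬ ((nm w).Prime ∧ ¬ Above p w))).card : ℝ) * b := by
      refine (norm_sum_le _ _).trans ?_
      refine (Finset.sum_le_card_nsmul _ _ (b : ℝ) fun w _ => ?_).trans ?_
      · rw [mj_mi]
        exact (mj_bd H ψ _).trans (by exact_mod_cast hG)
      · rw [nsmul_eq_mul]
    refine h1.trans ?_
    rw [mul_comm]
    refine mul_le_mul_of_nonneg_left ?_ hb0
    have h3 : ((PB K x).filter (fun w => w ∉ Bd)).filter (fun w => ¬ ((nm w).Prime ∧ ¬ Above p w)) ⊆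
        ((PB K x).filter fun V => ¬ (nm V).Prime) ∪ Pab := by
      intro V hV
      obtain ⟨h4, h5⟩ := Finset.mem_filter.1 hV
      have h4' := (Finset.mem_filter.1 h4).1
      rw [Finset.mem_union, Finset.mem_filter, hPm]
      by_cases h6 : (nm V).Prime
      · right
        by_contra h7
        exact h5 ⟨h6, h7⟩
      · left
        exact ⟨h4', h6⟩
    have h4 := (Finset.card_le_card h3).trans (Finset.card_union_le _ _)
    have h5 : ((((PB K x).filter (fun w => w ∉ Bd)).filter (fun w => ¬ ((nm w).Prime ∧ ¬ Above p w))).card : ℝ) ≤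
        (((PB K x).filter fun V => ¬ (nm V).Prime).card : ℝ) + (Pab.card : ℝ) := by exact_mod_cast h4
    have h6 := smc_np (L := K) (x := x)
    rw [hsx, ← hnK] at h6
    linarith
  rw [hsplit, hgood]
  refine (norm_add_le _ _).trans ?_
  refine (add_le_add hT hbad).trans ?_
  have hX1' : 1 ≤ X := h1s.trans hmain
  have hBc0 : (0 : ℝ) ≤ Bd.card := Nat.cast_nonneg _
  have e1 : (nm' : ℝ) * x ^ (1 / 2 : ℝ) ≤ nm' * X := mul_le_mul_of_nonneg_left hmain hnm0
  have e2 : (b : ℝ) * (nK * x ^ (1 / 2 : ℝ)) ≤ b * nK * X := by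
    rw [← mul_assoc]
    exact mul_le_mul_of_nonneg_left hmain (by positivity)
  have e4 : (b : ℝ) * Pab.card ≤ b * Pab.card * X := le_mul_of_one_le_right (by positivity) hX1'
  have e5 : 0 ≤ (b + 1) * X := by positivity
  have e6 : 0 ≤ (C1 + nm' + b * Pab.card + b * nK + b * Pab.card + 1) * Bd.card := by
    have : 0 ≤ C1 := by linarith
    positivity
  calc C1 * X + (nm' * x ^ (1 / 2 : ℝ) + b * (Pab.card + Bd.card)) + b * (nK * x ^ (1 / 2 : ℝ) + Pab.card)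
      = C1 * X + nm' * x ^ (1 / 2 : ℝ) + b * Pab.card + b * Bd.card +
        b * (nK * x ^ (1 / 2 : ℝ)) + b * Pab.card := by ring
    _ ≤ C1 * X + nm' * X + b * Pab.card * X + b * Bd.card + b * nK * X + b * Pab.card * X := by
        linarith
    _ ≤ Ct * X + Ct * Bd.card := by
        rw [hCt]
        nlinarith [e5, e6]

end H93.G2
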