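import Pool.Agent.H93.G2.Exc
import Pool.Agent.H93.G2.Smc
import Pool.Agent.H93.G2.Lsw

/-!
# H93 G2 SMY: the small part of GP for `p = 2`

`smy`: the statement `SmX` for `2`-groups, from `lor_all` (lower bounds of `L`-series), `lsw` (prime sums), `exc` (exceptional set), `smc` (conversion).
-/

set_option autoImplicit false

open scoped NumberField Pointwise Classical
open IsDedekindDomain H63.MA NumberField H36.QA H57.LI H57.LC H67.SX H38.ML H57.SL H57.AN H57.GP H57.GP.Q H57.GP.Q.E H1.PN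

noncomputable section

namespace H93.G2

section grp

variable {G : Type} [Group G] {p : ℕ}

private theorem smy_one {H : Subgroup G} {ψ : G → ZMod p} (h : Lc H ψ) : ψ 1 = 0 := by
  have h1 := h 1 (one_mem _) 1 (one_mem _)
  rw [mul_one] at h1
  exact left_eq_add.1 h1

/-- the normal core of the kernel -/
def kc (H : Subgroup G) (ψ : G → ZMod p) (h : Lc H ψ) : Subgroup G where
  carrier := {y | ∀ x : G, x⁻¹ * y * x ∈ H ∧ ψ (x⁻¹ * y * x) = 0}
  one_mem' := by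
    intro x
    rw [mul_one, inv_mul_cancel]
    exact ⟨one_mem _, smy_one h⟩
  mul_mem' := by
    intro a b ha hb x
    have e : x⁻¹ * (a * b) * x = (x⁻¹ * a * x) * (x⁻¹ * b * x) := by group
    rw [e]
    obtain ⟨h1, h2⟩ := ha x
    obtain ⟨h3, h4⟩ := hb x
    exact ⟨mul_mem h1 h3, by rw [h _ h1 _ h3, h2, h4, add_zero]⟩
  inv_mem' := by
    intro a ha x
    obtain ⟨h1, h2⟩ := ha x
    have e : x⁻¹ * a⁻¹ * x = (x⁻¹ * a * x)⁻¹ := by group
    rw [e]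
    refine ⟨inv_mem h1, ?_⟩
    have h3 := h _ h1 _ (inv_mem h1)
    rw [mul_inv_cancel, smy_one h, h2, zero_add] at h3
    exact h3.symm

theorem kc_mem (H : Subgroup G) (ψ : G → ZMod p) (h : Lc H ψ) (y : G) :
    y ∈ kc H ψ h ↔ ∀ x : G, x⁻¹ * y * x ∈ H ∧ ψ (x⁻¹ * y * x) = 0 := Iff.rfl

theorem kc_nor (H : Subgroup G) (ψ : G → ZMod p) (h : Lc H ψ) : (kc H ψ h).Normal := by
  refine ⟨fun y hy g x => ?_⟩
  have e : x⁻¹ * (g * y * g⁻¹) * x = (g⁻¹ * x)⁻¹ * y * (g⁻¹ * x) := by group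
  rw [e]
  exact hy _

theorem kc_le (H : Subgroup G) (ψ : G → ZMod p) (h : Lc H ψ) : kc H ψ h ≤ H := by
  intro y hy
  have := (hy 1).1
  simpa using this

theorem kc_zero (H : Subgroup G) (ψ : G → ZMod p) (h : Lc H ψ) : ∀ y ∈ kc H ψ h, ψ y = 0 := by
  intro y hy
  have := (hy 1).2
  simpa using this

end grp

variable {K : IntermediateField ℚ QBar} [NumberField K]

/-- the small part -/
theorem smy {k b : ℕ} (hSt : Stg k b K) : ∃ c : ℝ, 0 < c ∧ ∀ A D : ℕ, ∃ C Z₀ : ℝ, 1 ≤ C ∧ 3 ≤ Z₀ ∧ ∀ Z : ℝ, Z₀ ≤ Z →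
    ∃ e : Finset (Pl K), Real.log Z ^ D ≤ nr e ∧
    ∀ (G : Type) [Group G] [Fintype G] (φ : Gal(QBar/K) →* G) (H : Subgroup G) (ψ : G → ZMod (2 ^ k))
      (B Bd : Finset (Pl K)) (Q : DP K QBar), Fintype.card G ≤ b → IsPGroup 2 G →
      Function.Surjective φ → Ft φ → Lc H ψ → (∀ l, ¬ Above (2 ^ k) l → l ∉ B → Ud φ H ψ l) →
      Np φ H ψ → B ⊆ Bd → nr B ≤ Z → ¬ e ⊆ B → ∀ x : ℝ, 1 ≤ x → 1 + Real.log Z ≤ Real.log x ^ c →
      ‖sg x Bd (fun w => mi φ H ψ (fr Q w))‖ ≤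
        C * (x * Real.log x ^ (-(A : ℝ))) + C * Bd.card := by
  obtain ⟨c1, a1, hc1, hexc⟩ := exc hSt
  obtain ⟨C2, A2, hC2, hlor⟩ := lor_all hSt hc1 a1
  choose cs hcs hcs1 hS using fun n : ℕ => lsw n C2 A2 hC2
  obtain ⟨N, hN⟩ : ∃ N : ℕ, N = Module.finrank ℚ K * b := ⟨_, rfl⟩
  have hne : (Finset.range (N + 1)).Nonempty := ⟨0, Finset.mem_range.2 (Nat.succ_pos _)⟩
  obtain ⟨c0, hc0⟩ : ∃ c0 : ℝ, c0 = (Finset.range (N + 1)).inf' hne cs := ⟨_, rfl⟩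
  have hc0n : ∀ n ≤ N, c0 ≤ cs n := by
    intro n hn
    rw [hc0]
    exact Finset.inf'_le _ (Finset.mem_range.2 (by omega))
  have hc0p : 0 < c0 := by
    rw [hc0, Finset.lt_inf'_iff]
    exact fun n _ => hcs n
  have hc01 : c0 ≤ 1 := (hc0n 0 (Nat.zero_le _)).trans (hcs1 0)
  refine ⟨c0 / 2, by positivity, fun A D => ?_⟩
  choose Cs hCs hS' using fun n : ℕ => hS n A
  obtain ⟨C3, hC3⟩ : ∃ C3 : ℝ, C3 = ∑ n ∈ Finset.range (N + 1), Cs n := ⟨_, rfl⟩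
  have hC3n : ∀ n ≤ N, Cs n ≤ C3 := by
    intro n hn
    rw [hC3]
    exact Finset.single_le_sum (f := Cs) (fun i _ => by linarith [hCs i]) (Finset.mem_range.2 (by omega))
  have hC31 : 1 ≤ C3 := (hCs 0).trans (hC3n 0 (Nat.zero_le _))
  obtain ⟨C4, X0, hC4, hX0, hsmc⟩ := smc hSt.pq.ne_zero K b A hC31
  obtain ⟨Z1, hZ1, hexc'⟩ := hexc D
  refine ⟨C4, max (max Z1 X0) (Real.exp C2), hC4, hZ1.trans ((le_max_left _ _).trans (le_max_left _ _)), fun Z hZ => ?_⟩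
  have hZ1' : Z1 ≤ Z := ((le_max_left _ _).trans (le_max_left _ _)).trans hZ
  have hZX : X0 ≤ Z := ((le_max_right _ _).trans (le_max_left _ _)).trans hZ
  have hZe : Real.exp C2 ≤ Z := (le_max_right _ _).trans hZ
  have hZ3 : 3 ≤ Z := hZ1.trans hZ1'
  have hZ0 : 0 < Z := by linarith
  have hLC : C2 ≤ Real.log Z := (Real.le_log_iff_exp_le hZ0).2 hZe
  obtain ⟨e, he, hexc2⟩ := hexc' Z hZ1'
  refine ⟨e, he, ?_⟩
  intro G _ _ φ H ψ B Bd Q hcard hG hsur hft hψ hU hNp hBd hB heB x hx hxZ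
  obtain ⟨W, hW⟩ : ∃ W : ℝ, W = Real.log Z := ⟨_, rfl⟩
  have hWB : Real.log (nr B) ≤ W := by
    rw [hW]
    exact Real.log_le_log (by linarith [nr_one B]) hB
  have hW0 : 1 ≤ W := by linarith
  rw [← hW] at hxZ hLC
  -- the size of `x`
  have hlx0 : 0 ≤ Real.log x := Real.log_nonneg hx
  have hlx1 : 1 ≤ Real.log x := by
    by_contra hlt
    rw [not_le] at hlt
    have h1 : Real.log x ^ (c0 / 2) ≤ 1 := Real.rpow_le_one hlx0 hlt.le (by positivity)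
    linarith
  have hlxW : 1 + W ≤ Real.log x := by
    refine hxZ.trans ?_
    calc Real.log x ^ (c0 / 2) ≤ Real.log x ^ (1 : ℝ) := Real.rpow_le_rpow_of_exponent_le hlx1 (by linarith)
      _ = Real.log x := Real.rpow_one _
  have hxZ' : Z ≤ x := by
    have h1 : Real.log Z ≤ Real.log x := by linarith
    exact (Real.log_le_log_iff hZ0 (by linarith)).1 h1
  have hx3 : 3 ≤ x := hZ3.trans hxZ'
  -- the data
  have hSd : Sd (2 ^ k) b φ (kc H ψ hψ) B :=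
    ⟨hcard, hsur, hft, kc_nor H ψ hψ, fun l hl hlB P hP hPl τ hτ => hU l hl hlB P hP hPl τ hτ⟩
  have hne' : ∃ y ∈ H, ψ y ≠ 0 := by
    obtain ⟨σ, h1, h2⟩ := hNp 1
    exact ⟨_, h1, h2⟩
  obtain ⟨E, hnf, χ, hL, hLo⟩ := hlor G φ (kc H ψ hψ) B hSd W hWB hG Q (by
    intro μ hμ hμr hμn hμD
    have hRq : Rq (2 ^ k) (fun σ => μ (φ σ)) B := by
      refine ⟨fun σ τ => ?_, ?_, fun σ => hμr _, ?_, ?_⟩
      · show μ (φ (σ * τ)) = _
        rw [map_mul, hμ _ trivial _ trivial]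
      · obtain ⟨M, hM1, hM2⟩ := hft
        refine ⟨M, hM1, fun σ hσ => ?_⟩
        show μ (φ σ) = 0
        rw [hM2 σ hσ]
        exact smy_one hμ
      · obtain ⟨y, hy⟩ := hμn
        obtain ⟨σ, rfl⟩ := hsur y
        exact ⟨σ, hy⟩
      · intro l hl hlB P hP hPl τ hτ
        exact hμD _ (hSd.ram l hl hlB P hP hPl τ hτ)
    intro σ hσ hσ2
    rw [fm_fc hSt.pq φ B Q hμ (μ := fun σ => μ (φ σ)) (fun _ => rfl), hW]
    exact hexc2 B _ hRq hB heB Q σ hσ hσ2) H ψ (kc_le H ψ hψ) hψ (kc_zero H ψ hψ) hne'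
  have hEN : Module.finrank ℚ E ≤ N := by
    rw [hN, ← Module.finrank_mul_finrank ℚ K E]
    exact Nat.mul_le_mul_left _ hL.deg
  have hlx : Real.log x ^ (c0 / 2) * Real.log x ^ (c0 / 2) = Real.log x ^ c0 := by
    rw [← Real.rpow_add (by linarith)]
    congr 1
    ring
  have hpx : Real.log x ^ c0 ≤ Real.log x ^ cs (Module.finrank ℚ E) :=
    Real.rpow_le_rpow_of_exponent_le hlx1 (hc0n _ hEN)
  have hsum := hS' (Module.finrank ℚ E) E hL.tc _ hL.ne χ (1 + W) (by linarith) hLo x hx3 (by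
    refine hL.cond.trans (le_trans ?_ hpx)
    rw [← hlx]
    exact mul_le_mul (by linarith) (by linarith) (by linarith [lnr B]) (by linarith)) (by
    refine le_trans ?_ hpx
    refine hxZ.trans (Real.rpow_le_rpow_of_exponent_le hlx1 (by linarith)))
  refine hsmc G φ H ψ B Bd Q E χ C2 hcard hL hBd x (hZX.trans hxZ') (hsum.trans ?_)
  rw [mul_assoc]
  exact mul_le_mul_of_nonneg_right (hC3n _ hEN) (mul_nonneg (by linarith) (Real.rpow_nonneg hlx0 _))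

end H93.G2
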