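import Pool.Agent.H93.G2.Pts
import Pool.Agent.H57.G2.Chv
import Pool.Agent.H57.GP.Orb

/-!
# H93 G2 TRA: the L-series of a character of a subgroup and the prime sums over `K`

* `mj H ψ y = |H|^(-1) ∑_g th H ψ (g⁻¹ y g)` (so `mi φ H ψ σ = mj H ψ (φ σ)`). `Fc p B φ Q f`: the function `f (φ (fr w))` on the good primes.
* `Sd p b φ D B`: `φ` is onto, of finite type, the inertia groups outside `B` and `p` go to the normal subgroup `D`.
* `pt_lim`: the prime sum as a limit. `pt_tra`: comparison of the prime sums over `E` and `K`.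
-/

set_option autoImplicit false

open scoped NumberField Pointwise Classical
open IsDedekindDomain H63.MA NumberField H36.QA H57.LI H57.LC H67.SX H38.ML H57.SL H57.AN H57.GP H57.GP.Q H57.GP.Q.E H1.PN

noncomputable section

namespace H93.G2

section grp

variable {G : Type} [Group G] [Fintype G] {p : ℕ}

/-- the induced character as a function on the group -/
def mj (H : Subgroup G) (ψ : G → ZMod p) (y : G) : ℂ := (Fintype.card H : ℂ)⁻¹ * ∑ g : G, th H ψ (g⁻¹ * y * g)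

theorem mj_mi {K : IntermediateField ℚ QBar} [NumberField K] (φ : Gal(QBar/K) →* G) (H : Subgroup G) (ψ : G → ZMod p)
    (σ : Gal(QBar/K)) : mi φ H ψ σ = mj H ψ (φ σ) := rfl

theorem mj_bd (H : Subgroup G) (ψ : G → ZMod p) (y : G) : ‖mj H ψ y‖ ≤ Fintype.card G := by
  unfold mj
  rw [norm_mul, norm_inv, Complex.norm_natCast]
  have h1 : ‖∑ g : G, th H ψ (g⁻¹ * y * g)‖ ≤ Fintype.card G := by
    refine (norm_sum_le _ _).trans ?_
    have h3 : ∑ g : G, ‖th H ψ (g⁻¹ * y * g)‖ ≤ ∑ _g : G, (1 : ℝ) := by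
      refine Finset.sum_le_sum fun g _ => ?_
      unfold th
      split_ifs
      · exact (ep_norm _ _).le
      · rw [norm_zero]
        exact zero_le_one
    refine h3.trans (le_of_eq ?_)
    rw [Finset.sum_const, Finset.card_univ, nsmul_eq_mul, mul_one]
  have h2 : ((Fintype.card H : ℝ))⁻¹ ≤ 1 := by
    apply inv_le_one_of_one_le₀
    exact_mod_cast Nat.one_le_iff_ne_zero.2 Fintype.card_ne_zero
  calc ((Fintype.card H : ℝ))⁻¹ * ‖∑ g : G, th H ψ (g⁻¹ * y * g)‖ ≤ 1 * Fintype.card G :=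
        mul_le_mul h2 h1 (norm_nonneg _) zero_le_one
    _ = Fintype.card G := one_mul _

end grp

section gal

variable {K : IntermediateField ℚ QBar} [NumberField K] {G : Type} [Group G]

/-- the function on the good primes -/
def Fc (p : ℕ) (B : Finset (Pl K)) (φ : Gal(QBar/K) →* G) (Q : DP K QBar) (f : G → ℂ) (w : Pl K) : ℂ :=
  if w ∉ B ∧ ¬ Above p w ∧ (nm w).Prime then f (φ (fr Q w)) else 0

theorem fc_bd {p : ℕ} {B : Finset (Pl K)} {φ : Gal(QBar/K) →* G} {Q : DP K QBar} {f : G → ℂ} {b : ℝ} (hb : 0 ≤ b)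
    (h : ∀ y, ‖f y‖ ≤ b) (w : Pl K) : ‖Fc p B φ Q f w‖ ≤ b := by
  unfold Fc
  split_ifs
  · exact h _
  · rw [norm_zero]
    exact hb

/-- the data of one homomorphism -/
structure Sd [Fintype G] (p b : ℕ) (φ : Gal(QBar/K) →* G) (D : Subgroup G) (B : Finset (Pl K)) : Prop where
  card : Fintype.card G ≤ b
  sur : Function.Surjective φ
  ft : Ft φ
  nor : D.Normal
  ram : ∀ l : Pl K, ¬ Above p l → l ∉ B → ∀ P : Ideal (𝓞 QBar), P.IsPrime → P.under (𝓞 K) = l.asIdeal →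
    ∀ τ ∈ P.inertia Gal(QBar/K), φ τ ∈ D

end gal

section lim

variable {L : Type} [Field L] [NumberField L]

theorem pb_tendsto : Filter.Tendsto (fun x : ℝ => PB L x) Filter.atTop Filter.atTop := by
  refine Filter.tendsto_atTop_finset_of_monotone ?_ ?_
  · intro x y hxy w hw
    rw [mem_PB] at hw ⊢
    exact hw.trans hxy
  · intro w
    exact ⟨nm w, mem_PB.2 le_rfl⟩

theorem pt_lim {F : Pl L → ℂ} {b : ℝ} (hF : ∀ w, ‖F w‖ ≤ b) {s : ℂ} (hs : 1 < s.re) :
    Filter.Tendsto (fun x : ℝ => ∑ w ∈ PB L x, (F w * (nm w : ℂ) ^ (-s)).re) Filter.atTop (nhds (PT F s)) :=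
  (pt_sum hF hs).hasSum.comp pb_tendsto

end lim

section sum

variable {K : IntermediateField ℚ QBar} [NumberField K]

private theorem tra_mem (E : IntermediateField K QBar)
    (σ : Gal(QBar/K)) : σ ∈ E.fixingSubgroup ↔ ac σ E.val = E.val := by
  rw [IntermediateField.mem_fixingSubgroup_iff]
  constructor
  · intro h
    exact AlgHom.ext fun x => h x x.2
  · intro h x hx
    exact DFunLike.congr_fun h (⟨x, hx⟩ : E)

private theorem tra_conj (E : IntermediateField K QBar)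
    (φ τ : Gal(QBar/K)) : ac φ (ac τ E.val) = ac τ E.val ↔ τ⁻¹ * φ * τ ∈ E.fixingSubgroup := by
  rw [tra_mem, ac_mul, ac_mul]
  constructor
  · intro h
    rw [h, ← ac_mul, inv_mul_cancel, ac_one]
  · intro h
    have h1 := congrArg (ac τ) h
    rw [← ac_mul τ τ⁻¹, mul_inv_cancel, ac_one] at h1
    exact h1

private theorem tra_one {p : ℕ} (E : IntermediateField K QBar) [NumberField E] (θ : Gal(QBar/K) → ZMod p) (B : Finset (Pl K))
    (hT : Th p E θ B) (χ : RC E (md (mB p B) E)) (hV : Vl p E θ B χ) (Γ' : Subgroup Gal(QBar/K))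
    (hΓ : E.fixingSubgroup = Γ') (Q : DP K QBar) (l : Pl K) (hl : ¬ Above p l) (hlB : l ∉ B)
    (hnp : (nm l).Prime) (f : Gal(QBar/K) → ℂ)
    (hf : ∀ τ, f τ = if τ⁻¹ * fr Q l * τ ∈ Γ' then ep p (θ (τ⁻¹ * fr Q l * τ)) else 0) :
    d1 K χ.χ l = ∑ᶠ q : Gal(QBar/K) ⧸ Γ', f q.out := by
  subst hΓ
  have hIT : IT QBar E l := th_IT E θ B hT l hl hlB
  have h1 : d1 K χ.χ l = ∑ᶠ ι ∈ fx E (fr Q l), χ.χ (pe E Q l ι).asIdeal :=
    dic_sum E Q l hIT (fun w => χ.χ w.asIdeal)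
  have hout : ∀ q q' : Gal(QBar/K) ⧸ E.fixingSubgroup, ac q.out E.val = ac q'.out E.val → q = q' := by
    intro q q' h
    have h2 := (fld_emb E q.out q'.out).1 h
    have h3 := QuotientGroup.eq.2 h2
    rwa [QuotientGroup.out_eq', QuotientGroup.out_eq'] at h3
  let e : (Gal(QBar/K) ⧸ E.fixingSubgroup) → (E →ₐ[K] QBar) := fun q => ac q.out E.val
  have he : Function.Bijective e := by
    refine ⟨fun q q' h => hout q q' h, fun ι => ?_⟩
    obtain ⟨τ, hτ⟩ := emb_tr E E.val ι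
    refine ⟨(τ : Gal(QBar/K) ⧸ E.fixingSubgroup), ?_⟩
    rw [hτ]
    show ac (Quotient.out (τ : Gal(QBar/K) ⧸ E.fixingSubgroup)) E.val = ac τ E.val
    rw [fld_emb]
    apply QuotientGroup.eq.1
    exact QuotientGroup.out_eq' _
  rw [h1, finsum_mem_def]
  refine (finsum_eq_of_bijective e he fun q => ?_).symm
  rw [hf]
  by_cases hq : (q.out)⁻¹ * fr Q l * q.out ∈ E.fixingSubgroup
  · rw [if_pos hq, Set.indicator_of_mem]
    · exact (hV Q l hl hlB hnp q.out hq).symm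
    · exact (tra_conj E (fr Q l) q.out).2 hq
  · rw [if_neg hq, Set.indicator_of_notMem]
    intro hc
    exact hq ((tra_conj E (fr Q l) q.out).1 hc)

private theorem tra_cos {G : Type} [Group G] [Fintype G] (H : Subgroup G) (f : G → ℂ)
    (hf : ∀ g, ∀ h ∈ H, f (g * h) = f g) :
    ∑ g : G, f g = (Fintype.card H : ℂ) * ∑ c : G ⧸ H, f c.out := by
  have hb : Function.Bijective fun z : (G ⧸ H) × H => z.1.out * (z.2 : G) := by
    constructor
    · rintro ⟨c, h⟩ ⟨c', h'⟩ he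
      have he1 : c.out * (h : G) = c'.out * (h' : G) := he
      have h1 : c = c' := by
        have h2 : (QuotientGroup.mk (c.out * (h : G)) : G ⧸ H) = QuotientGroup.mk (c'.out * (h' : G)) := by rw [he1]
        rw [QuotientGroup.mk_mul_of_mem _ h.2, QuotientGroup.mk_mul_of_mem _ h'.2] at h2
        rw [← QuotientGroup.out_eq' c, ← QuotientGroup.out_eq' c']
        exact h2
      subst h1
      have h3 : (h : G) = (h' : G) := mul_left_cancel he1
      exact Prod.ext rfl (Subtype.ext h3)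
    · intro g
      have h1 : (QuotientGroup.mk ((QuotientGroup.mk g : G ⧸ H).out) : G ⧸ H) = QuotientGroup.mk g :=
        QuotientGroup.out_eq' _
      refine ⟨(QuotientGroup.mk g, ⟨_, QuotientGroup.eq.1 h1⟩), ?_⟩
      change (QuotientGroup.mk g : G ⧸ H).out * ((QuotientGroup.mk g : G ⧸ H).out⁻¹ * g) = g
      rw [mul_inv_cancel_left]
  rw [← Equiv.sum_comp (Equiv.ofBijective _ hb) f, Fintype.sum_prod_type, Finset.mul_sum]
  refine Finset.sum_congr rfl fun c _ => ?_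
  have h1 : ∀ h : H, f ((Equiv.ofBijective _ hb) (c, h)) = f c.out := fun h => hf c.out h h.2
  rw [Finset.sum_congr rfl fun h _ => h1 h, Finset.sum_const, Finset.card_univ, nsmul_eq_mul]

private theorem tra_sum {Γ G : Type} [Group Γ] [Group G] [Fintype G] (φ : Γ →* G) (hφ : Function.Surjective φ)
    (H : Subgroup G) (f : G → ℂ) (hf : ∀ g, ∀ h ∈ H, f (g * h) = f g) :
    ∑ g : G, f g = (Fintype.card H : ℂ) * ∑ᶠ q : Γ ⧸ H.comap φ, f (φ q.out) := by
  rw [tra_cos H f hf]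
  congr 1
  let e : (Γ ⧸ H.comap φ) → G ⧸ H := fun q => QuotientGroup.mk (φ q.out)
  have he : Function.Bijective e := by
    constructor
    · intro q q' h
      have h1 : (φ q.out)⁻¹ * φ q'.out ∈ H := QuotientGroup.eq.1 h
      rw [← map_inv, ← map_mul] at h1
      have h2 : (QuotientGroup.mk q.out : Γ ⧸ H.comap φ) = QuotientGroup.mk q'.out :=
        QuotientGroup.eq.2 (Subgroup.mem_comap.2 h1)
      rwa [QuotientGroup.out_eq', QuotientGroup.out_eq'] at h2
    · intro c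
      obtain ⟨σ, hσ⟩ := hφ c.out
      refine ⟨QuotientGroup.mk σ, ?_⟩
      have h1 : (QuotientGroup.mk ((QuotientGroup.mk σ : Γ ⧸ H.comap φ).out) : Γ ⧸ H.comap φ) = QuotientGroup.mk σ :=
        QuotientGroup.out_eq' _
      have h2 := QuotientGroup.eq.1 h1
      rw [Subgroup.mem_comap, map_mul, map_inv, hσ] at h2
      show (QuotientGroup.mk (φ (QuotientGroup.mk σ : Γ ⧸ H.comap φ).out) : G ⧸ H) = c
      rw [QuotientGroup.eq.2 h2]
      exact QuotientGroup.out_eq' _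
  have h1 : ∑ c : G ⧸ H, f c.out = ∑ᶠ c : G ⧸ H, f c.out := (finsum_eq_sum_of_fintype _).symm
  rw [h1]
  refine (finsum_eq_of_bijective e he fun q => ?_).symm
  have h2 : (QuotientGroup.mk (e q).out : G ⧸ H) = QuotientGroup.mk (φ q.out) := QuotientGroup.out_eq' _
  have h3 := hf (e q).out _ (QuotientGroup.eq.1 h2)
  rw [mul_inv_cancel_left] at h3
  exact h3

variable {G : Type} [Group G] [Fintype G]

/-- the field and the character -/
theorem tra {ℓ p : ℕ} (hp : PQ ℓ p) (hM : MQ ℓ p K) {ζ : K} (hζ : IsPrimitiveRoot ζ p) {b : ℕ} {φ : Gal(QBar/K) →* G}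
    {D : Subgroup G} {B : Finset (Pl K)} (hS : Sd p b φ D B) (H : Subgroup G) (ψ : G → ZMod p) (hψ : Lc H ψ) (hD : D ≤ H)
    (hD0 : ∀ y ∈ D, ψ y = 0) :
    ∃ (E : IntermediateField K QBar) (_ : NumberField E) (χ : RC E (md (mB p B) E)),
      Module.finrank K E ≤ b ∧ Th p E (fun σ => ψ (φ σ)) B ∧ E.fixingSubgroup = H.comap φ ∧
      ((∃ y ∈ H, ψ y ≠ 0) → χ.Non) ∧ ((∃ y ∈ H, ψ y + ψ y ≠ 0) → Non2 χ) ∧
      ∀ (Q : DP K QBar) (l : Pl K), ¬ Above p l → l ∉ B → (nm l).Prime → d1 K χ.χ l = mj H ψ (φ (fr Q l)) := by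
  obtain ⟨M, hM1, hM2⟩ := hS.ft
  have hMΓ : M.fixingSubgroup ≤ H.comap φ := by
    intro σ hσ
    rw [Subgroup.mem_comap, hM2 σ hσ]
    exact H.one_mem
  obtain ⟨E, hEfd, hEfix, hErank, hEidx⟩ := fld (H.comap φ) M hM1 hMΓ
  have hnf : NumberField E := NumberField.of_module_finite K E
  have hψ1 : ψ 1 = 0 := hD0 1 D.one_mem
  have hTh : Th p E (fun σ => ψ (φ σ)) B := by
    refine ⟨?_, ?_, ?_⟩
    · intro σ hσ τ hτ
      rw [hEfix, Subgroup.mem_comap] at hσ hτ
      show ψ (φ (σ * τ)) = _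
      rw [map_mul, hψ _ hσ _ hτ]
    · refine ⟨M, hM1, fun σ hσ => ⟨by rw [hEfix]; exact hMΓ hσ, ?_⟩⟩
      show ψ (φ σ) = 0
      rw [hM2 σ hσ, hψ1]
    · intro l hl hlB P hP hPl τ hτ
      have h := hS.ram l hl hlB P hP hPl τ hτ
      refine ⟨?_, hD0 _ h⟩
      rw [hEfix, Subgroup.mem_comap]
      exact hD h
  obtain ⟨χ, hV, hn1, hn2⟩ := H57.GP.Q.E.chv hp hM hζ E (fun σ => ψ (φ σ)) B hTh
  have hex : ∀ (P : ZMod p → Prop), (∃ y ∈ H, P (ψ y)) → ∃ σ ∈ E.fixingSubgroup, P (ψ (φ σ)) := by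
    rintro P ⟨y, hy, h⟩
    obtain ⟨σ, rfl⟩ := hS.sur y
    exact ⟨σ, by rw [hEfix]; exact hy, h⟩
  refine ⟨E, hnf, χ, ?_, hTh, hEfix, fun h => hn1 (hex (fun a => a ≠ 0) h), fun h => hn2 (hex (fun a => a + a ≠ 0) h), ?_⟩
  · rw [hErank]
    have h1 : (H.comap φ).index = H.index := Subgroup.index_comap_of_surjective _ hS.sur
    rw [h1]
    exact (Nat.le_of_dvd Fintype.card_pos (by
      have := Subgroup.index_dvd_card H
      rwa [Nat.card_eq_fintype_card] at this)).trans hS.card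
  · intro Q l hl hlB hnp
    have hinv : ∀ g : G, ∀ h ∈ H, th H ψ ((g * h)⁻¹ * φ (fr Q l) * (g * h)) =
        th H ψ (g⁻¹ * φ (fr Q l) * g) := by
      intro g h hh
      have e : (g * h)⁻¹ * φ (fr Q l) * (g * h) = h⁻¹ * (g⁻¹ * φ (fr Q l) * g) * h := by group
      rw [e]
      exact th_inv hψ _ h hh
    have h1 := tra_sum φ hS.sur H (fun g => th H ψ (g⁻¹ * φ (fr Q l) * g)) hinv
    have hc : (Fintype.card H : ℂ) ≠ 0 := by
      exact_mod_cast (Fintype.card_pos (α := H)).ne'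
    unfold mj
    rw [h1, ← mul_assoc, inv_mul_cancel₀ hc, one_mul]
    refine tra_one E (fun σ => ψ (φ σ)) B hTh χ hV (H.comap φ) hEfix Q l
      hl hlB hnp (fun τ => th H ψ ((φ τ)⁻¹ * φ (fr Q l) * (φ τ))) ?_
    intro τ
    have e : (φ τ)⁻¹ * φ (fr Q l) * (φ τ) = φ (τ⁻¹ * fr Q l * τ) := by
      rw [map_mul, map_mul, map_inv]
    simp only [e]
    unfold th
    rfl

end sum

end H93.G2
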