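import Pool.Agent.H93.G2.Tra
import Pool.Agent.H57.SL.Dsb
import Pool.Agent.H57.SL.Pcs

/-!
# H93 G2 TRB: comparison of the prime sums over `E` and `K`, the transfer lemma

* `pt_cmp`: `|PT χ s - PT F s| ≤ C`, `F w = d1 K χ w` on the good primes.
* `Lt`: what is known about the character `χ` of the field `E` which belongs to `(H, ψ)`: degree, conductor, `|L(s, χ)|` up to a constant
  is `exp (PT (mj H ψ) s)`. `trb`: existence.
-/

set_option autoImplicit false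

open scoped NumberField Pointwise Classical
open IsDedekindDomain H63.MA NumberField H36.QA H57.LI H57.LC H67.SX H38.ML H57.SL H57.AN H57.GP H57.GP.Q H57.GP.Q.E H1.PN

noncomputable section

namespace H93.G2

private theorem trb_one {L : Type} [Field L] [NumberField L] {𝔣 : Ideal (𝓞 L)} (χ : RC L 𝔣) (I : Ideal (𝓞 L)) (hI : I ≠ ⊥) :
    ‖χ.χ I‖ ≤ 1 := by
  by_cases h : IsCoprime I 𝔣
  · exact (χ.norm_one I hI h).le
  · rw [χ.zero_of I h, norm_zero]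
    exact zero_le_one

/-- the primes of degree one over good primes, with weights -/
private theorem trb_d1 {K : Type} [Field K] [NumberField K] {L : Type} [Field L] [NumberField L] [Algebra K L]
    {𝔣 : Ideal (𝓞 L)} (χ : RC L 𝔣) (p : ℕ) (x : ℝ) (B : Finset (Pl K)) (s : ℂ) :
    ∑ w ∈ (PB K x).filter (fun w => w ∉ B ∧ ¬ Above p w ∧ (nm w).Prime), d1 K χ.χ w * (nm w : ℂ) ^ (-s) =
      ∑ V ∈ (PB L x).filter (fun V => dn K V ∉ B ∧ ¬ Above p (dn K V) ∧ (nm V).Prime), χ.χ V.asIdeal * (nm V : ℂ) ^ (-s) := by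
  have hmap : ∀ V ∈ (PB L x).filter (fun V => dn K V ∉ B ∧ ¬ Above p (dn K V) ∧ (nm V).Prime),
      dn K V ∈ (PB K x).filter (fun w => w ∉ B ∧ ¬ Above p w ∧ (nm w).Prime) := by
    intro V hV
    obtain ⟨h1, h2, h4, h3⟩ := Finset.mem_filter.1 hV
    rw [mem_PB] at h1
    rw [Finset.mem_filter, mem_PB, nm_dn K h3]
    exact ⟨h1, h2, h4, h3⟩
  rw [← Finset.sum_fiberwise_of_maps_to hmap]
  refine Finset.sum_congr rfl fun w hw => ?_
  obtain ⟨h1, h2, h4, h3⟩ := Finset.mem_filter.1 hw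
  rw [mem_PB] at h1
  unfold d1
  have hset : {V : Pl L | Over V w ∧ nm V = nm w} =
      ((((PB L x).filter (fun V => dn K V ∉ B ∧ ¬ Above p (dn K V) ∧ (nm V).Prime)).filter
        (fun V => dn K V = w) : Finset (Pl L)) : Set (Pl L)) := by
    ext V
    rw [Finset.mem_coe, Finset.mem_filter, Finset.mem_filter, mem_PB, Set.mem_ofPred_eq]
    constructor
    · rintro ⟨h5, h6⟩
      have h7 : dn K V = w := dn_eq K h5
      rw [h7, h6]
      exact ⟨⟨h1, h2, h4, h3⟩, rfl⟩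
    · rintro ⟨⟨h5, h6, h8, h7⟩, h9⟩
      refine ⟨?_, ?_⟩
      · rw [← h9]
        exact dn_over K V
      · rw [← h9, nm_dn K h7]
  rw [hset, finsum_mem_coe_finset, Finset.sum_mul]
  refine Finset.sum_congr rfl fun V hV => ?_
  obtain ⟨h5, h6⟩ := Finset.mem_filter.1 hV
  obtain ⟨-, -, -, h8⟩ := Finset.mem_filter.1 h5
  rw [← h6, nm_dn K h8]

theorem pt_cmp (n : ℕ) : ∃ C : ℝ, 1 ≤ C ∧ ∀ (K L : Type) [Field K] [NumberField K] [Field L] [NumberField L] [Algebra K L],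
    Module.finrank ℚ L = n → ∀ (p : ℕ) (B : Finset (Pl K)) (𝔣 : Ideal (𝓞 L)) (χ : RC L 𝔣),
    (∀ V : Pl L, (dn K V ∈ B ∨ Above p (dn K V)) → χ.χ V.asIdeal = 0) → ∀ F : Pl K → ℂ,
    (∀ w, F w = if w ∉ B ∧ ¬ Above p w ∧ (nm w).Prime then d1 K χ.χ w else 0) → ∀ b : ℝ, (∀ w, ‖F w‖ ≤ b) →
    ∀ s : ℂ, 1 < s.re → |PT (fun V : Pl L => χ.χ V.asIdeal) s - PT F s| ≤ C := by
  obtain ⟨C, hC, hnp⟩ := npr n
  refine ⟨C, hC, ?_⟩
  intro K L _ _ _ _ _ hn p B 𝔣 χ h0 F hF b hb s hs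
  have hχb : ∀ V : Pl L, ‖χ.χ V.asIdeal‖ ≤ 1 := fun V => trb_one χ _ V.ne_bot
  have h1 := pt_lim (F := fun V : Pl L => χ.χ V.asIdeal) (b := 1) hχb hs
  have h2 := pt_lim (F := F) hb hs
  refine le_of_tendsto ((h1.sub h2).abs) (Filter.Eventually.of_forall fun x => ?_)
  have e1 : ∑ w ∈ PB K x, (F w * (nm w : ℂ) ^ (-s)).re =
      ∑ V ∈ (PB L x).filter (fun V => dn K V ∉ B ∧ ¬ Above p (dn K V) ∧ (nm V).Prime),
        (χ.χ V.asIdeal * (nm V : ℂ) ^ (-s)).re := by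
    rw [← Complex.re_sum, ← Complex.re_sum, ← trb_d1 χ p x B s]
    congr 1
    rw [Finset.sum_filter]
    refine Finset.sum_congr rfl fun w _ => ?_
    rw [hF]
    split_ifs
    · rfl
    · rw [zero_mul]
  have e2 : ∑ V ∈ PB L x, (χ.χ V.asIdeal * (nm V : ℂ) ^ (-s)).re =
      ∑ V ∈ (PB L x).filter (fun V => dn K V ∉ B ∧ ¬ Above p (dn K V) ∧ (nm V).Prime),
        (χ.χ V.asIdeal * (nm V : ℂ) ^ (-s)).re +
      ∑ V ∈ (PB L x).filter (fun V => ¬ (dn K V ∉ B ∧ ¬ Above p (dn K V) ∧ (nm V).Prime)),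
        (χ.χ V.asIdeal * (nm V : ℂ) ^ (-s)).re := (Finset.sum_filter_add_sum_filter_not _ _ _).symm
  rw [e1, e2, add_sub_cancel_left]
  have e3 : ∑ V ∈ (PB L x).filter (fun V => ¬ (dn K V ∉ B ∧ ¬ Above p (dn K V) ∧ (nm V).Prime)),
        (χ.χ V.asIdeal * (nm V : ℂ) ^ (-s)).re =
      ∑ V ∈ ((PB L x).filter (fun V => ¬ (dn K V ∉ B ∧ ¬ Above p (dn K V) ∧ (nm V).Prime))).filter (fun V => ¬ (nm V).Prime),
        (χ.χ V.asIdeal * (nm V : ℂ) ^ (-s)).re := by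
    symm
    apply Finset.sum_filter_of_ne
    intro V hV hne hp
    apply hne
    have h3 := (Finset.mem_filter.1 hV).2
    have h4 : dn K V ∈ B ∨ Above p (dn K V) := by
      by_contra h5
      rw [not_or] at h5
      exact h3 ⟨h5.1, h5.2, hp⟩
    rw [h0 V h4, zero_mul, Complex.zero_re]
  rw [e3]
  refine (Finset.abs_sum_le_sum_abs _ _).trans ((Finset.sum_le_sum fun V _ => ?_).trans
    (hnp L hn _ fun w hw => (Finset.mem_filter.1 hw).2))
  refine (term_le (F := fun V : Pl L => χ.χ V.asIdeal) hχb s V).trans ?_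
  have h3 := nm_pos V
  have h4 : (1 : ℝ) ≤ nm V := by exact_mod_cast h3
  rw [one_mul, one_div, ← Real.rpow_neg_one]
  exact Real.rpow_le_rpow_of_exponent_le h4 (by linarith)

section

variable {K : IntermediateField ℚ QBar} [NumberField K] {G : Type} [Group G] [Fintype G]

/-- the conductor -/
theorem trb_cond {ℓ p : ℕ} (hp : PQ ℓ p) (K : IntermediateField ℚ QBar) [NumberField K] (b : ℕ) :
    ∃ C2 : ℝ, 1 ≤ C2 ∧ ∀ (E : IntermediateField K QBar) [NumberField E] (θ : Gal(QBar/K) → ZMod p) (B : Finset (Pl K)),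
      Module.finrank K E ≤ b → Th p E θ B →
      Real.log (dd E * Ideal.absNorm (md (mB p B) E)) ≤ C2 * (1 + Real.log (nr B)) := by
  have hfin : {v : Pl K | Above p v}.Finite := finite_above hp.ne_zero
  choose Cd hCd hds using fun d : ℕ => dsb K d hfin.toFinset
  obtain ⟨D0, hD0⟩ : ∃ D0 : ℝ, D0 = ∑ d ∈ Finset.range (b + 1), Cd d := ⟨_, rfl⟩
  obtain ⟨q0, hq0⟩ : ∃ q0 : ℝ, q0 = ((p : ℝ) ^ 3) ^ Module.finrank ℚ K := ⟨_, rfl⟩
  have hp1 : (1 : ℝ) ≤ p := by exact_mod_cast hp.one_lt.le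
  have hq1 : 1 ≤ q0 := by rw [hq0]; exact one_le_pow₀ (one_le_pow₀ hp1)
  have hDd : ∀ d ≤ b, Cd d ≤ D0 := by
    intro d hd
    rw [hD0]
    exact Finset.single_le_sum (f := Cd) (fun i _ => by linarith [hCd i]) (Finset.mem_range.2 (by omega))
  have hD1 : 1 ≤ D0 := (hCd 0).trans (hDd 0 (Nat.zero_le _))
  refine ⟨Real.log D0 + b * Real.log q0 + 2 * b + 1, ?_, ?_⟩
  · have h1 := Real.log_nonneg hD1
    have h2 := Real.log_nonneg hq1
    have h3 : (0 : ℝ) ≤ b := Nat.cast_nonneg _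
    nlinarith [mul_nonneg h3 h2]
  intro E _ θ B hd hθ
  have hB1 := nr_one B
  have hB0 : 0 < nr B := by linarith
  have h1 : dd E ≤ D0 * nr B ^ b := by
    have h2 := hds (Module.finrank K E) E rfl B (fun l hl hlB => by
      refine th_IT E θ B hθ l (fun h => hl ?_) hlB
      rw [Set.Finite.mem_toFinset]
      exact h)
    refine h2.trans ?_
    exact mul_le_mul (hDd _ hd) (pow_le_pow_right₀ hB1 hd) (by positivity) (by linarith)
  have h2 : (Ideal.absNorm (md (mB p B) E) : ℝ) ≤ q0 ^ b * nr B ^ b := by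
    rw [mB_norm, ← hq0, ← mul_pow]
    exact pow_le_pow_right₀ (one_le_mul_of_one_le_of_one_le hq1 hB1) hd
  have h3 : 0 < dd E := dd_pos E
  have h4 : (0 : ℝ) < Ideal.absNorm (md (mB p B) E) := by
    rw [mB_norm, ← hq0]
    positivity
  have h5 : Real.log (dd E * Ideal.absNorm (md (mB p B) E)) ≤ Real.log ((D0 * nr B ^ b) * (q0 ^ b * nr B ^ b)) :=
    Real.log_le_log (mul_pos h3 h4) (mul_le_mul h1 h2 h4.le (by positivity))
  have hD0' : D0 ≠ 0 := by linarith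
  have hq0' : q0 ≠ 0 := by linarith
  have hB0' : nr B ≠ 0 := by linarith
  have hlog : Real.log ((D0 * nr B ^ b) * (q0 ^ b * nr B ^ b)) =
      Real.log D0 + b * Real.log (nr B) + (b * Real.log q0 + b * Real.log (nr B)) := by
    rw [Real.log_mul (mul_ne_zero hD0' (pow_ne_zero _ hB0')) (mul_ne_zero (pow_ne_zero _ hq0') (pow_ne_zero _ hB0')),
      Real.log_mul hD0' (pow_ne_zero _ hB0'), Real.log_mul (pow_ne_zero _ hq0') (pow_ne_zero _ hB0'),
      Real.log_pow, Real.log_pow]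
  rw [hlog] at h5
  have h6 := Real.log_nonneg hB1
  have h7 := Real.log_nonneg hD1
  have h8 := Real.log_nonneg hq1
  have h9 : (0 : ℝ) ≤ b := Nat.cast_nonneg _
  have h10 : 0 ≤ (b : ℝ) * Real.log q0 := mul_nonneg h9 h8
  nlinarith [mul_nonneg h7 h6, mul_nonneg h10 h6, mul_nonneg h9 h6]

/-- the field and the character of `(H, ψ)` -/
structure Lt (p b : ℕ) (C : ℝ) (φ : Gal(QBar/K) →* G) (B : Finset (Pl K)) (H : Subgroup G) (ψ : G → ZMod p)
    (E : IntermediateField K QBar) [NumberField E] (χ : RC E (md (mB p B) E)) : Prop where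
  deg : Module.finrank K E ≤ b
  tc : TC E (Module.finrank ℚ E)
  ne : md (mB p B) E ≠ ⊥
  cond : Real.log (dd E * Ideal.absNorm (md (mB p B) E)) ≤ C * (1 + Real.log (nr B))
  non : (∃ y ∈ H, ψ y ≠ 0) → χ.Non
  non2 : (∃ y ∈ H, ψ y + ψ y ≠ 0) → Sq2 χ
  zero : ∀ V : Pl E, (dn K V ∈ B ∨ Above p (dn K V)) → χ.χ V.asIdeal = 0
  d1 : ∀ (Q : DP K QBar) (l : Pl K), ¬ Above p l → l ∉ B → (nm l).Prime → d1 K χ.χ l = mj H ψ (φ (fr Q l))
  up : ∀ (Q : DP K QBar) (s : ℂ), 1 < s.re → s.re ≤ 2 →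
    ‖LSeries (lbf χ.χ) s‖ ≤ C * Real.exp (PT (Fc p B φ Q (mj H ψ)) s)
  lo : ∀ (Q : DP K QBar) (s : ℂ), 1 < s.re → s.re ≤ 2 →
    Real.exp (PT (Fc p B φ Q (mj H ψ)) s) ≤ C * ‖LSeries (lbf χ.χ) s‖

theorem trb {ℓ p : ℕ} (hp : PQ ℓ p) {K : IntermediateField ℚ QBar} [NumberField K] (hM : MQ ℓ p K) {ζ : K}
    (hζ : IsPrimitiveRoot ζ p) (b : ℕ) : ∃ C : ℝ, 1 ≤ C ∧ ∀ (G : Type) [Group G] [Fintype G] (φ : Gal(QBar/K) →* G)
    (D : Subgroup G) (B : Finset (Pl K)), Sd p b φ D B → ∀ (H : Subgroup G) (ψ : G → ZMod p), Lc H ψ → D ≤ H →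
    (∀ y ∈ D, ψ y = 0) → ∃ (E : IntermediateField K QBar) (_ : NumberField E) (χ : RC E (md (mB p B) E)),
      Lt p b C φ B H ψ E χ := by
  obtain ⟨C2, hC2, hcond⟩ := trb_cond hp K b
  obtain ⟨nK, hnK⟩ : ∃ nK : ℕ, nK = Module.finrank ℚ K := ⟨_, rfl⟩
  obtain ⟨N, hN⟩ : ∃ N : ℕ, N = nK * b := ⟨_, rfl⟩
  choose C3 hC3 hcmp using pt_cmp
  choose C4 hC4 heul using eulc
  obtain ⟨D3, hD3⟩ : ∃ D3 : ℝ, D3 = ∑ n ∈ Finset.range (N + 1), C3 n := ⟨_, rfl⟩
  obtain ⟨D4, hD4⟩ : ∃ D4 : ℝ, D4 = ∑ n ∈ Finset.range (N + 1), C4 n := ⟨_, rfl⟩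
  have h3n : ∀ n ≤ N, C3 n ≤ D3 := by
    intro n hn
    rw [hD3]
    exact Finset.single_le_sum (f := C3) (fun i _ => by linarith [hC3 i]) (Finset.mem_range.2 (by omega))
  have h4n : ∀ n ≤ N, C4 n ≤ D4 := by
    intro n hn
    rw [hD4]
    exact Finset.single_le_sum (f := C4) (fun i _ => by linarith [hC4 i]) (Finset.mem_range.2 (by omega))
  have h31 : 1 ≤ D3 := (hC3 0).trans (h3n 0 (Nat.zero_le _))
  have h41 : 1 ≤ D4 := (hC4 0).trans (h4n 0 (Nat.zero_le _))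
  refine ⟨C2 + D4 * Real.exp D3, ?_, ?_⟩
  · have : 0 ≤ D4 * Real.exp D3 := by positivity
    linarith
  intro G _ _ φ D B hS H ψ hψ hD hD0
  obtain ⟨E, hnf, χ, hdeg, hTh, hfix, hn1, hn2, hd1⟩ := tra hp hM hζ hS H ψ hψ hD hD0
  have hEQ : Module.finrank ℚ E = nK * Module.finrank K E := by
    rw [hnK, ← Module.finrank_mul_finrank ℚ K E]
  have hEN : Module.finrank ℚ E ≤ N := by
    rw [hEQ, hN]
    exact Nat.mul_le_mul_left _ hdeg
  have htc : TC E (Module.finrank ℚ E) := by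
    rw [hEQ, hnK]
    exact H1.LS4.tc_up ⟨hM.tc hp hζ, rfl⟩ rfl
  have hne : md (mB p B) E ≠ ⊥ := by
    unfold md
    rw [Ne, Ideal.map_eq_bot_iff_of_injective (FaithfulSMul.algebraMap_injective (𝓞 K) (𝓞 E))]
    exact mB_ne hp B
  have hzero : ∀ V : Pl E, (dn K V ∈ B ∨ Above p (dn K V)) → χ.χ V.asIdeal = 0 := by
    intro V hV
    apply χ.zero_of
    have hdvd : (dn K V).asIdeal ∣ mB p B := by
      unfold H57.GP.mB
      rcases hV with h | h
      · exact (Finset.dvd_prod_of_mem _ h).mul_left _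
      · refine Dvd.dvd.mul_right ?_ _
        rw [Ideal.dvd_span_singleton]
        exact Ideal.pow_mem_of_mem _ h 3 (by norm_num)
    have h1 : md (mB p B) E ≤ V.asIdeal := by
      unfold md
      rw [Ideal.map_le_iff_le_comap, show V.asIdeal.comap (algebraMap (𝓞 K) (𝓞 E)) = (dn K V).asIdeal from dn_over K V]
      exact Ideal.le_of_dvd hdvd
    rw [Ideal.isCoprime_iff_sup_eq]
    intro h2
    rw [sup_eq_left.2 h1] at h2
    exact V.isPrime.ne_top h2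
  have hFb : ∀ (Q : DP K QBar) w, ‖Fc p B φ Q (mj H ψ) w‖ ≤ Fintype.card G := fun Q w =>
    fc_bd (Nat.cast_nonneg _) (mj_bd H ψ) w
  have hFe : ∀ (Q : DP K QBar) w, Fc p B φ Q (mj H ψ) w =
      if w ∉ B ∧ ¬ Above p w ∧ (nm w).Prime then H57.SL.d1 K χ.χ w else 0 := by
    intro Q w
    unfold Fc
    split_ifs with h
    · rw [hd1 Q w h.2.1 h.1 h.2.2]
    · rfl
  have hχb := lbd_rc_norm_le χ
  have hB0 : 0 ≤ Real.log (nr B) := Real.log_nonneg (nr_one B)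
  have hDE : C4 (Module.finrank ℚ E) * Real.exp (C3 (Module.finrank ℚ E)) ≤ D4 * Real.exp D3 :=
    mul_le_mul (h4n _ hEN) (Real.exp_le_exp.2 (h3n _ hEN)) (Real.exp_pos _).le (by linarith)
  have hC20 : 0 ≤ C2 := by linarith
  refine ⟨E, hnf, χ, hdeg, htc, hne, ?_, hn1, hn2, hzero, hd1, ?_, ?_⟩
  · refine (hcond E _ B hdeg hTh).trans ?_
    refine mul_le_mul_of_nonneg_right ?_ (by linarith)
    have : 0 ≤ D4 * Real.exp D3 := by positivity
    linarith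
  · intro Q s hs hs2
    have h1 := (heul (Module.finrank ℚ E) E rfl χ.χ hχb s hs hs2).1
    have h2 := hcmp (Module.finrank ℚ E) K E rfl p B _ χ hzero _ (hFe Q) _ (hFb Q) s hs
    have h3 := (abs_le.1 h2).2
    have h5 : 0 ≤ C4 (Module.finrank ℚ E) := by linarith [hC4 (Module.finrank ℚ E)]
    calc ‖LSeries (lbf χ.χ) s‖ ≤ C4 (Module.finrank ℚ E) * Real.exp (PT (fun v : Pl E => χ.χ v.asIdeal) s) := h1
      _ ≤ C4 (Module.finrank ℚ E) * Real.exp (C3 (Module.finrank ℚ E) + PT (Fc p B φ Q (mj H ψ)) s) :=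
          mul_le_mul_of_nonneg_left (Real.exp_le_exp.2 (by linarith)) h5
      _ = (C4 (Module.finrank ℚ E) * Real.exp (C3 (Module.finrank ℚ E))) * Real.exp (PT (Fc p B φ Q (mj H ψ)) s) := by
          rw [Real.exp_add]
          ring
      _ ≤ (C2 + D4 * Real.exp D3) * Real.exp (PT (Fc p B φ Q (mj H ψ)) s) :=
          mul_le_mul_of_nonneg_right (by linarith) (Real.exp_pos _).le
  · intro Q s hs hs2
    have h1 := (heul (Module.finrank ℚ E) E rfl χ.χ hχb s hs hs2).2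
    have h2 := hcmp (Module.finrank ℚ E) K E rfl p B _ χ hzero _ (hFe Q) _ (hFb Q) s hs
    have h3 := (abs_le.1 h2).1
    calc Real.exp (PT (Fc p B φ Q (mj H ψ)) s) ≤
          Real.exp (C3 (Module.finrank ℚ E) + PT (fun v : Pl E => χ.χ v.asIdeal) s) :=
          Real.exp_le_exp.2 (by linarith)
      _ = Real.exp (C3 (Module.finrank ℚ E)) * Real.exp (PT (fun v : Pl E => χ.χ v.asIdeal) s) := Real.exp_add _ _
      _ ≤ Real.exp (C3 (Module.finrank ℚ E)) * (C4 (Module.finrank ℚ E) * ‖LSeries (lbf χ.χ) s‖) :=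
          mul_le_mul_of_nonneg_left h1 (Real.exp_pos _).le
      _ = (C4 (Module.finrank ℚ E) * Real.exp (C3 (Module.finrank ℚ E))) * ‖LSeries (lbf χ.χ) s‖ := by ring
      _ ≤ (C2 + D4 * Real.exp D3) * ‖LSeries (lbf χ.χ) s‖ :=
          mul_le_mul_of_nonneg_right (by linarith) (norm_nonneg _)

end

end H93.G2
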