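import Pool.Agent.H93.G2.Rqd
import Pool.Agent.H93.G2.Chw
import Pool.Agent.H1.P2.Sg

/-!
# H93 G2 TRW: the ray class character of a real character of the Galois group of `K`, over the field `⊥`
-/

set_option autoImplicit false

open scoped NumberField Pointwise Classical
open IsDedekindDomain H63.MA NumberField H36.QA H57.LI H57.LC H67.SX H38.ML H57.SL H57.AN H57.GP H57.GP.Q H57.GP.Q.E H1.PN

noncomputable section

namespace H93.G2

variable {K : IntermediateField ℚ QBar} [NumberField K]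

private theorem trw_mem (E : IntermediateField K QBar)
    (σ : Gal(QBar/K)) : σ ∈ E.fixingSubgroup ↔ ac σ E.val = E.val := by
  rw [IntermediateField.mem_fixingSubgroup_iff]
  constructor
  · intro h
    exact AlgHom.ext fun x => h x x.2
  · intro h x hx
    exact DFunLike.congr_fun h (⟨x, hx⟩ : E)

private theorem trw_conj (E : IntermediateField K QBar)
    (φ τ : Gal(QBar/K)) : ac φ (ac τ E.val) = ac τ E.val ↔ τ⁻¹ * φ * τ ∈ E.fixingSubgroup := by
  rw [trw_mem, ac_mul, ac_mul]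
  constructor
  · intro h
    rw [h, ← ac_mul, inv_mul_cancel, ac_one]
  · intro h
    have h1 := congrArg (ac τ) h
    rw [← ac_mul τ τ⁻¹, mul_inv_cancel, ac_one] at h1
    exact h1

private theorem trw_one {p : ℕ} (E : IntermediateField K QBar) [NumberField E] (θ : Gal(QBar/K) → ZMod p) (B : Finset (Pl K))
    (hT : Th p E θ B) (χ : RC E (md (mB p B) E)) (hV : Vl p E θ B χ) (Γ' : Subgroup Gal(QBar/K))
    (hΓ : E.fixingSubgroup = Γ') (Q : DP K QBar) (l : Pl K) (hl : ¬ Above p l) (hlB : l ∉ B)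
    (hnp : (nm l).Prime) (f : Gal(QBar/K) → ℂ)
    (hf : ∀ τ, f τ = if τ⁻¹ * fr Q l * τ ∈ Γ' then ep p (θ (τ⁻¹ * fr Q l * τ)) else 0) :
    d1 K χ.χ l = ∑ᶠ q : Gal(QBar/K) ⧸ Γ', f q.out := by
  subst hΓ
  have hIT : IT QBar E l := th_IT E θ B hT l hl hlB
  have h1 : d1 K χ.χ l = ∑ᶠ ι ∈ fx E (fr Q l), χ.χ (pe E Q l ι).asIdeal :=
    dic_sum E Q l hIT (fun w => χ.χ w.asIdeal)
  have hout : ∀ q q' : Gal(QBar/K) ⧸ E.fixingSubgroup, ac q.out E.val = ac q'.out E.val → q = q' := by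
    intro q q' h
    have h2 := (fld_emb E q.out q'.out).1 h
    have h3 := QuotientGroup.eq.2 h2
    rwa [QuotientGroup.out_eq', QuotientGroup.out_eq'] at h3
  let e : (Gal(QBar/K) ⧸ E.fixingSubgroup) → (E →ₐ[K] QBar) := fun q => ac q.out E.val
  have he : Function.Bijective e := by
    refine ⟨fun q q' h => hout q q' h, fun ι => ?_⟩
    obtain ⟨τ, hτ⟩ := emb_tr E E.val ι
    refine ⟨(τ : Gal(QBar/K) ⧸ E.fixingSubgroup), ?_⟩
    rw [hτ]
    show ac (Quotient.out (τ : Gal(QBar/K) ⧸ E.fixingSubgroup)) E.val = ac τ E.val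
    rw [fld_emb]
    apply QuotientGroup.eq.1
    exact QuotientGroup.out_eq' _
  rw [h1, finsum_mem_def]
  refine (finsum_eq_of_bijective e he fun q => ?_).symm
  rw [hf]
  by_cases hq : (q.out)⁻¹ * fr Q l * q.out ∈ E.fixingSubgroup
  · rw [if_pos hq, Set.indicator_of_mem]
    · exact (hV Q l hl hlB hnp q.out hq).symm
    · exact (trw_conj E (fr Q l) q.out).2 hq
  · rw [if_neg hq, Set.indicator_of_notMem]
    intro hc
    exact hq ((trw_conj E (fr Q l) q.out).1 hc)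

theorem trw {p : ℕ} (hp : PQ 2 p) (hM : MQ 2 p K) {ζ : K} (hζ : IsPrimitiveRoot ζ p) :
    ∃ (_ : NumberField (⊥ : IntermediateField K QBar)) (C : ℝ), 1 ≤ C ∧
      TC (⊥ : IntermediateField K QBar) (Module.finrank ℚ (⊥ : IntermediateField K QBar)) ∧
      ∀ (B : Finset (Pl K)) (μ : Gal(QBar/K) → ZMod p), Rq p μ B →
        ∃ χ : RC (⊥ : IntermediateField K QBar) (md (mB p B) (⊥ : IntermediateField K QBar)),
          χ.Non ∧ H1.P2.Rl χ.χ ∧ ∀ (Q : DP K QBar) (σ : ℝ), 1 < σ → σ ≤ 2 →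
            Real.exp (PT (Fm p B Q μ) σ) ≤ C * ‖LSeries (lbf χ.χ) σ‖ ∧
            ‖LSeries (lbf χ.χ) σ‖ ≤ C * Real.exp (PT (Fm p B Q μ) σ) := by
  obtain ⟨E, hE⟩ : ∃ E : IntermediateField K QBar, E = ⊥ := ⟨_, rfl⟩
  rw [← hE]
  have hfix : E.fixingSubgroup = ⊤ := by
    rw [hE]
    exact IntermediateField.fixingSubgroup_bot
  have hfd : FiniteDimensional K E := by
    rw [hE]
    infer_instance
  have hnf : NumberField E := NumberField.of_module_finite K E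
  obtain ⟨n, hn⟩ : ∃ n : ℕ, Module.finrank ℚ E = n := ⟨_, rfl⟩
  obtain ⟨C3, hC3, hcmp⟩ := pt_cmp n
  obtain ⟨C4, hC4, heul⟩ := eulc n
  have htc : TC E (Module.finrank ℚ E) := by
    rw [← Module.finrank_mul_finrank ℚ K E]
    exact H1.LS4.tc_up ⟨hM.tc hp hζ, rfl⟩ rfl
  refine ⟨hnf, C4 * Real.exp C3, one_le_mul_of_one_le_of_one_le hC4 (Real.one_le_exp (by linarith)), htc, ?_⟩
  intro B μ hμ
  have hTh : Th p E μ B := by
    refine ⟨fun σ _ τ _ => hμ.mul σ τ, ?_, ?_⟩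
    · obtain ⟨M, h1, h2⟩ := hμ.ft
      exact ⟨M, h1, fun σ hσ => ⟨by rw [hfix]; trivial, h2 σ hσ⟩⟩
    · intro l hl hlB P hP hPl τ hτ
      exact ⟨by rw [hfix]; trivial, hμ.unr l hl hlB P hP hPl τ hτ⟩
  obtain ⟨χ, hV, hnon, -, hreal⟩ := chw hp hM hζ E μ B hTh
  refine ⟨χ, hnon ?_, H1.P2.rl_of χ (hreal fun σ _ => hμ.real σ), ?_⟩
  · obtain ⟨σ, hσ⟩ := hμ.ne
    exact ⟨σ, by rw [hfix]; trivial, hσ⟩
  have hzero : ∀ V : Pl E, (dn K V ∈ B ∨ Above p (dn K V)) → χ.χ V.asIdeal = 0 := by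
    intro V hV
    apply χ.zero_of
    have hdvd : (dn K V).asIdeal ∣ mB p B := by
      unfold H57.GP.mB
      rcases hV with h | h
      · exact (Finset.dvd_prod_of_mem _ h).mul_left _
      · refine Dvd.dvd.mul_right ?_ _
        rw [Ideal.dvd_span_singleton]
        exact Ideal.pow_mem_of_mem _ h 3 (by norm_num)
    have h1 : md (mB p B) E ≤ V.asIdeal := by
      unfold md
      rw [Ideal.map_le_iff_le_comap, show V.asIdeal.comap (algebraMap (𝓞 K) (𝓞 E)) = (dn K V).asIdeal from dn_over K V]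
      exact Ideal.le_of_dvd hdvd
    rw [Ideal.isCoprime_iff_sup_eq]
    intro h2
    rw [sup_eq_left.2 h1] at h2
    exact V.isPrime.ne_top h2
  have hcj : ∀ σ τ : Gal(QBar/K), μ (τ⁻¹ * σ * τ) = μ σ := by
    intro σ τ
    have h1 : μ τ⁻¹ + μ τ = 0 := by rw [← hμ.mul, inv_mul_cancel, hμ.one]
    rw [hμ.mul, hμ.mul]
    calc μ τ⁻¹ + μ σ + μ τ = μ σ + (μ τ⁻¹ + μ τ) := by ring
      _ = μ σ := by rw [h1, add_zero]
  have hd1 : ∀ (Q : DP K QBar) (l : Pl K), ¬ Above p l → l ∉ B → (nm l).Prime → H57.SL.d1 K χ.χ l = ep p (μ (fr Q l)) := by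
    intro Q l hl hlB hnp
    rw [trw_one E μ B hTh χ hV ⊤ hfix Q l hl hlB hnp (fun _ => ep p (μ (fr Q l))) (fun τ => by
      rw [if_pos (Subgroup.mem_top _), hcj])]
    have hs : Subsingleton (Gal(QBar/K) ⧸ (⊤ : Subgroup Gal(QBar/K))) := QuotientGroup.subsingleton_quotient_top
    have hu : Unique (Gal(QBar/K) ⧸ (⊤ : Subgroup Gal(QBar/K))) := uniqueOfSubsingleton (QuotientGroup.mk 1)
    exact finsum_unique _
  have hχb := lbd_rc_norm_le χ
  intro Q σ hσ hσ2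
  have hFe : ∀ w, Fm p B Q μ w = if w ∉ B ∧ ¬ Above p w ∧ (nm w).Prime then H57.SL.d1 K χ.χ w else 0 := by
    intro w
    unfold Fm
    split_ifs with h
    · rw [hd1 Q w h.2.1 h.1 h.2.2]
    · rfl
  have hs : 1 < (σ : ℂ).re := by simpa using hσ
  have hs2 : (σ : ℂ).re ≤ 2 := by simpa using hσ2
  have h1 := heul E hn χ.χ hχb σ hs hs2
  have h2 := abs_le.1 (hcmp K E hn p B _ χ hzero _ hFe 1 (fm_bd B Q μ) σ hs)
  constructor
  · calc Real.exp (PT (Fm p B Q μ) σ) ≤ Real.exp (C3 + PT (fun v : Pl E => χ.χ v.asIdeal) σ) :=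
          Real.exp_le_exp.2 (by linarith [h2.1])
      _ = Real.exp C3 * Real.exp (PT (fun v : Pl E => χ.χ v.asIdeal) σ) := Real.exp_add _ _
      _ ≤ Real.exp C3 * (C4 * ‖LSeries (lbf χ.χ) σ‖) := mul_le_mul_of_nonneg_left h1.2 (Real.exp_pos _).le
      _ = _ := by ring
  · calc ‖LSeries (lbf χ.χ) σ‖ ≤ C4 * Real.exp (PT (fun v : Pl E => χ.χ v.asIdeal) σ) := h1.1
      _ ≤ C4 * Real.exp (C3 + PT (Fm p B Q μ) σ) :=
          mul_le_mul_of_nonneg_left (Real.exp_le_exp.2 (by linarith [h2.2])) (by linarith)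
      _ = _ := by
          rw [Real.exp_add]
          ring

end H93.G2
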